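import Mathlib

/-! # From one-sided bounds to an asymptotic, through an average -/

set_option autoImplicit false

open MeasureTheory Set Filter Topology

namespace Helper859_PC.Abs

/-- uniform lower bounds to the right of every point -/
def Unif (η : ℝ) (D : ℝ → ℝ → ℝ) : Prop :=
  ∀ u0 : ℝ, 0 ≤ u0 → ∀ a : ℝ, u0 < a → ∀ δ : ℝ, 0 < δ →
    ∀ᶠ T in atTop, ∀ u ∈ Icc u0 a, D T u0 - η - δ ≤ D T u

/-- the average controls the function -/
theorem conclude {D : ℝ → ℝ → ℝ} {c : ℝ → ℝ} {η κ : ℝ} (hη : 0 ≤ η) (hκ : 0 ≤ κ)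
    (h0 : ∀ᶠ T in atTop, D T 0 = 0)
    (hint : ∀ᶠ T in atTop, ∀ a : ℝ, 0 ≤ a → IntervalIntegrable (D T) volume 0 a)
    (havg : ∀ ε : ℝ, 0 < ε → ∃ a0 : ℝ, 0 < a0 ∧ ∀ a : ℝ, a0 ≤ a → ∀ᶠ T in atTop,
      |1 / a * (∫ u in (0 : ℝ)..a, D T u) - c T| ≤ ε)
    (hc : ∀ ε : ℝ, 0 < ε → ∀ᶠ T in atTop, c T ≤ κ + ε) (hU : Unif η D) :
    (∀ u : ℝ, 0 ≤ u → ∀ ε : ℝ, 0 < ε →
      ∀ᶠ T in atTop, -η - ε ≤ D T u ∧ D T u ≤ κ + η + ε) ∧
    ∀ ε : ℝ, 0 < ε → ∀ᶠ T in atTop, -η - ε ≤ c T := by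
  constructor
  · intro u0 hu0 e he
    obtain ⟨a0, ha0, hav⟩ := havg (e / 8) (by positivity)
    have hB : 0 < κ + η + e := by positivity
    set a := max a0 (2 * (κ + η + e) * u0 / e + u0 + 1) with ha
    have ha1 : a0 ≤ a := le_max_left _ _
    have ha2 : 2 * (κ + η + e) * u0 / e + u0 + 1 ≤ a := le_max_right _ _
    have hq : 0 ≤ 2 * (κ + η + e) * u0 / e := by positivity
    have hapos : 0 < a := ha0.trans_le ha1
    filter_upwards [h0, hint, hav a ha1, hc (e / 8) (by positivity),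
      hU u0 hu0 a (by linarith) (e / 8) (by positivity),
      hU 0 le_rfl a hapos (e / 8) (by positivity)] with T e0 ei ea ec eu e1
    rw [e0] at e1
    have lower : -η - e / 8 ≤ D T u0 := by
      have := e1 u0 ⟨hu0, by linarith⟩
      linarith
    refine ⟨by linarith, ?_⟩
    have i1 := ei u0 hu0
    have i2 := (ei a hapos.le)
    have i3 : IntervalIntegrable (D T) volume u0 a := i1.symm.trans i2
    have s1 := intervalIntegral.integral_add_adjacent_intervals i1 i3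
    have b1 : -(η + e / 8) * u0 ≤ ∫ u in (0 : ℝ)..u0, D T u := by
      have := intervalIntegral.integral_mono_on hu0 (intervalIntegrable_const (c := -(η + e / 8)))
        i1 (fun u hu => by
          have := e1 u ⟨hu.1, by linarith [hu.2]⟩
          linarith)
      rw [intervalIntegral.integral_const, smul_eq_mul, sub_zero] at this
      linarith
    have b2 : (D T u0 - η - e / 8) * (a - u0) ≤ ∫ u in u0..a, D T u := by
      have := intervalIntegral.integral_mono_on (show u0 ≤ a by linarith)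
        (intervalIntegrable_const (c := D T u0 - η - e / 8)) i3 (fun u hu => eu u hu)
      rw [intervalIntegral.integral_const, smul_eq_mul] at this
      linarith
    have b3 : (∫ u in (0 : ℝ)..a, D T u) ≤ (κ + e / 4) * a := by
      have h1 := (abs_le.mp ea).2
      have h2 : 1 / a * (∫ u in (0 : ℝ)..a, D T u) ≤ κ + e / 4 := by linarith
      rw [one_div, inv_mul_le_iff₀ hapos] at h2
      linarith
    have b4 : D T u0 * (a - u0) ≤ (κ + η + 3 * e / 8) * a := by nlinarith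
    by_contra hcon
    have hcon := not_le.mp hcon
    have b5 : (κ + η + e) * (a - u0) < D T u0 * (a - u0) :=
      mul_lt_mul_of_pos_right hcon (by linarith)
    have b6 : 2 * (κ + η + e) * u0 ≤ e * a := by
      have : 2 * (κ + η + e) * u0 / e ≤ a := by linarith
      rw [div_le_iff₀ he] at this
      linarith
    have b7 : 0 < e * a := by positivity
    nlinarith
  · intro e he
    obtain ⟨a0, ha0, hav⟩ := havg (e / 4) (by positivity)
    filter_upwards [h0, hint, hav a0 le_rfl,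
      hU 0 le_rfl a0 ha0 (e / 4) (by positivity)] with T e0 ei ea e1
    rw [e0] at e1
    have b1 : -(η + e / 4) * a0 ≤ ∫ u in (0 : ℝ)..a0, D T u := by
      have := intervalIntegral.integral_mono_on ha0.le
        (intervalIntegrable_const (c := -(η + e / 4))) (ei a0 ha0.le) (fun u hu => by
          have := e1 u hu
          linarith)
      rw [intervalIntegral.integral_const, smul_eq_mul, sub_zero] at this
      linarith
    have b2 : -(η + e / 4) ≤ 1 / a0 * ∫ u in (0 : ℝ)..a0, D T u := by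
      rw [one_div, le_inv_mul_iff₀ ha0]
      linarith
    have h1 := (abs_le.mp ea).2
    linarith

/-- the case without loss -/
theorem conclude0 {D : ℝ → ℝ → ℝ} {c : ℝ → ℝ} (h0 : ∀ᶠ T in atTop, D T 0 = 0)
    (hint : ∀ᶠ T in atTop, ∀ a : ℝ, 0 ≤ a → IntervalIntegrable (D T) volume 0 a)
    (havg : ∀ ε : ℝ, 0 < ε → ∃ a0 : ℝ, 0 < a0 ∧ ∀ a : ℝ, a0 ≤ a → ∀ᶠ T in atTop,
      |1 / a * (∫ u in (0 : ℝ)..a, D T u) - c T| ≤ ε)
    (hc : ∀ ε : ℝ, 0 < ε → ∀ᶠ T in atTop, c T ≤ ε) (hU : Unif 0 D) :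
    (∀ u : ℝ, 0 ≤ u → Tendsto (fun T => D T u) atTop (𝓝 0)) ∧ Tendsto c atTop (𝓝 0) := by
  obtain ⟨k1, k2⟩ := conclude le_rfl le_rfl h0 hint havg (fun ε hε => by
    filter_upwards [hc ε hε] with T hT
    linarith) hU
  constructor
  · intro u hu
    rw [Metric.tendsto_nhds]
    intro ε hε
    filter_upwards [k1 u hu (ε / 2) (by positivity)] with T hT
    rw [dist_zero_right, Real.norm_eq_abs, abs_lt]
    constructor <;> linarith [hT.1, hT.2]
  · rw [Metric.tendsto_nhds]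
    intro ε hε
    filter_upwards [k2 (ε / 2) (by positivity), hc (ε / 2) (by positivity)] with T h1 h2
    rw [dist_zero_right, Real.norm_eq_abs, abs_lt]
    constructor <;> linarith

/-- uniformity from a grid, at one place -/
lemma unif_at {D : ℝ → ℝ → ℝ} {η : ℝ} (hη : 0 ≤ η) {u0 a : ℝ} (hu0 : 0 ≤ u0) (ha : u0 < a)
    (hlow : ∀ β ε : ℝ, u0 < β → β ≤ a → 0 < ε → ∀ᶠ T in atTop, D T u0 - η - ε ≤ D T β)
    (hnear : ∀ᶠ T in atTop, ∀ u0 a : ℝ, 0 ≤ u0 → u0 < a → ∀ u ∈ Icc u0 a, ∀ K : ℕ, 0 < K →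
      ∃ k : ℕ, k ≤ K ∧ D T (u0 + k * ((a - u0) / K)) ≤ D T u + (a - u0) / K) :
    ∀ δ : ℝ, 0 < δ → ∀ᶠ T in atTop, ∀ u ∈ Icc u0 a, D T u0 - η - δ ≤ D T u := by
  intro δ hδ
  obtain ⟨K, hK⟩ := exists_nat_gt (2 * (a - u0) / δ)
  have hK0 : (0 : ℝ) < K := lt_trans (by apply div_pos; linarith; exact hδ) hK
  have hKn : 0 < K := by exact_mod_cast hK0
  have hmesh : (a - u0) / K ≤ δ / 2 := by
    rw [div_le_iff₀ hK0]
    rw [div_lt_iff₀ hδ] at hK
    linarith
  have hall : ∀ᶠ T in atTop, ∀ k ∈ Finset.range (K + 1),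
      D T u0 - η - δ / 2 ≤ D T (u0 + k * ((a - u0) / K)) := by
    rw [Filter.eventually_all_finset]
    intro k hk
    rcases Nat.eq_zero_or_pos k with h | h
    · refine Filter.Eventually.of_forall fun T => ?_
      rw [h, Nat.cast_zero, zero_mul, add_zero]
      linarith
    · have h2 : 0 < (a - u0) / K := div_pos (by linarith) hK0
      refine hlow _ (δ / 2) ?_ ?_ (by positivity)
      · have h1 : (0 : ℝ) < k := by exact_mod_cast h
        have := mul_pos h1 h2
        linarith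
      · have hk' : (k : ℝ) ≤ K := by
          have := Finset.mem_range.mp hk
          exact_mod_cast (show k ≤ K by omega)
        have h3 : (k : ℝ) * ((a - u0) / K) ≤ K * ((a - u0) / K) :=
          mul_le_mul_of_nonneg_right hk' h2.le
        have h4 : (K : ℝ) * ((a - u0) / K) = a - u0 := by field_simp
        linarith
  filter_upwards [hall, hnear] with T h1 h2
  intro u hu
  obtain ⟨k, hk, hk2⟩ := h2 u0 a hu0 ha u hu K hKn
  have h3 := h1 k (Finset.mem_range.mpr (by omega))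
  linarith

/-- uniformity from a grid -/
lemma unif_of {D : ℝ → ℝ → ℝ} {η : ℝ} (hη : 0 ≤ η)
    (hlow : ∀ α β ε : ℝ, 0 ≤ α → α < β → 0 < ε → ∀ᶠ T in atTop, D T α - η - ε ≤ D T β)
    (hnear : ∀ᶠ T in atTop, ∀ u0 a : ℝ, 0 ≤ u0 → u0 < a → ∀ u ∈ Icc u0 a, ∀ K : ℕ, 0 < K →
      ∃ k : ℕ, k ≤ K ∧ D T (u0 + k * ((a - u0) / K)) ≤ D T u + (a - u0) / K) : Unif η D :=
  fun u0 hu0 _ ha => unif_at hη hu0 ha (fun β ε h1 _ h3 => hlow u0 β ε hu0 h1 h3) hnear

/-- the local form: information up to `B` only -/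
theorem conclude_local {D : ℝ → ℝ → ℝ} {c : ℝ → ℝ} {B E η : ℝ} (hB : 0 < B) (hE : 0 ≤ E)
    (hη : 0 ≤ η) (h0 : ∀ᶠ T in atTop, D T 0 = 0)
    (hint : ∀ᶠ T in atTop, ∀ a : ℝ, 0 ≤ a → IntervalIntegrable (D T) volume 0 a)
    (havg : ∀ ε : ℝ, 0 < ε → ∀ᶠ T in atTop,
      |1 / B * (∫ u in (0 : ℝ)..B, D T u) - c T| ≤ E + ε)
    (hc : ∀ ε : ℝ, 0 < ε → ∀ᶠ T in atTop, c T ≤ ε)
    (hU : ∀ u0 : ℝ, 0 ≤ u0 → u0 < B → ∀ δ : ℝ, 0 < δ →
      ∀ᶠ T in atTop, ∀ u ∈ Icc u0 B, D T u0 - η - δ ≤ D T u) :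
    (∀ u : ℝ, 0 ≤ u → u < B → ∀ ε : ℝ, 0 < ε →
      ∀ᶠ T in atTop, -η - ε ≤ D T u ∧ D T u ≤ (η + E) * (B / (B - u)) + ε) ∧
    ∀ ε : ℝ, 0 < ε → ∀ᶠ T in atTop, -(η + E) - ε ≤ c T := by
  constructor
  · intro u0 hu0 huB ε hε
    have hBu : 0 < B - u0 := by linarith
    set e := min (ε * (B - u0) / (4 * B)) (ε / 4) with he_def
    have he : 0 < e := lt_min (by positivity) (by positivity)
    have he1 : e ≤ ε * (B - u0) / (4 * B) := min_le_left _ _
    have he2 : e ≤ ε / 4 := min_le_right _ _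
    filter_upwards [h0, hint, havg e he, hc e he, hU u0 hu0 huB e he,
      hU 0 le_rfl hB e he] with T e0 ei ea ec eu e1
    rw [e0] at e1
    have lower : -η - e ≤ D T u0 := by
      have := e1 u0 ⟨hu0, huB.le⟩
      linarith
    refine ⟨by linarith, ?_⟩
    have i1 := ei u0 hu0
    have i2 := (ei B hB.le)
    have i3 : IntervalIntegrable (D T) volume u0 B := i1.symm.trans i2
    have s1 := intervalIntegral.integral_add_adjacent_intervals i1 i3
    have b1 : -(η + e) * u0 ≤ ∫ u in (0 : ℝ)..u0, D T u := by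
      have := intervalIntegral.integral_mono_on hu0 (intervalIntegrable_const (c := -(η + e)))
        i1 (fun u hu => by
          have := e1 u ⟨hu.1, by linarith [hu.2]⟩
          linarith)
      rw [intervalIntegral.integral_const, smul_eq_mul, sub_zero] at this
      linarith
    have b2 : (D T u0 - η - e) * (B - u0) ≤ ∫ u in u0..B, D T u := by
      have := intervalIntegral.integral_mono_on huB.le
        (intervalIntegrable_const (c := D T u0 - η - e)) i3 (fun u hu => eu u hu)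
      rw [intervalIntegral.integral_const, smul_eq_mul] at this
      linarith
    have b3 : (∫ u in (0 : ℝ)..B, D T u) ≤ (E + 2 * e) * B := by
      have h1 := (abs_le.mp ea).2
      have h2 : 1 / B * (∫ u in (0 : ℝ)..B, D T u) ≤ E + 2 * e := by linarith
      rw [one_div, inv_mul_le_iff₀ hB] at h2
      linarith
    have b4 : D T u0 * (B - u0) ≤ (η + E + 3 * e) * B := by nlinarith
    have b5 : 4 * e * B ≤ ε * (B - u0) := by
      rw [le_div_iff₀ (by positivity)] at he1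
      linarith
    have b6 : D T u0 ≤ (η + E + 3 * e) * B / (B - u0) := by
      rw [le_div_iff₀ hBu]; exact b4
    refine b6.trans ?_
    rw [div_le_iff₀ hBu]
    have e5 : ((η + E) * (B / (B - u0)) + ε) * (B - u0) = (η + E) * B + ε * (B - u0) := by
      field_simp
    rw [e5]
    nlinarith [mul_pos he hB]
  · intro e he
    filter_upwards [h0, hint, havg (e / 4) (by positivity),
      hU 0 le_rfl hB (e / 4) (by positivity)] with T e0 ei ea e1
    rw [e0] at e1
    have b1 : -(η + e / 4) * B ≤ ∫ u in (0 : ℝ)..B, D T u := by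
      have := intervalIntegral.integral_mono_on hB.le
        (intervalIntegrable_const (c := -(η + e / 4))) (ei B hB.le) (fun u hu => by
          have := e1 u hu
          linarith)
      rw [intervalIntegral.integral_const, smul_eq_mul, sub_zero] at this
      linarith
    have b2 : -(η + e / 4) ≤ 1 / B * ∫ u in (0 : ℝ)..B, D T u := by
      rw [one_div, le_inv_mul_iff₀ hB]
      linarith
    have h1 := (abs_le.mp ea).2
    linarith

/-- grid points on the left -/
lemma near_left {D : ℝ → ℝ → ℝ} (hLip : ∀ᶠ T in atTop, ∀ u v : ℝ, 0 ≤ u → u ≤ v →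
      D T u ≤ D T v + (v - u)) :
    ∀ᶠ T in atTop, ∀ u0 a : ℝ, 0 ≤ u0 → u0 < a → ∀ u ∈ Icc u0 a, ∀ K : ℕ, 0 < K →
      ∃ k : ℕ, k ≤ K ∧ D T (u0 + k * ((a - u0) / K)) ≤ D T u + (a - u0) / K := by
  filter_upwards [hLip] with T h u0 a hu0 ha u hu K hK
  have hK0 : (0 : ℝ) < K := by exact_mod_cast hK
  set s := (a - u0) / K with hs
  have hs0 : 0 < s := div_pos (by linarith) hK0
  have hsK : K * s = a - u0 := by rw [hs]; field_simp
  have hx0 : 0 ≤ (u - u0) / s := div_nonneg (by linarith [hu.1]) hs0.le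
  refine ⟨⌊(u - u0) / s⌋₊, ?_, ?_⟩
  · have h1 : (u - u0) / s ≤ K := by rw [div_le_iff₀ hs0, hsK]; linarith [hu.2]
    exact_mod_cast (Nat.floor_le hx0).trans h1
  · have h1 := Nat.floor_le hx0
    have h2 := Nat.lt_floor_add_one ((u - u0) / s)
    rw [le_div_iff₀ hs0] at h1
    rw [div_lt_iff₀ hs0] at h2
    have h3 := h (u0 + (⌊(u - u0) / s⌋₊ : ℝ) * s) u (by positivity) (by linarith)
    linarith

/-- grid points on the right -/
lemma near_right {D : ℝ → ℝ → ℝ} (hLip : ∀ᶠ T in atTop, ∀ u v : ℝ, 0 ≤ u → u ≤ v →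
      D T v ≤ D T u + (v - u)) :
    ∀ᶠ T in atTop, ∀ u0 a : ℝ, 0 ≤ u0 → u0 < a → ∀ u ∈ Icc u0 a, ∀ K : ℕ, 0 < K →
      ∃ k : ℕ, k ≤ K ∧ D T (u0 + k * ((a - u0) / K)) ≤ D T u + (a - u0) / K := by
  filter_upwards [hLip] with T h u0 a hu0 ha u hu K hK
  have hK0 : (0 : ℝ) < K := by exact_mod_cast hK
  set s := (a - u0) / K with hs
  have hs0 : 0 < s := div_pos (by linarith) hK0
  have hsK : K * s = a - u0 := by rw [hs]; field_simp
  have hx0 : 0 ≤ (u - u0) / s := div_nonneg (by linarith [hu.1]) hs0.le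
  refine ⟨⌈(u - u0) / s⌉₊, ?_, ?_⟩
  · rw [Nat.ceil_le, div_le_iff₀ hs0, hsK]
    linarith [hu.2]
  · have h1 := Nat.le_ceil ((u - u0) / s)
    have h2 := Nat.ceil_lt_add_one hx0
    rw [div_le_iff₀ hs0] at h1
    have h2' : (⌈(u - u0) / s⌉₊ : ℝ) * s < u - u0 + s := by
      have := mul_lt_mul_of_pos_right h2 hs0
      rw [add_mul, div_mul_cancel₀ _ hs0.ne', one_mul] at this
      exact this
    have h3 := h u (u0 + (⌈(u - u0) / s⌉₊ : ℝ) * s) (by linarith [hu.1]) (by linarith)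
    linarith

end Helper859_PC.Abs
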