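import Pool.Agent.Helper859_PC.Ker

/-! # Dyadic summation and elementary inequalities -/

set_option autoImplicit false

open MeasureTheory Set Filter Topology

namespace Helper859_PC

/-- dyadic summation -/
lemma dyadic {G : ℝ → ℝ} {T c1 c2 : ℝ} (J : ℕ)
    (h : ∀ k < J, |G (T / 2 ^ k) - G (T / 2 ^ (k + 1))| ≤
      T / 2 ^ (k + 1) * (c1 * ((k : ℝ) + 1) ^ 2 + c2)) :
    |G T - G (T / 2 ^ J)| ≤ T * (6 * c1 + c2) -
      T / 2 ^ J * (c1 * ((J : ℝ) ^ 2 + 4 * J + 6) + c2) := by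
  induction J with
  | zero => simp; linarith
  | succ J ih =>
    have h1 := ih fun k hk => h k (by omega)
    have h2 := h J (by omega)
    have h3 := abs_sub_le (G T) (G (T / 2 ^ J)) (G (T / 2 ^ (J + 1)))
    have e : T / 2 ^ J * (c1 * ((J : ℝ) ^ 2 + 4 * J + 6) + c2) =
        T / 2 ^ (J + 1) * (c1 * (((J : ℝ) + 1) ^ 2 + 4 * (J + 1) + 6) + c2) +
        T / 2 ^ (J + 1) * (c1 * ((J : ℝ) + 1) ^ 2 + c2) := by
      rw [pow_succ]; field_simp; ring
    push_cast
    rw [e] at h1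
    linarith

/-- choice of the number of dyadic steps -/
lemma exists_J {T : ℝ} (hT : 1 ≤ T) : ∃ J : ℕ, √T ≤ T / 2 ^ J ∧ T / 2 ^ J ≤ 2 * √T := by
  have h1 : 1 ≤ √T := by rw [Real.one_le_sqrt]; exact hT
  obtain ⟨J, h2, h3⟩ := exists_nat_pow_near h1 (show (1 : ℝ) < 2 by norm_num)
  have h4 : √T * √T = T := Real.mul_self_sqrt (by linarith)
  have h5 : (0 : ℝ) < 2 ^ J := by positivity
  refine ⟨J, ?_, ?_⟩
  · rw [le_div_iff₀ h5]; nlinarith
  · rw [div_le_iff₀ h5]
    rw [pow_succ] at h3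
    nlinarith

lemma ev_log (K : ℝ) : ∃ T0 : ℝ, ∀ T : ℝ, T0 ≤ T → K * (Real.log T) ^ 2 ≤ √T := by
  have h := (Real.isLittleO_pow_log_id_atTop (n := 4)).bound
    (show (0 : ℝ) < 1 / (K ^ 2 + 1) by positivity)
  obtain ⟨T1, hT1⟩ := (h.and (eventually_ge_atTop 1)).exists_forall_of_atTop
  refine ⟨T1, fun T hT => ?_⟩
  obtain ⟨h2, h3⟩ := hT1 T hT
  simp only [id, Real.norm_eq_abs] at h2
  rw [abs_of_nonneg (by positivity), abs_of_nonneg (by linarith)] at h2
  apply Real.le_sqrt_of_sq_le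
  have h4 : (Real.log T) ^ 4 * (K ^ 2 + 1) ≤ T := by
    calc _ ≤ (1 / (K ^ 2 + 1) * T) * (K ^ 2 + 1) := by gcongr
      _ = T := by field_simp
  nlinarith [sq_nonneg ((Real.log T) ^ 2)]

lemma small_le {a L : ℝ} (ha : 0 < a) (hL : 1 ≤ L) (h : a * Real.log a ≤ 4 * L) : a ≤ 4 * L := by
  rcases le_or_gt a 3 with h1 | h1
  · linarith
  · have h2 : 1 ≤ Real.log a := by
      rw [Real.le_log_iff_exp_le ha]
      exact (Real.exp_one_lt_d9.le).trans (by linarith)
    nlinarith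

/-- `(1 + log (1 + a)) a²` against `L²` -/
lemma lam_sq {a L : ℝ} (ha : 0 < a) (hL : 1 ≤ L) (h : a * Real.log a ≤ 4 * L) :
    (1 + Real.log (1 + a)) * a ^ 2 ≤ 64 * L ^ 2 := by
  rcases le_or_gt a 3 with h1 | h1
  · have h2 : Real.log (1 + a) ≤ 2 := by
      have e : (1 + a) ≤ 4 := by linarith
      have h4 : Real.log (1 + a) ≤ Real.log 4 := Real.log_le_log (by linarith) e
      have h5 : Real.log 4 = 2 * Real.log 2 := by
        rw [show (4 : ℝ) = 2 ^ 2 by norm_num, Real.log_pow]; norm_num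
      linarith [Real.log_two_lt_d9]
    have h3 : a ^ 2 ≤ 9 := by nlinarith
    have h0 : 0 ≤ Real.log (1 + a) := Real.log_nonneg (by linarith)
    have h6 : (1 + Real.log (1 + a)) * a ^ 2 ≤ 3 * 9 :=
      mul_le_mul (by linarith) h3 (by positivity) (by norm_num)
    nlinarith
  · have h2 : 1 ≤ Real.log a := by
      rw [Real.le_log_iff_exp_le ha]
      exact (Real.exp_one_lt_d9.le).trans (by linarith)
    have h3 : Real.log (1 + a) ≤ 1 + Real.log a := by
      have e : 1 + a ≤ Real.exp 1 * a := by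
        have := Real.exp_one_gt_d9
        nlinarith
      calc Real.log (1 + a) ≤ Real.log (Real.exp 1 * a) := Real.log_le_log (by linarith) e
        _ = 1 + Real.log a := by rw [Real.log_mul (Real.exp_pos 1).ne' ha.ne', Real.log_exp]
    have h4 : 0 < a * Real.log a := by positivity
    have h5 : (a * Real.log a) ^ 2 ≤ (4 * L) ^ 2 := pow_le_pow_left₀ h4.le h 2
    have h6 : (1 + Real.log (1 + a)) ≤ 3 * Real.log a ^ 2 := by nlinarith
    calc (1 + Real.log (1 + a)) * a ^ 2 ≤ 3 * Real.log a ^ 2 * a ^ 2 := by gcongr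
      _ = 3 * (a * Real.log a) ^ 2 := by ring
      _ ≤ 3 * (4 * L) ^ 2 := by linarith
      _ ≤ 64 * L ^ 2 := by nlinarith [sq_nonneg L]

/-- changing the centre on one block -/
lemma centre {f : ℝ → ℝ} {b C a a' K : ℝ} (hb : 0 < b) (ha' : 0 < a') (haa : a' ≤ a)
    (hC : 0 ≤ C) (h2a : a ≤ 2 * a')
    (hi : IntervalIntegrable (fun t => (f t - a') ^ 2) volume b (2 * b))
    (hia : IntervalIntegrable (fun t => (f t - a) ^ 2) volume b (2 * b))
    (hv : |(∫ t in b..(2 * b), (f t - a') ^ 2) - b / Real.pi ^ 2 * Real.log (1 + a')| ≤ C * b)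
    (hK : (1 + Real.log (1 + a)) * (a - a') ^ 2 ≤ K) :
    |(∫ t in b..(2 * b), (f t - a) ^ 2) - b / Real.pi ^ 2 * Real.log (1 + a)| ≤
      b * (2 * K + (2 * C + 2)) := by
  have hpi := Real.pi_gt_three
  set l := Real.log (1 + a) with hl
  set l' := Real.log (1 + a') with hl'
  have l0 : 0 ≤ l' := Real.log_nonneg (by linarith)
  have l1 : l' ≤ l := Real.log_le_log (by linarith) (by linarith)
  have l2 : l - l' ≤ 1 := by
    rw [hl, hl', ← Real.log_div (by linarith) (by linarith)]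
    have e : (1 + a) / (1 + a') ≤ 2 := by rw [div_le_iff₀ (by linarith)]; linarith
    calc Real.log ((1 + a) / (1 + a')) ≤ Real.log 2 := Real.log_le_log (by
          apply div_pos <;> linarith) e
      _ ≤ 1 := by linarith [Real.log_two_lt_d9]
  have hp : 0 ≤ b / Real.pi ^ 2 ∧ b / Real.pi ^ 2 ≤ b :=
    ⟨by positivity, div_le_self hb.le (by nlinarith)⟩
  set V := ∫ t in b..(2 * b), (f t - a') ^ 2 with hV
  have V0 : 0 ≤ V := intervalIntegral.integral_nonneg (by linarith) fun t _ => sq_nonneg _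
  have V1 : V ≤ (1 + C) * b * (1 + l) := by
    have := (abs_le.mp hv).2
    have h1 : b / Real.pi ^ 2 * l' ≤ b * l := mul_le_mul hp.2 l1 l0 hb.le
    have h2 : 0 ≤ C * b * l := mul_nonneg (mul_nonneg hC hb.le) (l0.trans l1)
    nlinarith
  have hlam : 0 < 1 + l := by linarith
  have V2 : (1 + l)⁻¹ * V ≤ (1 + C) * b := by
    rw [inv_mul_le_iff₀ hlam]; linarith
  have hu : (a - a') ^ 2 ≤ K := by
    refine le_trans ?_ hK
    nlinarith [sq_nonneg (a - a')]
  -- pointwise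
  have pw : ∀ t, |(f t - a) ^ 2 - (f t - a') ^ 2| ≤ 2 * K + (1 + l)⁻¹ * (f t - a') ^ 2 := by
    intro t
    have e : (f t - a) ^ 2 - (f t - a') ^ 2 = (a - a') ^ 2 - 2 * (a - a') * (f t - a') := by ring
    have h1 : |2 * (a - a') * (f t - a')| ≤ (1 + l) * (a - a') ^ 2 + (1 + l)⁻¹ * (f t - a') ^ 2 := by
      have h2 : 0 ≤ (1 + l)⁻¹ * ((1 + l) * (a - a') - (f t - a')) ^ 2 := by positivity
      have h3 : 0 ≤ (1 + l)⁻¹ * ((1 + l) * (a - a') + (f t - a')) ^ 2 := by positivity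
      have e2 : (1 + l)⁻¹ * ((1 + l) * (a - a') - (f t - a')) ^ 2 =
          (1 + l) * (a - a') ^ 2 + (1 + l)⁻¹ * (f t - a') ^ 2 - 2 * (a - a') * (f t - a') := by
        field_simp; ring
      have e3 : (1 + l)⁻¹ * ((1 + l) * (a - a') + (f t - a')) ^ 2 =
          (1 + l) * (a - a') ^ 2 + (1 + l)⁻¹ * (f t - a') ^ 2 + 2 * (a - a') * (f t - a') := by
        field_simp; ring
      rw [abs_le]
      constructor <;> linarith
    rw [e]
    have h4 := abs_sub ((a - a') ^ 2) (2 * (a - a') * (f t - a'))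
    rw [abs_of_nonneg (sq_nonneg (a - a'))] at h4
    linarith
  have hint : |(∫ t in b..(2 * b), (f t - a) ^ 2) - V| ≤ b * (2 * K + (1 + C)) := by
    rw [hV, ← intervalIntegral.integral_sub hia hi]
    refine (intervalIntegral.abs_integral_le_integral_abs (by linarith)).trans ?_
    have h1 := intervalIntegral.integral_mono_on (show b ≤ 2 * b by linarith) (hia.sub hi).abs
      ((intervalIntegrable_const (c := 2 * K)).add (hi.const_mul (1 + l)⁻¹)) (fun t _ => pw t)
    have e1 : ∫ t in b..(2 * b), 2 * K = b * (2 * K) := by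
      rw [intervalIntegral.integral_const, smul_eq_mul]; ring
    have e2 : ∫ t in b..(2 * b), (1 + l)⁻¹ * (f t - a') ^ 2 = (1 + l)⁻¹ * V :=
      intervalIntegral.integral_const_mul _ _
    rw [intervalIntegral.integral_add intervalIntegrable_const (hi.const_mul _), e1, e2] at h1
    refine h1.trans ?_
    linarith
  have e : (∫ t in b..(2 * b), (f t - a) ^ 2) - b / Real.pi ^ 2 * l =
      ((∫ t in b..(2 * b), (f t - a) ^ 2) - V) + (V - b / Real.pi ^ 2 * l') -
      b / Real.pi ^ 2 * (l - l') := by ring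
  have h5 : |b / Real.pi ^ 2 * (l - l')| ≤ b := by
    rw [abs_of_nonneg (mul_nonneg hp.1 (by linarith))]
    calc _ ≤ b * 1 := mul_le_mul hp.2 l2 (by linarith) hb.le
      _ = b := mul_one b
  rw [e]
  refine (abs_sub _ _).trans ?_
  have h6 := abs_add_le ((∫ t in b..(2 * b), (f t - a) ^ 2) - V) (V - b / Real.pi ^ 2 * l')
  linarith

end Helper859_PC
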