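import Pool.Agent.Helper859_PC.SC

/-! # The non-asymptotic form: lower bounds at one height `T` give upper bounds at `T` -/

set_option autoImplicit false

open Filter Topology Complex MeasureTheory Set

namespace Helper859_PC.Fin

open Helper859_PC (KT SP SPo NP mr sn g)

/-- the elementary argument for one function -/
lemma one_fun {D : ℝ → ℝ} {B η c E : ℝ} (hB : 0 < B) (hη : 0 ≤ η) (h0 : D 0 = 0)
    (hint : ∀ a : ℝ, 0 ≤ a → IntervalIntegrable D volume 0 a)
    (havg : |1 / B * (∫ u in (0 : ℝ)..B, D u) - c| ≤ E / B)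
    (hc : c ≤ E / B) (hU : ∀ u v : ℝ, 0 ≤ u → u ≤ v → v ≤ B → D u - η ≤ D v) :
    (∀ u : ℝ, 0 ≤ u → u < B → -η ≤ D u ∧ D u ≤ (η * B + 2 * E) / (B - u)) ∧
    -(η + E / B) ≤ c := by
  have e1 : ∀ u, 0 ≤ u → u ≤ B → -η ≤ D u := fun u hu huB => by
    have := hU 0 u le_rfl hu huB
    rw [h0] at this
    linarith
  constructor
  · intro u0 hu0 huB
    refine ⟨e1 u0 hu0 huB.le, ?_⟩
    have hBu : 0 < B - u0 := by linarith
    have i1 := hint u0 hu0
    have i3 : IntervalIntegrable D volume u0 B := i1.symm.trans (hint B hB.le)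
    have s1 := intervalIntegral.integral_add_adjacent_intervals i1 i3
    have b1 : -η * u0 ≤ ∫ u in (0 : ℝ)..u0, D u := by
      have := intervalIntegral.integral_mono_on hu0 (intervalIntegrable_const (c := -η))
        i1 (fun u hu => e1 u hu.1 (by linarith [hu.2]))
      rw [intervalIntegral.integral_const, smul_eq_mul, sub_zero] at this
      linarith
    have b2 : (D u0 - η) * (B - u0) ≤ ∫ u in u0..B, D u := by
      have := intervalIntegral.integral_mono_on huB.le
        (intervalIntegrable_const (c := D u0 - η)) i3 (fun u hu => hU u0 u hu0 hu.1 hu.2)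
      rw [intervalIntegral.integral_const, smul_eq_mul] at this
      linarith
    have b3 : (∫ u in (0 : ℝ)..B, D u) ≤ 2 * E := by
      have h1 := (abs_le.mp havg).2
      have h2 : 1 / B * (∫ u in (0 : ℝ)..B, D u) ≤ 2 * E / B := by
        have : 2 * E / B = E / B + E / B := by ring
        linarith
      rw [one_div, inv_mul_le_iff₀ hB] at h2
      have h3 : B * (2 * E / B) = 2 * E := by field_simp
      linarith
    rw [le_div_iff₀ hBu]
    nlinarith
  · have b1 : -η * B ≤ ∫ u in (0 : ℝ)..B, D u := by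
      have := intervalIntegral.integral_mono_on hB.le
        (intervalIntegrable_const (c := -η)) (hint B hB.le) (fun u hu => e1 u hu.1 hu.2)
      rw [intervalIntegral.integral_const, smul_eq_mul, sub_zero] at this
      linarith
    have b2 : -η ≤ 1 / B * ∫ u in (0 : ℝ)..B, D u := by
      rw [one_div, le_inv_mul_iff₀ hB]
      linarith
    have h1 := (abs_le.mp havg).2
    linarith

/-- **the effective form at one height** -/
theorem eff : ∃ K T₀ : ℝ, 0 < K ∧ ∀ T : ℝ, T₀ ≤ T → ∀ B η : ℝ, 1 ≤ B → B ^ 2 ≤ Real.log T →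
    0 ≤ η →
    (∀ α β : ℝ, 0 < α → α < β → β ≤ B → norm T * ((∫ u in α..β, F u) - η) ≤ N T α β) →
    (∀ α β : ℝ, 0 < α → α < β → β < B →
      (N T α β : ℝ) ≤ norm T * ((∫ u in α..β, F u) + η + (η * B + K) / (B - β))) ∧
    (N T 0 0 : ℝ) ≤ norm T * (1 + 2 * η + K / B) ∧
    norm T * (1 - 2 * η - K / B) ≤ N1 T := by
  obtain ⟨-, C0, T1, hm⟩ := main
  obtain ⟨C', T2, hC', hl⟩ := m_lower
  obtain ⟨C3, T3, hC3, hT3, hker⟩ := Helper859_PC.kernel
  set C := |C0| with hC
  have hCnn : 0 ≤ C := abs_nonneg _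
  set M : ℝ := (SG.NZ 1 : ℝ) with hM
  have hM0 : 0 ≤ M := Nat.cast_nonneg _
  set E := 2 * C + C' with hE
  have hE0 : 0 ≤ E := by positivity
  refine ⟨2 * E + 2 * C3 + 14 * M + 1, max (max T1 T2) (max T3 3), by positivity,
    fun T hT B η hB hBL hη h => ?_⟩
  have a1 : T1 ≤ T := (le_max_left _ _).trans ((le_max_left _ _).trans hT)
  have a2 : T2 ≤ T := (le_max_right _ _).trans ((le_max_left _ _).trans hT)
  have a3 : T3 ≤ T := (le_max_left _ _).trans ((le_max_right _ _).trans hT)
  have a4 : 3 ≤ T := (le_max_right _ _).trans ((le_max_right _ _).trans hT)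
  have hT1 : 1 < T := by linarith
  have hB0 : 0 < B := by linarith
  have hn := norm_pos hT1
  have hpi := Real.pi_gt_three
  have hpi4 := Real.pi_lt_d2
  set L := Real.log T with hL
  have hL1 : 1 ≤ L := le_trans (one_le_pow₀ hB) hBL
  have hL0 : 0 < L := by linarith
  have hBB : B ≤ B ^ 2 := by nlinarith
  have hinv : B / L ≤ 1 / B := by
    rw [div_le_div_iff₀ hL0 hB0]
    linarith [sq B]
  have hinv2 : 1 / L ≤ 1 / B := by
    rw [div_le_div_iff₀ hL0 hB0]
    linarith
  have hcond : B * Real.log B ≤ L := by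
    have : Real.log B ≤ B := (Real.log_le_sub_one_of_pos hB0).trans (by linarith)
    nlinarith
  -- the average
  have havg : |1 / B * (∫ u in (0 : ℝ)..B, D T u) - c T| ≤ E / B := by
    refine (hm T a1 B hB0 hcond).trans ?_
    have p1 : 0 ≤ 1 / B + B / L := by positivity
    calc C0 * (1 / B + B / L) ≤ C * (1 / B + B / L) :=
          mul_le_mul_of_nonneg_right (le_abs_self _) p1
      _ ≤ C * (1 / B + 1 / B) := mul_le_mul_of_nonneg_left (by linarith) hCnn
      _ = 2 * C / B := by ring
      _ ≤ E / B := div_le_div_of_nonneg_right (by linarith) hB0.le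
  have hc : c T ≤ E / B := by
    have h4 := hl T a2
    have h5 : C' / L ≤ C' / B := by
      rw [div_eq_mul_one_div, div_eq_mul_one_div C' B]
      exact mul_le_mul_of_nonneg_left hinv2 hC'
    have h6 : C' / B ≤ E / B := div_le_div_of_nonneg_right (by linarith) hB0.le
    have h7 : 0 ≤ E / B := by positivity
    unfold c
    linarith
  -- the increments
  have hU : ∀ u v : ℝ, 0 ≤ u → u ≤ v → v ≤ B → D T u - η ≤ D T v := by
    intro u v hu huv hvB
    rcases huv.eq_or_lt with h1 | h1
    · rw [h1]; linarith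
    refine le_of_forall_pos_le_add fun δ' hδ' => ?_
    set δ := min δ' ((v - u) / 2) with hδ
    have hδ0 : 0 < δ := lt_min hδ' (by linarith)
    have hδ1 : δ ≤ δ' := min_le_left _ _
    have hδ2 : δ ≤ (v - u) / 2 := min_le_right _ _
    have hlt : u + δ < v := by linarith
    have u0 := h (u + δ) v (by linarith) hlt hvB
    have u1 := P_add_N_le hT1 (u := u) (α := u + δ) (v := v) hu (by linarith) hlt.le
    have e1 := D_sub (T := T) hu h1.le
    have e3 : ∫ w in u..v, F w = (∫ w in u..(u + δ), F w) + ∫ w in (u + δ)..v, F w := by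
      have g1 := G_int (u := u) (v := v) hu h1.le
      have g2 := G_int (u := u) (v := u + δ) hu (by linarith)
      have g3 := G_int (u := u + δ) (v := v) (by linarith) hlt.le
      linarith
    have e4 := (G_bd (u := u) (v := u + δ) hu (by linarith)).2
    have l2 : (∫ w in (u + δ)..v, F w) - η ≤ ((P T v : ℝ) - P T u) / norm T := by
      rw [le_div_iff₀ hn]
      linarith
    linarith
  obtain ⟨k1, k2⟩ := one_fun (D := D T) (c := c T) (E := E) hB0 hη (D_zero hT1)
    (fun a ha => D_ii hT1 ha) havg hc hU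
  have hmm : (N T 0 0 : ℝ) / norm T ≤ 1 + 2 * η + 2 * E / B := by
    unfold c at k2
    have : 2 * E / B = 2 * (E / B) := by ring
    linarith
  have hKB : (2 * E + 2 * C3 + 14 * M + 1) / B =
      2 * E / B + 2 * C3 / B + 14 * M / B + 1 / B := by ring
  have q1 : 0 ≤ 2 * C3 / B := by positivity
  have q2 : 0 ≤ 14 * M / B := by positivity
  have q3 : 0 ≤ 1 / B := by positivity
  refine ⟨?_, ?_, ?_⟩
  · intro α β hα hαβ hβB
    have hBβ : 0 < B - β := by linarith
    rw [← div_le_iff₀' hn]
    refine le_of_forall_pos_le_add fun δ' hδ' => ?_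
    set δ := min δ' (α / 2) with hδ
    have hδ0 : 0 < δ := lt_min hδ' (by linarith)
    have hδ1 : δ ≤ δ' := min_le_left _ _
    have hδ2 : δ ≤ α / 2 := min_le_right _ _
    have u1 := P_add_N_le hT1 (u := α - δ) (α := α) (v := β) (by linarith) (by linarith) hαβ.le
    have e2 := D_sub (T := T) (u := α - δ) (v := β) (by linarith) (by linarith)
    have e3 : ∫ w in (α - δ)..β, F w = (∫ w in (α - δ)..α, F w) + ∫ u in α..β, F u := by
      have g1 := G_int (u := α - δ) (v := β) (by linarith) (by linarith)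
      have g2 := G_int (u := α - δ) (v := α) (by linarith) (by linarith)
      have g3 := G_int (u := α) (v := β) (by linarith) (by linarith)
      linarith
    have e4 := (G_bd (u := α - δ) (v := α) (by linarith) (by linarith)).2
    have u2 : (N T α β : ℝ) / norm T ≤ ((P T β : ℝ) - P T (α - δ)) / norm T :=
      div_le_div_of_nonneg_right (by linarith) hn.le
    have a2 := (k1 β (by linarith) hβB).2
    have a3 := (k1 (α - δ) (by linarith) (by linarith)).1
    have a4 : (η * B + 2 * E) / (B - β) ≤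
        (η * B + (2 * E + 2 * C3 + 14 * M + 1)) / (B - β) := by
      apply div_le_div_of_nonneg_right _ hBβ.le
      linarith
    linarith
  · rw [← div_le_iff₀' hn, hKB]
    linarith
  · rw [← le_div_iff₀' hn]
    obtain ⟨b1, -⟩ := N1_bounds hT1
    have e : 2 * ((SG.NZ T : ℝ) / norm T) - (N T 0 0 : ℝ) / norm T -
      (2 * SG.NZ 1 : ℝ) / norm T = (2 * (SG.NZ T : ℝ) - N T 0 0 - 2 * SG.NZ 1) / norm T := by
      field_simp
    have h4 : (2 * (SG.NZ T : ℝ) - N T 0 0 - 2 * SG.NZ 1) / norm T ≤ (N1 T : ℝ) / norm T :=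
      div_le_div_of_nonneg_right b1 hn.le
    rw [← e] at h4
    obtain ⟨θ, hθ, hNZ, -⟩ := hker T a3
    have e2 : (SG.NZ T : ℝ) / norm T = 1 + θ / L := by
      have e' : (SG.NZ T : ℝ) / norm T = (2 * Real.pi / L * SG.NZ T) / T := by
        unfold norm; rw [← hL]; field_simp
      rw [e', hL, hNZ, mul_div_assoc, ← hL]; field_simp
    have h5 : -(C3 / B) ≤ θ / L := by
      have c2 : -C3 / L ≤ θ / L := div_le_div_of_nonneg_right (abs_le.mp hθ).1 hL0.le
      have c3 : C3 / L ≤ C3 / B := by
        rw [div_eq_mul_one_div, div_eq_mul_one_div C3 B]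
        exact mul_le_mul_of_nonneg_left hinv2 hC3
      rw [neg_div] at c2
      linarith
    have h6 : (2 * SG.NZ 1 : ℝ) / norm T ≤ 14 * M / B := by
      have n1 : 1 / norm T ≤ 7 / B := by
        rw [div_le_div_iff₀ hn hB0]
        unfold norm
        rw [← hL]
        have r1 : B ≤ L := hBB.trans hBL
        have r2 : 1 ≤ 7 * (T / (2 * Real.pi)) := by
          rw [← mul_div_assoc, le_div_iff₀ (by positivity)]
          nlinarith
        nlinarith
      calc (2 * SG.NZ 1 : ℝ) / norm T = 2 * M * (1 / norm T) := by rw [hM]; ring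
        _ ≤ 2 * M * (7 / B) := mul_le_mul_of_nonneg_left n1 (by positivity)
        _ = 14 * M / B := by ring
    rw [e2] at h4
    rw [hKB]
    have : 2 * C3 / B = 2 * (C3 / B) := by ring
    linarith

end Helper859_PC.Fin
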