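import Pool.Agent.Helper859_PC.Ker

/-! # Pairs of points at bounded distance, from the triangular kernel -/

set_option autoImplicit false

open MeasureTheory Set

namespace Helper859_PC

variable {ι : Type*}

open Classical in
/-- the weighted number of ordered pairs at distance at most `d` -/
noncomputable def SP (Z : Finset ι) (m γ : ι → ℝ) (d : ℝ) : ℝ :=
  ∑ i ∈ Z, ∑ j ∈ Z, m i * m j * (if |γ i - γ j| ≤ d then 1 else 0)

open Classical in
/-- the weighted number of ordered pairs at distance less than `d` -/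
noncomputable def SPo (Z : Finset ι) (m γ : ι → ℝ) (d : ℝ) : ℝ :=
  ∑ i ∈ Z, ∑ j ∈ Z, m i * m j * (if |γ i - γ j| < d then 1 else 0)

open Classical in
/-- the weighted number of ordered pairs `(i, j)` with `γ i - γ j` in `[α, β]` -/
noncomputable def NP (Z : Finset ι) (m γ : ι → ℝ) (α β : ℝ) : ℝ :=
  ∑ i ∈ Z, ∑ j ∈ Z, m i * m j * (if α ≤ γ i - γ j ∧ γ i - γ j ≤ β then 1 else 0)

lemma SPo_le_SP {Z : Finset ι} {m : ι → ℝ} (hm : ∀ i ∈ Z, 0 ≤ m i) (γ : ι → ℝ) (d : ℝ) :
    SPo Z m γ d ≤ SP Z m γ d := by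
  unfold SPo SP
  refine Finset.sum_le_sum fun i hi => Finset.sum_le_sum fun j hj => ?_
  apply mul_le_mul_of_nonneg_left _ (mul_nonneg (hm i hi) (hm j hj))
  by_cases h1 : |γ i - γ j| < d
  · rw [if_pos h1, if_pos h1.le]
  · rw [if_neg h1]
    split_ifs <;> norm_num

/-- `SP ≤` increment of the kernel -/
lemma SP_le {Z : Finset ι} {m : ι → ℝ} (hm : ∀ i ∈ Z, 0 ≤ m i) (γ : ι → ℝ) {x h : ℝ}
    (hh : 0 ≤ h) : h * SP Z m γ x ≤ KT Z m γ (x + h) - KT Z m γ x := by
  unfold SP KT
  rw [Finset.mul_sum, ← Finset.sum_sub_distrib]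
  refine Finset.sum_le_sum fun i hi => ?_
  rw [Finset.mul_sum, ← Finset.sum_sub_distrib]
  refine Finset.sum_le_sum fun j hj => ?_
  rw [← mul_sub, mul_left_comm]
  apply mul_le_mul_of_nonneg_left _ (mul_nonneg (hm i hi) (hm j hj))
  split_ifs with h1
  · rw [max_eq_right (by linarith), max_eq_right (by linarith)]
    linarith
  · rw [mul_zero, sub_nonneg]
    exact max_le_max le_rfl (by linarith)

/-- increment of the kernel `≤ SPo` -/
lemma le_SPo {Z : Finset ι} {m : ι → ℝ} (hm : ∀ i ∈ Z, 0 ≤ m i) (γ : ι → ℝ) {x h : ℝ}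
    (hh : 0 ≤ h) : KT Z m γ x - KT Z m γ (x - h) ≤ h * SPo Z m γ x := by
  unfold SPo KT
  rw [Finset.mul_sum, ← Finset.sum_sub_distrib]
  refine Finset.sum_le_sum fun i hi => ?_
  rw [Finset.mul_sum, ← Finset.sum_sub_distrib]
  refine Finset.sum_le_sum fun j hj => ?_
  rw [← mul_sub, mul_left_comm]
  apply mul_le_mul_of_nonneg_left _ (mul_nonneg (hm i hi) (hm j hj))
  split_ifs with h1
  · rw [max_eq_right (by linarith), mul_one]
    have := le_max_right 0 (x - h - |γ i - γ j|)
    linarith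
  · rw [mul_zero, sub_nonpos]
    have h2 : x ≤ |γ i - γ j| := not_lt.mp h1
    rw [max_eq_left (by linarith)]
    exact le_max_left _ _

lemma NP_symm (Z : Finset ι) (m γ : ι → ℝ) (α β : ℝ) :
    NP Z m γ α β = NP Z m γ (-β) (-α) := by
  unfold NP
  rw [Finset.sum_comm]
  refine Finset.sum_congr rfl fun i _ => Finset.sum_congr rfl fun j _ => ?_
  rw [mul_comm (m j) (m i)]
  congr 1
  refine if_congr ?_ rfl rfl
  constructor <;> rintro ⟨h1, h2⟩ <;> constructor <;> linarith

/-- the pairs in a window of positive differences -/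
lemma NP_eq (Z : Finset ι) (m γ : ι → ℝ) {α β : ℝ} (hα : 0 < α) (hαβ : α ≤ β) :
    2 * NP Z m γ α β = SP Z m γ β - SPo Z m γ α := by
  have h1 : 2 * NP Z m γ α β = NP Z m γ α β + NP Z m γ (-β) (-α) := by
    rw [← NP_symm]; ring
  rw [h1]
  unfold NP SP SPo
  rw [← Finset.sum_add_distrib, ← Finset.sum_sub_distrib]
  refine Finset.sum_congr rfl fun i _ => ?_
  rw [← Finset.sum_add_distrib, ← Finset.sum_sub_distrib]
  refine Finset.sum_congr rfl fun j _ => ?_
  rw [← mul_add, ← mul_sub]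
  congr 1
  set d := γ i - γ j
  by_cases a1 : |d| ≤ β
  · rw [if_pos a1]
    rw [abs_le] at a1
    by_cases a2 : |d| < α
    · rw [if_pos a2]
      rw [abs_lt] at a2
      rw [if_neg (by rintro ⟨b1, _⟩; linarith [a2.2]), if_neg (by rintro ⟨_, b1⟩; linarith [a2.1])]
      norm_num
    · rw [if_neg a2]
      rcases le_total 0 d with h | h
      · rw [abs_of_nonneg h] at a2
        rw [if_pos ⟨not_lt.mp a2, a1.2⟩, if_neg (by rintro ⟨_, b1⟩; linarith)]
        norm_num
      · rw [abs_of_nonpos h] at a2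
        have a3 := not_lt.mp a2
        rw [if_neg (by rintro ⟨b1, _⟩; linarith), if_pos ⟨a1.1, by linarith⟩]
        norm_num
  · have n1 : ¬ (α ≤ d ∧ d ≤ β) := fun ⟨b1, b2⟩ => a1 (abs_le.mpr ⟨by linarith, b2⟩)
    have n2 : ¬ (-β ≤ d ∧ d ≤ -α) := fun ⟨b1, b2⟩ => a1 (abs_le.mpr ⟨b1, by linarith⟩)
    have n3 : ¬ (|d| < α) := fun b => a1 (b.le.trans hαβ)
    rw [if_neg a1, if_neg n1, if_neg n2, if_neg n3]
    norm_num

/-- the pairs at distance at most `d`, from an estimate of the kernel -/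
theorem SP_est {Z : Finset ι} {m γ : ι → ℝ} (hm : ∀ i ∈ Z, 0 ≤ m i) {T h θ L C : ℝ}
    (hT : 0 < T) (hh : 0 < h) (hL : 1 ≤ L) (hθ : |θ| ≤ C) (hC : 0 ≤ C) {ok : ℝ → Prop}
    (hK : ∀ a : ℝ, 0 ≤ a → ok a →
      |KT Z m γ (a * h) - a ^ 2 * T * (1 + 2 * θ / L) - T / Real.pi ^ 2 * Real.log (1 + a)| ≤ C * T)
    {a : ℝ} (ha : 0 ≤ a) (haL : a ≤ 4 * L) (h0 : ok a) (h1 : ok (a + 1)) (h2 : 1 ≤ a → ok (a - 1)) :
    h * SP Z m γ (a * h) ≤ (2 * a + (20 * C + 2)) * T ∧
    (2 * a - (20 * C + 2)) * T ≤ h * SPo Z m γ (a * h) := by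
  have hpi := Real.pi_gt_three
  have hθL : |2 * θ / L| ≤ 2 * C / L := by
    rw [abs_div, abs_mul, abs_of_pos (show (0 : ℝ) < L by linarith), abs_two]
    exact div_le_div_of_nonneg_right (by linarith) (by linarith)
  have hlog : ∀ b : ℝ, 0 ≤ b → 0 ≤ Real.log (1 + (b + 1)) - Real.log (1 + b) ∧
      Real.log (1 + (b + 1)) - Real.log (1 + b) ≤ 1 := by
    intro b hb
    have e : Real.log (1 + (b + 1)) - Real.log (1 + b) = Real.log ((1 + (b + 1)) / (1 + b)) := by
      rw [Real.log_div (by linarith) (by linarith)]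
    refine ⟨sub_nonneg.mpr (Real.log_le_log (by linarith) (by linarith)), ?_⟩
    rw [e]
    refine (Real.log_le_sub_one_of_pos (by positivity)).trans ?_
    rw [tsub_le_iff_right, div_le_iff₀ (by linarith)]
    linarith
  have hP : 0 ≤ T / Real.pi ^ 2 ∧ T / Real.pi ^ 2 ≤ T := by
    refine ⟨by positivity, div_le_self hT.le (by nlinarith)⟩
  have main : ∀ b : ℝ, 0 ≤ b → b ≤ 4 * L → ok b → ok (b + 1) →
      |KT Z m γ ((b + 1) * h) - KT Z m γ (b * h) - (2 * b + 1) * T| ≤ (20 * C + 1) * T := by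
    intro b hb hbL ok1 ok2
    have k1 := hK b hb ok1
    have k2 := hK (b + 1) (by linarith) ok2
    obtain ⟨l1, l2⟩ := hlog b hb
    have e : KT Z m γ ((b + 1) * h) - KT Z m γ (b * h) - (2 * b + 1) * T =
        (KT Z m γ ((b + 1) * h) - (b + 1) ^ 2 * T * (1 + 2 * θ / L) -
          T / Real.pi ^ 2 * Real.log (1 + (b + 1))) -
        (KT Z m γ (b * h) - b ^ 2 * T * (1 + 2 * θ / L) - T / Real.pi ^ 2 * Real.log (1 + b)) +
        ((2 * b + 1) * (2 * θ / L) * T + T / Real.pi ^ 2 *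
          (Real.log (1 + (b + 1)) - Real.log (1 + b))) := by
      ring
    have b1 : |(2 * b + 1) * (2 * θ / L) * T| ≤ 18 * C * T := by
      rw [abs_mul, abs_mul, abs_of_pos hT, abs_of_nonneg (show 0 ≤ 2 * b + 1 by linarith)]
      apply mul_le_mul_of_nonneg_right _ hT.le
      calc (2 * b + 1) * |2 * θ / L| ≤ (9 * L) * (2 * C / L) :=
            mul_le_mul (by linarith) hθL (abs_nonneg _) (by linarith)
        _ = 18 * C := by field_simp; ring
    have b2 : |T / Real.pi ^ 2 * (Real.log (1 + (b + 1)) - Real.log (1 + b))| ≤ T := by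
      rw [abs_mul, abs_of_nonneg hP.1, abs_of_nonneg l1]
      calc _ ≤ T * 1 := mul_le_mul hP.2 l2 l1 hT.le
        _ = T := mul_one T
    rw [e]
    refine (abs_add_le _ _).trans ?_
    refine (add_le_add (abs_sub _ _) (abs_add_le _ _)).trans ?_
    linarith
  constructor
  · have h3 := SP_le hm γ (x := a * h) hh.le
    have h4 := (abs_le.mp (main a ha haL h0 h1)).2
    have e : a * h + h = (a + 1) * h := by ring
    rw [e] at h3
    linarith
  · rcases le_or_gt 1 a with h5 | h5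
    · have h3 := le_SPo hm γ (x := a * h) hh.le
      have e : a * h - h = (a - 1) * h := by ring
      rw [e] at h3
      have h4 := (abs_le.mp (main (a - 1) (by linarith) (by linarith) (h2 h5)
        (by rw [sub_add_cancel]; exact h0))).1
      rw [sub_add_cancel] at h4
      linarith
    · have h6 : 0 ≤ SPo Z m γ (a * h) := by
        unfold SPo
        refine Finset.sum_nonneg fun i hi => Finset.sum_nonneg fun j hj => ?_
        exact mul_nonneg (mul_nonneg (hm i hi) (hm j hj)) (by split_ifs <;> norm_num)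
      have h7 : 0 ≤ h * SPo Z m γ (a * h) := mul_nonneg hh.le h6
      have h8 : (2 * a - (20 * C + 2)) * T ≤ 0 := by
        apply mul_nonpos_of_nonpos_of_nonneg _ hT.le
        linarith
      linarith

/-- the pairs in a window, from an estimate of the kernel -/
theorem NP_est {Z : Finset ι} {m γ : ι → ℝ} (hm : ∀ i ∈ Z, 0 ≤ m i) {T h θ L C : ℝ}
    (hT : 0 < T) (hh : 0 < h) (hL : 1 ≤ L) (hθ : |θ| ≤ C) (hC : 0 ≤ C) {ok : ℝ → Prop}
    (hK : ∀ a : ℝ, 0 ≤ a → ok a →
      |KT Z m γ (a * h) - a ^ 2 * T * (1 + 2 * θ / L) - T / Real.pi ^ 2 * Real.log (1 + a)| ≤ C * T)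
    {α β : ℝ} (hα : 0 < α) (hαβ : α ≤ β) (haL : β ≤ 4 * L)
    (hok : ∀ a : ℝ, 0 ≤ a → a ≤ β + 1 → ok a) :
    |NP Z m γ (α * h) (β * h) - (β - α) * (T / h)| ≤ (20 * C + 2) * (T / h) := by
  have e := NP_eq Z m γ (α := α * h) (β := β * h) (by positivity)
    (mul_le_mul_of_nonneg_right hαβ hh.le)
  have hβ : 0 ≤ β := hα.le.trans hαβ
  obtain ⟨a1, -⟩ := SP_est hm hT hh hL hθ hC hK hα.le (hαβ.trans haL) (hok _ hα.le (by linarith))
    (hok _ (by linarith) (by linarith)) (fun h1 => hok _ (by linarith) (by linarith))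
  obtain ⟨-, a2⟩ := SP_est hm hT hh hL hθ hC hK hα.le (hαβ.trans haL) (hok _ hα.le (by linarith))
    (hok _ (by linarith) (by linarith)) (fun h1 => hok _ (by linarith) (by linarith))
  obtain ⟨b1, b2⟩ := SP_est hm hT hh hL hθ hC hK hβ haL (hok _ hβ (by linarith))
    (hok _ (by linarith) (by linarith)) (fun h1 => hok _ (by linarith) (by linarith))
  have c1 := SPo_le_SP hm γ (α * h)
  have c2 := SPo_le_SP hm γ (β * h)
  have d1 := mul_le_mul_of_nonneg_left c1 hh.le
  have d2 := mul_le_mul_of_nonneg_left c2 hh.le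
  have e2 : h * NP Z m γ (α * h) (β * h) =
      (h * SP Z m γ (β * h) - h * SPo Z m γ (α * h)) / 2 := by
    rw [← mul_sub, ← e]; ring
  have e3 : NP Z m γ (α * h) (β * h) - (β - α) * (T / h) =
      (h * NP Z m γ (α * h) (β * h) - (β - α) * T) / h := by
    field_simp
  rw [e3, abs_div, abs_of_pos hh, div_le_iff₀ hh]
  have e4 : (20 * C + 2) * (T / h) * h = (20 * C + 2) * T := by field_simp
  rw [e4, e2, abs_le]
  constructor <;> linarith

/-- the average over the length of the window -/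
theorem KT_eq_integral (Z : Finset ι) (m γ : ι → ℝ) {x : ℝ} (hx : 0 ≤ x) :
    ∫ u in (0 : ℝ)..x, SP Z m γ u = KT Z m γ x := by
  classical
  have hint : ∀ d : ℝ, IntervalIntegrable (fun u : ℝ => (if |d| ≤ u then (1 : ℝ) else 0))
      volume 0 x := by
    intro d
    have h1 : Monotone (fun u : ℝ => (if |d| ≤ u then (1 : ℝ) else 0)) := by
      intro u v huv
      dsimp only
      by_cases h2 : |d| ≤ u
      · rw [if_pos h2, if_pos (h2.trans huv)]
      · rw [if_neg h2]
        split_ifs <;> norm_num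
    exact h1.intervalIntegrable
  have hval : ∀ d : ℝ, ∫ u in (0 : ℝ)..x, (if |d| ≤ u then (1 : ℝ) else 0) = max 0 (x - |d|) := by
    intro d
    rcases le_or_gt (|d|) x with h | h
    · rw [max_eq_right (by linarith)]
      rw [← intervalIntegral.integral_add_adjacent_intervals (b := |d|)
        ((hint d).mono_set (by rw [uIcc_of_le (abs_nonneg _), uIcc_of_le hx]; exact Icc_subset_Icc le_rfl h))
        ((hint d).mono_set (by rw [uIcc_of_le h, uIcc_of_le hx]; exact Icc_subset_Icc (abs_nonneg _) le_rfl))]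
      have e1 : ∫ u in (0 : ℝ)..|d|, (if |d| ≤ u then (1 : ℝ) else 0) = 0 := by
        rw [intervalIntegral.integral_of_le (abs_nonneg _), integral_Ioc_eq_integral_Ioo]
        rw [setIntegral_congr_fun (g := fun _ => (0 : ℝ)) measurableSet_Ioo (fun u hu => by
          dsimp only; rw [if_neg (not_le.mpr hu.2)])]
        simp
      have e2 : ∫ u in |d|..x, (if |d| ≤ u then (1 : ℝ) else 0) = x - |d| := by
        rw [intervalIntegral.integral_congr (g := fun _ => (1 : ℝ)) (fun u hu => by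
          rw [uIcc_of_le h] at hu; dsimp only; rw [if_pos hu.1])]
        simp
      rw [e1, e2, zero_add]
    · rw [max_eq_left (by linarith)]
      rw [intervalIntegral.integral_congr (g := fun _ => (0 : ℝ)) (fun u hu => by
          rw [uIcc_of_le hx] at hu; dsimp only; rw [if_neg (not_le.mpr (hu.2.trans_lt h))])]
      simp
  unfold SP KT
  have hI : ∀ i ∈ Z, IntervalIntegrable (fun u : ℝ => ∑ j ∈ Z, m i * m j *
      (if |γ i - γ j| ≤ u then (1 : ℝ) else 0)) volume 0 x := by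
    intro i _
    have := IntervalIntegrable.sum Z (f := fun j (u : ℝ) => m i * m j *
      (if |γ i - γ j| ≤ u then (1 : ℝ) else 0)) (μ := volume) (a := 0) (b := x)
      fun j _ => (hint _).const_mul _
    refine this.congr_ae (Filter.Eventually.of_forall fun u => ?_)
    simp only [Finset.sum_apply]
  rw [intervalIntegral.integral_finsetSum hI]
  refine Finset.sum_congr rfl fun i _ => ?_
  rw [intervalIntegral.integral_finsetSum fun j _ => (hint _).const_mul _]
  refine Finset.sum_congr rfl fun j _ => ?_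
  rw [intervalIntegral.integral_const_mul, hval]

end Helper859_PC
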