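import Pool.Agent.H336R2.V.ExistsLam

/-! # Integrals of the pair correlation function -/

set_option autoImplicit false

open MeasureTheory Set Filter Topology

namespace Helper859_PC

/-- the square of the sine kernel -/
noncomputable def sn (v : ℝ) : ℝ := Real.sinc (Real.pi * v) ^ 2

lemma sn_cont : Continuous sn := by
  unfold sn
  exact (Real.continuous_sinc.comp (continuous_const.mul continuous_id)).pow 2

lemma sn_nonneg (v : ℝ) : 0 ≤ sn v := sq_nonneg _

lemma sn_le_one (v : ℝ) : sn v ≤ 1 := H336V.ExistsLam.sinc_sq_le_one v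

lemma sn_integrable : Integrable sn := H336V.ExistsLam.sinc_sq_integrable

lemma sn_eq {v : ℝ} (hv : v ≠ 0) : sn v = (Real.sin (Real.pi * v) / (Real.pi * v)) ^ 2 := by
  unfold sn
  rw [Real.sinc_of_ne_zero (mul_ne_zero Real.pi_ne_zero hv)]

lemma sn_int_bounds {α β : ℝ} (hα : 0 ≤ α) (hαβ : α ≤ β) :
    0 ≤ ∫ v in α..β, sn v ∧ ∫ v in α..β, sn v ≤ 1 / 2 := by
  refine ⟨intervalIntegral.integral_nonneg hαβ fun v _ => sn_nonneg v, ?_⟩
  rw [intervalIntegral.integral_of_le hαβ]
  have h : ∫ v in Ioi (0 : ℝ), sn v = 1 / 2 := H336V.ExistsLam.integral_sinc_sq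
  rw [← h]
  exact setIntegral_mono_set sn_integrable.integrableOn
    (Filter.Eventually.of_forall fun v => sn_nonneg v)
    (HasSubset.Subset.eventuallyLE fun v hv => lt_of_le_of_lt hα hv.1)

lemma sn_a {a : ℝ} (ha : 0 < a) : |a * (∫ v in (0 : ℝ)..a, sn v) - a / 2| ≤ 1 := by
  have h : ∫ v in Ioi (0 : ℝ), sn v = 1 / 2 := H336V.ExistsLam.integral_sinc_sq
  have hi : ∀ S : Set ℝ, IntegrableOn sn S := fun S => sn_integrable.integrableOn
  have e1 : ∫ w in Set.Ioi (0:ℝ), sn w = (∫ w in Set.Ioc 0 a, sn w) + ∫ w in Set.Ioi a, sn w := by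
    rw [← Set.Ioc_union_Ioi_eq_Ioi ha.le]
    exact setIntegral_union (Set.Ioc_disjoint_Ioi le_rfl) measurableSet_Ioi (hi _) (hi _)
  have b2 : ∫ w in Set.Ioi a, sn w ≤ 1 / a := by
    calc ∫ w in Set.Ioi a, sn w ≤ ∫ w in Set.Ioi a, w ^ (-2 : ℝ) := by
          apply setIntegral_mono_on (hi _) (integrableOn_Ioi_rpow_of_lt (by norm_num) ha)
            measurableSet_Ioi
          intro w hw
          exact H336V.ExistsLam.sinc_sq_le_inv (ha.trans hw)
      _ = 1 / a := by
          rw [integral_Ioi_rpow_of_lt (by norm_num) ha]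
          rw [show (-2 + 1 : ℝ) = -1 by norm_num, Real.rpow_neg_one]
          field_simp
  have b1 : 0 ≤ ∫ w in Set.Ioi a, sn w := integral_nonneg fun v => sn_nonneg v
  rw [intervalIntegral.integral_of_le ha.le]
  rw [h] at e1
  have e2 : a * (∫ w in Set.Ioc 0 a, sn w) - a / 2 = -(a * ∫ w in Set.Ioi a, sn w) := by
    have : ∫ w in Set.Ioc 0 a, sn w = 1 / 2 - ∫ w in Set.Ioi a, sn w := by linarith
    rw [this]; ring
  rw [e2, abs_neg, abs_of_nonneg (mul_nonneg ha.le b1)]
  calc a * ∫ w in Set.Ioi a, sn w ≤ a * (1 / a) := mul_le_mul_of_nonneg_left b2 ha.le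
    _ = 1 := by field_simp

lemma sin_int {a : ℝ} (ha : 1 ≤ a) :
    |∫ v in (1 : ℝ)..a, Real.sin (2 * Real.pi * v) / (2 * Real.pi * v ^ 2)| ≤ 1 / 6 := by
  have hpi := Real.pi_gt_three
  have hne : ∀ v ∈ uIcc 1 a, v ≠ 0 := by
    intro v hv
    rw [uIcc_of_le ha] at hv
    have := hv.1
    intro h; linarith
  have h1 : ∀ v ∈ Icc 1 a, ‖Real.sin (2 * Real.pi * v) / (2 * Real.pi * v ^ 2)‖ ≤
      1 / 6 * (v ^ 2)⁻¹ := by
    intro v hv
    have hv1 := hv.1
    rw [Real.norm_eq_abs, abs_div, abs_of_pos (show 0 < 2 * Real.pi * v ^ 2 by positivity)]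
    rw [show 1 / 6 * (v ^ 2)⁻¹ = 1 / (6 * v ^ 2) by field_simp]
    apply div_le_div₀ (by norm_num) (Real.abs_sin_le_one _) (by positivity)
    nlinarith [sq_nonneg v]
  have c3 : ContinuousOn (fun v : ℝ => 1 / 6 * (v ^ 2)⁻¹) (uIcc 1 a) := by
    apply ContinuousOn.mul continuousOn_const
    apply ContinuousOn.inv₀ (continuousOn_id.pow 2)
    intro v hv
    exact pow_ne_zero 2 (hne v hv)
  have h2 := intervalIntegral.norm_integral_le_of_norm_le (μ := volume) ha
    (Filter.Eventually.of_forall fun v hv => h1 v ⟨hv.1.le, hv.2⟩)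
    (c3.intervalIntegrable (μ := volume))
  have hd2 : ∀ v ∈ uIcc 1 a, HasDerivAt (fun v : ℝ => -(1 / 6 * v⁻¹)) (1 / 6 * (v ^ 2)⁻¹) v := by
    intro v hv
    have hv0 := hne v hv
    have := ((hasDerivAt_inv hv0).const_mul (1 / 6 : ℝ)).neg
    refine this.congr_deriv ?_
    ring
  rw [intervalIntegral.integral_eq_sub_of_hasDerivAt hd2 c3.intervalIntegrable] at h2
  rw [Real.norm_eq_abs] at h2
  have h3 : 0 ≤ 1 / 6 * a⁻¹ := by positivity
  refine h2.trans ?_
  norm_num at h3 ⊢
  linarith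

/-- the integral of `cos (2 π v) / v` -/
lemma cos_int {a : ℝ} (ha : 1 ≤ a) :
    |∫ v in (1 : ℝ)..a, Real.cos (2 * Real.pi * v) / v| ≤ 1 := by
  have hpi := Real.pi_gt_three
  have hne : ∀ v ∈ uIcc 1 a, v ≠ 0 := by
    intro v hv
    rw [uIcc_of_le ha] at hv
    have := hv.1
    intro h; linarith
  have c1 : ContinuousOn (fun v : ℝ => Real.cos (2 * Real.pi * v) / v) (uIcc 1 a) := by
    apply ContinuousOn.div _ continuousOn_id hne
    exact (Real.continuous_cos.comp (continuous_const.mul continuous_id)).continuousOn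
  have c2 : ContinuousOn (fun v : ℝ => Real.sin (2 * Real.pi * v) / (2 * Real.pi * v ^ 2))
      (uIcc 1 a) := by
    apply ContinuousOn.div
    · exact (Real.continuous_sin.comp (continuous_const.mul continuous_id)).continuousOn
    · exact (continuous_const.mul (continuous_id.pow 2)).continuousOn
    · intro v hv
      have := hne v hv
      positivity
  have hd : ∀ v ∈ uIcc 1 a, HasDerivAt (fun v : ℝ => Real.sin (2 * Real.pi * v) / (2 * Real.pi * v))
      (Real.cos (2 * Real.pi * v) / v - Real.sin (2 * Real.pi * v) / (2 * Real.pi * v ^ 2)) v := by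
    intro v hv
    have hv0 := hne v hv
    have d0 : HasDerivAt (fun v : ℝ => 2 * Real.pi * v) (2 * Real.pi) v := by
      simpa using (hasDerivAt_id v).const_mul (2 * Real.pi)
    have d1 : HasDerivAt (fun v : ℝ => Real.sin (2 * Real.pi * v))
        (Real.cos (2 * Real.pi * v) * (2 * Real.pi)) v := d0.sin
    have d2 : HasDerivAt (fun v : ℝ => Real.sin (2 * Real.pi * v) / (2 * Real.pi * v))
        ((Real.cos (2 * Real.pi * v) * (2 * Real.pi) * (2 * Real.pi * v) -
          Real.sin (2 * Real.pi * v) * (2 * Real.pi)) / (2 * Real.pi * v) ^ 2) v :=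
      d1.div d0 (by positivity)
    refine d2.congr_deriv ?_
    field_simp
  have key := intervalIntegral.integral_eq_sub_of_hasDerivAt hd (c1.sub c2).intervalIntegrable
  rw [intervalIntegral.integral_sub c1.intervalIntegrable c2.intervalIntegrable] at key
  have e0 : Real.sin (2 * Real.pi * 1) = 0 := by rw [mul_one]; exact Real.sin_two_pi
  rw [e0, zero_div, sub_zero] at key
  have b1 : |Real.sin (2 * Real.pi * a) / (2 * Real.pi * a)| ≤ 1 / 6 := by
    rw [abs_div, abs_of_pos (show 0 < 2 * Real.pi * a by positivity)]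
    apply div_le_div₀ (by norm_num) (Real.abs_sin_le_one _) (by norm_num)
    nlinarith
  have b2 := sin_int ha
  have e : (∫ v in (1 : ℝ)..a, Real.cos (2 * Real.pi * v) / v) =
      Real.sin (2 * Real.pi * a) / (2 * Real.pi * a) +
      (∫ v in (1 : ℝ)..a, Real.sin (2 * Real.pi * v) / (2 * Real.pi * v ^ 2)) := by linarith
  rw [e]
  refine (abs_add_le _ _).trans ?_
  linarith

lemma v_sn {v : ℝ} (hv : v ≠ 0) :
    v * sn v = 1 / (2 * Real.pi ^ 2) * (v⁻¹ - Real.cos (2 * Real.pi * v) / v) := by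
  have hpi := Real.pi_pos
  rw [sn_eq hv, div_pow, show 2 * Real.pi * v = 2 * (Real.pi * v) by ring, Real.cos_two_mul,
    Real.sin_sq]
  field_simp
  ring

lemma vsn_int {a : ℝ} (ha : 0 < a) :
    |(∫ v in (0 : ℝ)..a, v * sn v) - 1 / (2 * Real.pi ^ 2) * Real.log (1 + a)| ≤ 1 := by
  have hpi := Real.pi_gt_three
  have hp : 0 < 1 / (2 * Real.pi ^ 2) ∧ 1 / (2 * Real.pi ^ 2) ≤ 1 / 18 := by
    refine ⟨by positivity, ?_⟩
    apply div_le_div₀ (by norm_num) le_rfl (by norm_num)
    nlinarith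
  have hc : Continuous fun v : ℝ => v * sn v := continuous_id.mul sn_cont
  have small : ∀ b : ℝ, 0 ≤ b → b ≤ 1 → 0 ≤ (∫ v in (0 : ℝ)..b, v * sn v) ∧
      (∫ v in (0 : ℝ)..b, v * sn v) ≤ 1 / 2 := by
    intro b hb hb1
    refine ⟨intervalIntegral.integral_nonneg hb fun v hv => mul_nonneg hv.1 (sn_nonneg v), ?_⟩
    have h1 := intervalIntegral.integral_mono_on hb (hc.intervalIntegrable _ _)
      (continuous_id.intervalIntegrable (μ := volume) _ _)
      (fun v hv => (mul_le_mul_of_nonneg_left (sn_le_one v) hv.1).trans_eq (mul_one v))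
    refine h1.trans ?_
    simp only [id]
    rw [integral_id]
    nlinarith
  rcases le_or_gt a 1 with h | h
  · obtain ⟨s1, s2⟩ := small a ha.le h
    have l1 : Real.log (1 + a) ≤ 1 := by
      have := Real.log_le_sub_one_of_pos (show 0 < 1 + a by linarith)
      linarith
    have l0 : 0 ≤ Real.log (1 + a) := Real.log_nonneg (by linarith)
    have l2 : 1 / (2 * Real.pi ^ 2) * Real.log (1 + a) ≤ 1 / 18 * 1 :=
      mul_le_mul hp.2 l1 l0 (by norm_num)
    have l3 : 0 ≤ 1 / (2 * Real.pi ^ 2) * Real.log (1 + a) := mul_nonneg hp.1.le l0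
    rw [abs_le]
    constructor <;> linarith
  · obtain ⟨s1, s2⟩ := small 1 zero_le_one le_rfl
    rw [← intervalIntegral.integral_add_adjacent_intervals (hc.intervalIntegrable 0 1)
      (hc.intervalIntegrable 1 a)]
    have hne : ∀ v ∈ uIcc 1 a, v ≠ 0 := by
      intro v hv
      rw [uIcc_of_le h.le] at hv
      have := hv.1
      intro h; linarith
    have c0 : ContinuousOn (fun v : ℝ => v⁻¹) (uIcc 1 a) := continuousOn_id.inv₀ hne
    have c1 : ContinuousOn (fun v : ℝ => Real.cos (2 * Real.pi * v) / v) (uIcc 1 a) := by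
      apply ContinuousOn.div _ continuousOn_id hne
      exact (Real.continuous_cos.comp (continuous_const.mul continuous_id)).continuousOn
    have e : ∫ v in (1 : ℝ)..a, v * sn v = 1 / (2 * Real.pi ^ 2) *
        (Real.log a - ∫ v in (1 : ℝ)..a, Real.cos (2 * Real.pi * v) / v) := by
      rw [intervalIntegral.integral_congr (fun v hv => v_sn (hne v hv)),
        intervalIntegral.integral_const_mul,
        intervalIntegral.integral_sub c0.intervalIntegrable c1.intervalIntegrable,
        integral_inv_of_pos one_pos (by linarith), div_one]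
    rw [e]
    have h3 := cos_int h.le
    have h4 : 0 ≤ Real.log (1 + a) - Real.log a ∧ Real.log (1 + a) - Real.log a ≤ 1 := by
      refine ⟨sub_nonneg.mpr (Real.log_le_log ha (by linarith)), ?_⟩
      rw [← Real.log_div (by linarith) ha.ne']
      refine (Real.log_le_sub_one_of_pos (by positivity)).trans ?_
      rw [tsub_le_iff_right, div_le_iff₀ ha]
      linarith
    have e2 : (∫ v in (0 : ℝ)..1, v * sn v) + 1 / (2 * Real.pi ^ 2) *
        (Real.log a - ∫ v in (1 : ℝ)..a, Real.cos (2 * Real.pi * v) / v) -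
        1 / (2 * Real.pi ^ 2) * Real.log (1 + a) =
        (∫ v in (0 : ℝ)..1, v * sn v) - 1 / (2 * Real.pi ^ 2) *
        ((Real.log (1 + a) - Real.log a) +
          ∫ v in (1 : ℝ)..a, Real.cos (2 * Real.pi * v) / v) := by ring
    rw [e2]
    have h5 : |1 / (2 * Real.pi ^ 2) * ((Real.log (1 + a) - Real.log a) +
          ∫ v in (1 : ℝ)..a, Real.cos (2 * Real.pi * v) / v)| ≤ 1 / 18 * 2 := by
      rw [abs_mul, abs_of_pos hp.1]
      apply mul_le_mul hp.2 _ (abs_nonneg _) (by norm_num)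
      refine (abs_add_le _ _).trans ?_
      rw [abs_of_nonneg h4.1]
      linarith
    refine (abs_sub _ _).trans ?_
    rw [abs_of_nonneg s1]
    linarith

/-- the averaged prediction -/
theorem pred_int {a : ℝ} (ha : 0 < a) :
    |(∫ u in (0 : ℝ)..a, (u - ∫ v in (0 : ℝ)..u, sn v)) -
      (a ^ 2 / 2 - a / 2 + 1 / (2 * Real.pi ^ 2) * Real.log (1 + a))| ≤ 2 := by
  have hI : Continuous fun u : ℝ => ∫ v in (0 : ℝ)..u, sn v :=
    intervalIntegral.continuous_primitive (fun _ _ => sn_cont.intervalIntegrable _ _) 0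
  have hd : ∀ u ∈ uIcc 0 a, HasDerivAt (fun u : ℝ => (u - a) * ∫ v in (0 : ℝ)..u, sn v)
      ((∫ v in (0 : ℝ)..u, sn v) + (u - a) * sn u) u := by
    intro u _
    have d1 : HasDerivAt (fun u : ℝ => u - a) 1 u := (hasDerivAt_id u).sub_const a
    have d2 : HasDerivAt (fun u : ℝ => ∫ v in (0 : ℝ)..u, sn v) (sn u) u :=
      intervalIntegral.integral_hasDerivAt_right (sn_cont.intervalIntegrable _ _)
        (sn_cont.stronglyMeasurableAtFilter _ _) sn_cont.continuousAt
    refine (d1.mul d2).congr_deriv ?_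
    rw [one_mul]
  have c1 : Continuous fun u : ℝ => (u - a) * sn u := (continuous_id.sub continuous_const).mul sn_cont
  have c2 : Continuous fun u : ℝ => (∫ v in (0 : ℝ)..u, sn v) + (u - a) * sn u :=
    hI.add c1
  have key := intervalIntegral.integral_eq_sub_of_hasDerivAt hd (c2.intervalIntegrable _ _)
  rw [intervalIntegral.integral_add (hI.intervalIntegrable _ _)
    (c1.intervalIntegrable _ _)] at key
  simp only [sub_self, zero_mul, intervalIntegral.integral_same, mul_zero] at key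
  have e3 : ∫ u in (0 : ℝ)..a, (u - a) * sn u = (∫ u in (0 : ℝ)..a, u * sn u) -
      a * ∫ u in (0 : ℝ)..a, sn u := by
    have c3 : Continuous fun u : ℝ => u * sn u := continuous_id.mul sn_cont
    have c4 : Continuous fun u : ℝ => a * sn u := continuous_const.mul sn_cont
    rw [← intervalIntegral.integral_const_mul, ← intervalIntegral.integral_sub
      (c3.intervalIntegrable _ _) (c4.intervalIntegrable _ _)]
    refine intervalIntegral.integral_congr fun u _ => ?_
    show (u - a) * sn u = u * sn u - a * sn u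
    ring
  rw [e3] at key
  have c5 : Continuous fun u : ℝ => u := continuous_id
  rw [intervalIntegral.integral_sub (c5.intervalIntegrable _ _) (hI.intervalIntegrable _ _)]
  have e4 : ∫ u in (0 : ℝ)..a, u = a ^ 2 / 2 := by rw [integral_id]; ring
  rw [e4]
  have h1 := sn_a ha
  have h2 := vsn_int ha
  have e5 : a ^ 2 / 2 - (∫ u in (0 : ℝ)..a, ∫ v in (0 : ℝ)..u, sn v) -
      (a ^ 2 / 2 - a / 2 + 1 / (2 * Real.pi ^ 2) * Real.log (1 + a)) =
      ((∫ v in (0 : ℝ)..a, v * sn v) - 1 / (2 * Real.pi ^ 2) * Real.log (1 + a)) -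
      (a * (∫ v in (0 : ℝ)..a, sn v) - a / 2) := by linarith
  rw [e5]
  refine (abs_sub _ _).trans ?_
  linarith

end Helper859_PC
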