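import Pool.Agent.Helper859_PC.Var
import Pool.Agent.Helper859_PC.Pairs
import Pool.Agent.Helper859_PC.Snc

/-! # The pair counts of zeta zeros: estimates -/

set_option autoImplicit false

open Filter Topology Complex MeasureTheory Set

namespace Helper859_PC.Fin

/-- the nontrivial zeros of zeta with ordinate in `(0, T]` -/
def zeros (T : ℝ) : Set ℂ :=
  {s : ℂ | riemannZeta s = 0 ∧ 0 < s.re ∧ s.re < 1 ∧ 0 < s.im ∧ s.im ≤ T}

/-- the multiplicity of a zero -/
noncomputable def mult (s : ℂ) : ℕ := analyticOrderNatAt riemannZeta s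

/-- `N(T; α, β)`: the number of ordered pairs of zeros in `zeros T`, counted with multiplicity,
with difference of the ordinates times `log T / 2π` in `[α, β]` -/
noncomputable def N (T α β : ℝ) : ℕ :=
  ∑ᶠ s ∈ zeros T, ∑ᶠ s' ∈ {s' : ℂ | s' ∈ zeros T ∧
    α ≤ (s.im - s'.im) * Real.log T / (2 * Real.pi) ∧
    (s.im - s'.im) * Real.log T / (2 * Real.pi) ≤ β}, mult s * mult s'

/-- `P(T; u)`: the number of ordered pairs of zeros in `zeros T`, counted with multiplicity,
with difference of the ordinates times `log T / 2π` in `(0, u]` -/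
noncomputable def P (T u : ℝ) : ℕ :=
  ∑ᶠ s ∈ zeros T, ∑ᶠ s' ∈ {s' : ℂ | s' ∈ zeros T ∧
    0 < (s.im - s'.im) * Real.log T / (2 * Real.pi) ∧
    (s.im - s'.im) * Real.log T / (2 * Real.pi) ≤ u}, mult s * mult s'

/-- the pair correlation function -/
noncomputable def F (u : ℝ) : ℝ := 1 - (Real.sin (Real.pi * u) / (Real.pi * u)) ^ 2

/-- the normalisation `(T / 2π) log T` -/
noncomputable def norm (T : ℝ) : ℝ := T / (2 * Real.pi) * Real.log T

open Helper859_PC (KT SP SPo NP mr sn g)

lemma zeros_eq (T : ℝ) : zeros T = SG.ZS T := rfl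

theorem zeros_finite (T : ℝ) : (zeros T).Finite := SG.ZS_finite T

/-- the pair sums as finite sums -/
lemma pairs_eq (T : ℝ) (p : ℝ → Prop) [DecidablePred p] :
    ((∑ᶠ s ∈ zeros T, ∑ᶠ s' ∈ {s' : ℂ | s' ∈ zeros T ∧ p (s.im - s'.im)},
      mult s * mult s' : ℕ) : ℝ) =
    ∑ s ∈ (SG.ZS_finite T).toFinset, ∑ s' ∈ (SG.ZS_finite T).toFinset,
      mr s * mr s' * (if p (s.im - s'.im) then 1 else 0) := by
  rw [finsum_mem_eq_finite_toFinset_sum _ (zeros_finite T)]
  push_cast
  refine Finset.sum_congr rfl fun s _ => ?_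
  have hfin : {s' : ℂ | s' ∈ zeros T ∧ p (s.im - s'.im)}.Finite :=
    (zeros_finite T).subset fun s' hs' => hs'.1
  rw [finsum_mem_eq_finite_toFinset_sum _ hfin]
  have e : hfin.toFinset = (SG.ZS_finite T).toFinset.filter fun s' => p (s.im - s'.im) := by
    ext s'
    rw [Finset.mem_filter, Set.Finite.mem_toFinset, Set.Finite.mem_toFinset]
    rfl
  rw [e, Finset.sum_filter]
  push_cast
  refine Finset.sum_congr rfl fun s' _ => ?_
  split_ifs
  · rw [mul_one]; rfl
  · rw [mul_zero]

lemma N_eq {T : ℝ} (hT : 1 < T) (α β : ℝ) : (N T α β : ℝ) =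
    NP (SG.ZS_finite T).toFinset mr Complex.im (α * (2 * Real.pi / Real.log T))
      (β * (2 * Real.pi / Real.log T)) := by
  classical
  have hL : 0 < Real.log T := Real.log_pos hT
  have hpi := Real.pi_pos
  unfold N NP
  rw [pairs_eq T (fun d => α ≤ d * Real.log T / (2 * Real.pi) ∧
    d * Real.log T / (2 * Real.pi) ≤ β)]
  refine Finset.sum_congr rfl fun s _ => Finset.sum_congr rfl fun s' _ => ?_
  congr 1
  refine if_congr (and_congr ?_ ?_) rfl rfl
  · rw [le_div_iff₀ (by positivity), ← mul_div_assoc, div_le_iff₀ hL]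
  · rw [div_le_iff₀ (by positivity), ← mul_div_assoc, le_div_iff₀ hL]

/-- the pairs at distance at most `u`, in terms of `P` -/
lemma P_eq {T : ℝ} (hT : 1 < T) {u : ℝ} (hu : 0 ≤ u) :
    SP (SG.ZS_finite T).toFinset mr Complex.im (u * (2 * Real.pi / Real.log T)) =
    N T 0 0 + 2 * P T u := by
  classical
  have hL : 0 < Real.log T := Real.log_pos hT
  have hpi := Real.pi_pos
  set Z := (SG.ZS_finite T).toFinset with hZ
  set h := 2 * Real.pi / Real.log T with hh
  have hh0 : 0 < h := by positivity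
  have hP : (P T u : ℝ) = ∑ s ∈ Z, ∑ s' ∈ Z, mr s * mr s' *
      (if 0 < s.im - s'.im ∧ s.im - s'.im ≤ u * h then 1 else 0) := by
    unfold P
    rw [pairs_eq T (fun d => 0 < d * Real.log T / (2 * Real.pi) ∧
      d * Real.log T / (2 * Real.pi) ≤ u)]
    refine Finset.sum_congr rfl fun s _ => Finset.sum_congr rfl fun s' _ => ?_
    congr 1
    refine if_congr (and_congr ?_ ?_) rfl rfl
    · rw [lt_div_iff₀ (by positivity), zero_mul]
      exact mul_pos_iff_of_pos_right hL
    · rw [div_le_iff₀ (by positivity), hh, ← mul_div_assoc, le_div_iff₀ hL]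
  have hP' : (P T u : ℝ) = ∑ s ∈ Z, ∑ s' ∈ Z, mr s * mr s' *
      (if 0 < s'.im - s.im ∧ s'.im - s.im ≤ u * h then 1 else 0) := by
    rw [hP, Finset.sum_comm]
    refine Finset.sum_congr rfl fun s _ => Finset.sum_congr rfl fun s' _ => ?_
    rw [mul_comm (mr s') (mr s)]
  have hN := N_eq hT 0 0
  rw [zero_mul, ← hZ] at hN
  have e : (N T 0 0 : ℝ) + 2 * P T u = N T 0 0 + P T u + P T u := by ring
  rw [e]
  nth_rewrite 2 [hP']
  rw [hN, hP]
  unfold SP NP
  rw [← Finset.sum_add_distrib, ← Finset.sum_add_distrib]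
  refine Finset.sum_congr rfl fun s _ => ?_
  rw [← Finset.sum_add_distrib, ← Finset.sum_add_distrib]
  refine Finset.sum_congr rfl fun s' _ => ?_
  rw [← mul_add, ← mul_add]
  congr 1
  have huh : 0 ≤ u * h := mul_nonneg hu hh0.le
  set d := s.im - s'.im with hd
  have hd' : s'.im - s.im = -d := by rw [hd]; ring
  rw [hd']
  rcases lt_trichotomy d 0 with h1 | h1 | h1
  · have n1 : ¬ (0 ≤ d ∧ d ≤ 0) := fun a => absurd a.1 (not_le.mpr h1)
    have n2 : ¬ (0 < d ∧ d ≤ u * h) := fun a => absurd a.1 (not_lt.mpr h1.le)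
    rw [abs_of_neg h1, if_neg n1, if_neg n2]
    by_cases h2 : -d ≤ u * h
    · rw [if_pos h2, if_pos ⟨by linarith, h2⟩]; norm_num
    · have n3 : ¬ (0 < -d ∧ -d ≤ u * h) := fun a => h2 a.2
      rw [if_neg h2, if_neg n3]; norm_num
  · have n2 : ¬ ((0 : ℝ) < 0 ∧ 0 ≤ u * h) := fun a => absurd a.1 (lt_irrefl _)
    rw [h1, abs_zero, neg_zero, if_pos huh, if_pos ⟨le_rfl, le_rfl⟩, if_neg n2]
    norm_num
  · have n1 : ¬ (0 ≤ d ∧ d ≤ 0) := fun a => absurd a.2 (not_le.mpr h1)
    have n2 : ¬ (0 < -d ∧ -d ≤ u * h) := fun a => absurd a.1 (by linarith)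
    rw [abs_of_pos h1, if_neg n1, if_neg n2]
    by_cases h2 : d ≤ u * h
    · rw [if_pos h2, if_pos ⟨h1, h2⟩]; norm_num
    · have n3 : ¬ (0 < d ∧ d ≤ u * h) := fun a => h2 a.2
      rw [if_neg h2, if_neg n3]; norm_num

lemma int_F {α β : ℝ} (hα : 0 ≤ α) (hαβ : α ≤ β) :
    ∫ u in α..β, F u = (β - α) - ∫ u in α..β, sn u := by
  have e : ∫ u in α..β, F u = ∫ u in α..β, (1 - sn u) := by
    rw [intervalIntegral.integral_of_le hαβ, intervalIntegral.integral_of_le hαβ]
    refine setIntegral_congr_fun measurableSet_Ioc fun u hu => ?_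
    have : u ≠ 0 := (lt_of_le_of_lt hα hu.1).ne'
    simp only [F]
    rw [Helper859_PC.sn_eq this]
  rw [e, intervalIntegral.integral_sub intervalIntegrable_const
    (Helper859_PC.sn_cont.intervalIntegrable _ _), intervalIntegral.integral_const, smul_eq_mul,
    mul_one]

lemma ok_of {β L a : ℝ} (hβ : 0 < β) (hL : 1 ≤ L) (h : β * Real.log β ≤ L) (ha : 0 ≤ a)
    (hab : a ≤ β + 1) : a * Real.log a ≤ 4 * L := by
  rcases le_or_gt a 1 with h1 | h1
  · have := mul_nonpos_of_nonneg_of_nonpos ha (Real.log_nonpos ha h1)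
    linarith
  · have h2 : a * Real.log a ≤ (β + 1) * Real.log (β + 1) :=
      mul_le_mul hab (Real.log_le_log (by linarith) hab) (Real.log_nonneg h1.le) (by linarith)
    refine h2.trans ?_
    have l2 := Real.log_two_lt_d9
    have l2' := Real.log_two_gt_d9
    rcases le_or_gt β 2 with h3 | h3
    · have h4 : Real.log (β + 1) ≤ 4 / 3 := by
        have h5 : Real.log (β + 1) ≤ Real.log 3 := Real.log_le_log (by linarith) (by linarith)
        have h6 : Real.log 3 = Real.log 2 + Real.log (3 / 2) := by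
          rw [← Real.log_mul (by norm_num) (by norm_num)]; norm_num
        have h7 := Real.log_le_sub_one_of_pos (show (0 : ℝ) < 3 / 2 by norm_num)
        linarith
      have h5 : 0 ≤ Real.log (β + 1) := Real.log_nonneg (by linarith)
      nlinarith
    · have h4 : Real.log (β + 1) ≤ 2 * Real.log β := by
        have h5 : Real.log (β + 1) ≤ Real.log (β ^ 2) :=
          Real.log_le_log (by linarith) (by nlinarith)
        rw [Real.log_pow] at h5
        push_cast at h5
        exact h5
      have h5 : 0 ≤ Real.log β := Real.log_nonneg (by linarith)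
      calc (β + 1) * Real.log (β + 1) ≤ (3 / 2 * β) * (2 * Real.log β) :=
            mul_le_mul (by linarith) h4 (Real.log_nonneg (by linarith)) (by linarith)
        _ = 3 * (β * Real.log β) := by ring
        _ ≤ 4 * L := by linarith

/-- **Bounded discrepancy of Montgomery's pair count, uniformly in the window, and its average.**
No hypothesis is assumed. -/
theorem main :
    (∃ C T₀ : ℝ, ∀ T : ℝ, T₀ ≤ T → ∀ α β : ℝ, 0 < α → α ≤ β → β * Real.log β ≤ Real.log T →
      |(N T α β : ℝ) - norm T * ∫ u in α..β, F u| ≤ C * norm T) ∧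
    (∃ C T₀ : ℝ, ∀ T : ℝ, T₀ ≤ T → ∀ a : ℝ, 0 < a → a * Real.log a ≤ Real.log T →
      |1 / a * (∫ u in (0 : ℝ)..a, ((P T u : ℝ) / norm T - ∫ v in (0 : ℝ)..u, F v)) -
        (1 - (N T 0 0 : ℝ) / norm T) / 2| ≤ C * (1 / a + a / Real.log T)) := by
  obtain ⟨C, T1, hC, hT1, hker⟩ := Helper859_PC.kernel
  have hpi := Real.pi_gt_three
  constructor
  · refine ⟨20 * C + 3, T1, fun T hT α β hα hαβ hβL => ?_⟩
    obtain ⟨θ, hθ, -, hK⟩ := hker T hT
    have hT0 : 0 < T := by linarith
    set L := Real.log T with hL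
    have hL1 : 1 ≤ L := by
      rw [hL, Real.le_log_iff_exp_le hT0]
      exact (Real.exp_one_lt_d9.le).trans (by linarith)
    have hβ : 0 < β := hα.trans_le hαβ
    have hβ4 : β ≤ 4 * L := Helper859_PC.small_le hβ hL1 (by linarith)
    have h1 := Helper859_PC.NP_est (Z := (SG.ZS_finite T).toFinset) (m := mr) (γ := Complex.im)
      (fun s _ => Helper859_PC.mr_nonneg s) (T := T) (h := 2 * Real.pi / L) (θ := θ) (L := L)
      (C := C) hT0 (by positivity) hL1 hθ hC (ok := fun a => a * Real.log a ≤ 4 * L) hK hα hαβ hβ4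
      (fun a ha hab => ok_of hβ hL1 hβL ha hab)
    have hn : T / (2 * Real.pi / L) = norm T := by unfold norm; rw [← hL]; field_simp
    rw [hn, ← N_eq (by linarith)] at h1
    have hnorm : 0 < norm T := by rw [← hn]; positivity
    rw [int_F hα.le hαβ]
    obtain ⟨s1, s2⟩ := Helper859_PC.sn_int_bounds hα.le hαβ
    have e : (N T α β : ℝ) - norm T * (β - α - ∫ u in α..β, sn u) =
        ((N T α β : ℝ) - (β - α) * norm T) + norm T * ∫ u in α..β, sn u := by ring
    rw [e]
    refine (abs_add_le _ _).trans ?_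
    rw [abs_of_nonneg (mul_nonneg hnorm.le s1)]
    nlinarith
  · refine ⟨C + 2, T1, fun T hT a ha haL => ?_⟩
    obtain ⟨θ, hθ, -, hK⟩ := hker T hT
    have hT0 : 0 < T := by linarith
    set L := Real.log T with hL
    have hL1 : 1 ≤ L := by
      rw [hL, Real.le_log_iff_exp_le hT0]
      exact (Real.exp_one_lt_d9.le).trans (by linarith)
    set h := 2 * Real.pi / L with hh
    have hh0 : 0 < h := by positivity
    have hn : T / h = norm T := by unfold norm; rw [hh, ← hL]; field_simp
    have hnorm : 0 < norm T := by rw [← hn]; positivity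
    have h1 := hK a ha.le (by linarith)
    set Z := (SG.ZS_finite T).toFinset with hZ
    -- the integral of the counts
    have i1 : ∫ u in (0 : ℝ)..a, SP Z mr Complex.im (u * h) = KT Z mr Complex.im (a * h) / h := by
      rw [intervalIntegral.integral_comp_mul_right (fun u => SP Z mr Complex.im u) hh0.ne',
        zero_mul, Helper859_PC.KT_eq_integral Z mr Complex.im (by positivity), smul_eq_mul]
      field_simp
    have hmono : Monotone fun u : ℝ => SP Z mr Complex.im (u * h) := by
      intro u v huv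
      simp only
      unfold SP
      refine Finset.sum_le_sum fun i _ => Finset.sum_le_sum fun j _ => ?_
      apply mul_le_mul_of_nonneg_left _ (mul_nonneg (Helper859_PC.mr_nonneg i)
        (Helper859_PC.mr_nonneg j))
      by_cases h2 : |i.im - j.im| ≤ u * h
      · rw [if_pos h2, if_pos (h2.trans (mul_le_mul_of_nonneg_right huv hh0.le))]
      · rw [if_neg h2]
        split_ifs <;> norm_num
    have hI : Continuous fun u : ℝ => ∫ v in (0 : ℝ)..u, sn v :=
      intervalIntegral.continuous_primitive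
        (fun _ _ => Helper859_PC.sn_cont.intervalIntegrable _ _) 0
    have hI2 : Continuous fun u : ℝ => u - ∫ v in (0 : ℝ)..u, sn v := continuous_id.sub hI
    have e1 : ∫ u in (0 : ℝ)..a, ((P T u : ℝ) / norm T - ∫ v in (0 : ℝ)..u, F v) =
        ∫ u in (0 : ℝ)..a, (1 / (2 * norm T) * SP Z mr Complex.im (u * h) -
          (N T 0 0 : ℝ) / (2 * norm T) - (u - ∫ v in (0 : ℝ)..u, sn v)) := by
      refine intervalIntegral.integral_congr fun u hu => ?_
      rw [uIcc_of_le ha.le] at hu
      show (P T u : ℝ) / norm T - ∫ v in (0 : ℝ)..u, F v = 1 / (2 * norm T) *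
        SP Z mr Complex.im (u * h) - (N T 0 0 : ℝ) / (2 * norm T) - (u - ∫ v in (0 : ℝ)..u, sn v)
      rw [hh, hL, P_eq (by linarith) hu.1, int_F le_rfl hu.1]
      field_simp
      ring
    have e2 : ∫ u in (0 : ℝ)..a, (1 / (2 * norm T) * SP Z mr Complex.im (u * h) -
          (N T 0 0 : ℝ) / (2 * norm T) - (u - ∫ v in (0 : ℝ)..u, sn v)) =
        1 / (2 * norm T) * (KT Z mr Complex.im (a * h) / h) - a * ((N T 0 0 : ℝ) / (2 * norm T)) -
        ∫ u in (0 : ℝ)..a, (u - ∫ v in (0 : ℝ)..u, sn v) := by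
      rw [intervalIntegral.integral_sub ((hmono.intervalIntegrable.const_mul _).sub
        intervalIntegrable_const) (hI2.intervalIntegrable _ _),
        intervalIntegral.integral_sub (hmono.intervalIntegrable.const_mul _)
        intervalIntegrable_const, intervalIntegral.integral_const_mul, i1,
        intervalIntegral.integral_const, smul_eq_mul, sub_zero]
    rw [e1, e2]
    have h2 := Helper859_PC.pred_int ha
    set I := ∫ u in (0 : ℝ)..a, (u - ∫ v in (0 : ℝ)..u, sn v) with hI0
    set K := KT Z mr Complex.im (a * h) with hK0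
    have e3 : 1 / (2 * norm T) * (K / h) = K / (2 * T) := by
      rw [← hn]; field_simp
    rw [e3]
    have e4 : 1 / a * (K / (2 * T) - a * ((N T 0 0 : ℝ) / (2 * norm T)) - I) -
        (1 - (N T 0 0 : ℝ) / norm T) / 2 =
        a * θ / L + (1 / a) * ((K - a ^ 2 * T * (1 + 2 * θ / L) - T / Real.pi ^ 2 *
          Real.log (1 + a)) / (2 * T)) -
        (1 / a) * (I - (a ^ 2 / 2 - a / 2 + 1 / (2 * Real.pi ^ 2) * Real.log (1 + a))) := by
      field_simp
      ring
    rw [e4]
    have b1 : |a * θ / L| ≤ C * (a / L) := by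
      rw [abs_div, abs_mul, abs_of_pos ha, abs_of_pos (show 0 < L by linarith)]
      calc a * |θ| / L ≤ a * C / L := by gcongr
        _ = C * (a / L) := by ring
    have b2 : |(1 / a) * ((K - a ^ 2 * T * (1 + 2 * θ / L) - T / Real.pi ^ 2 *
          Real.log (1 + a)) / (2 * T))| ≤ C * (1 / a) := by
      rw [abs_mul, abs_of_pos (show 0 < 1 / a by positivity), abs_div,
        abs_of_pos (show 0 < 2 * T by positivity), mul_comm]
      apply mul_le_mul_of_nonneg_right _ (by positivity)
      rw [div_le_iff₀ (by positivity)]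
      nlinarith [mul_nonneg hC hT0.le]
    have b3 : |(1 / a) * (I - (a ^ 2 / 2 - a / 2 + 1 / (2 * Real.pi ^ 2) *
        Real.log (1 + a)))| ≤ 2 * (1 / a) := by
      rw [abs_mul, abs_of_pos (show 0 < 1 / a by positivity), mul_comm]
      exact mul_le_mul_of_nonneg_right h2 (by positivity)
    refine (abs_sub _ _).trans ?_
    refine (add_le_add (abs_add_le _ _) le_rfl).trans ?_
    have p1 : 0 ≤ a / L := by positivity
    have p2 : 0 ≤ 1 / a := by positivity
    nlinarith

/-- the mean multiplicity is at least `1 - C / log T` -/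
theorem m_lower : ∃ C T₀ : ℝ, 0 ≤ C ∧ ∀ T : ℝ, T₀ ≤ T →
    1 - C / Real.log T ≤ (N T 0 0 : ℝ) / norm T := by
  obtain ⟨C, T1, hC, hT1, hker⟩ := Helper859_PC.kernel
  refine ⟨C, T1, hC, fun T hT => ?_⟩
  obtain ⟨θ, hθ, hNZ, -⟩ := hker T hT
  have hpi := Real.pi_gt_three
  have hT0 : 0 < T := by linarith
  set L := Real.log T with hL
  have hL1 : 1 ≤ L := by
    rw [hL, Real.le_log_iff_exp_le hT0]
    exact (Real.exp_one_lt_d9.le).trans (by linarith)
  have hnorm : 0 < norm T := by unfold norm; rw [← hL]; positivity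
  have h1 : (SG.NZ T : ℝ) ≤ N T 0 0 := by
    classical
    rw [N_eq (by linarith) 0 0, zero_mul, SG.NZ_eq]
    push_cast
    unfold NP
    refine Finset.sum_le_sum fun s hs => ?_
    have h2 : 1 ≤ mr s := by
      rw [Set.Finite.mem_toFinset] at hs
      have := SG.zmult_pos hs.2.2.2.1 hs.1
      show (1 : ℝ) ≤ (SG.zmult s : ℝ)
      exact_mod_cast this
    calc (SG.zmult s : ℝ) = mr s * 1 := by rw [mul_one]; rfl
      _ ≤ mr s * mr s := mul_le_mul_of_nonneg_left h2 (by linarith)
      _ = mr s * mr s * (if 0 ≤ s.im - s.im ∧ s.im - s.im ≤ 0 then 1 else 0) := by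
          rw [sub_self, if_pos ⟨le_rfl, le_rfl⟩, mul_one]
      _ ≤ _ := Finset.single_le_sum (f := fun s' => mr s * mr s' *
          (if 0 ≤ s.im - s'.im ∧ s.im - s'.im ≤ 0 then 1 else 0)) (fun s' _ => by
            apply mul_nonneg (mul_nonneg (Helper859_PC.mr_nonneg s) (Helper859_PC.mr_nonneg s'))
            split_ifs <;> norm_num) hs
  have h3 : (SG.NZ T : ℝ) / norm T = 1 + θ / L := by
    have e : (SG.NZ T : ℝ) / norm T = (2 * Real.pi / L * SG.NZ T) / T := by
      unfold norm; rw [← hL]; field_simp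
    rw [e, hNZ]; field_simp
  have h4 : -C / L ≤ θ / L := by
    apply div_le_div_of_nonneg_right _ (by linarith)
    linarith [(abs_le.mp hθ).1]
  have h5 : (SG.NZ T : ℝ) / norm T ≤ (N T 0 0 : ℝ) / norm T :=
    div_le_div_of_nonneg_right h1 hnorm.le
  rw [h3] at h5
  have e : -C / L = -(C / L) := by ring
  rw [e] at h4
  linarith

/-- the average of the discrepancy is at most `O(1 / a + a / log T)` -/
theorem main3 : ∃ C T₀ : ℝ, ∀ T : ℝ, T₀ ≤ T → ∀ a : ℝ, 0 < a → a * Real.log a ≤ Real.log T →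
    1 / a * (∫ u in (0 : ℝ)..a, ((P T u : ℝ) / norm T - ∫ v in (0 : ℝ)..u, F v)) ≤
      C * (1 / a + a / Real.log T) := by
  obtain ⟨-, C, T1, hm⟩ := main
  obtain ⟨C', T2, hC', hl⟩ := m_lower
  refine ⟨C + C', max (max T1 T2) 3, fun T hT a ha haL => ?_⟩
  have a1 : T1 ≤ T := (le_max_left _ _).trans ((le_max_left _ _).trans hT)
  have a2 : T2 ≤ T := (le_max_right _ _).trans ((le_max_left _ _).trans hT)
  have a3 : 3 ≤ T := (le_max_right _ _).trans hT
  have h1 := (abs_le.mp (hm T a1 a ha haL)).2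
  have h2 := hl T a2
  set L := Real.log T with hL
  have hL1 : 1 ≤ L := by
    rw [hL, Real.le_log_iff_exp_le (by linarith)]
    exact (Real.exp_one_lt_d9.le).trans (by linarith)
  have h3 : 1 / L ≤ 1 / a + a / L := by
    have p1 : 0 < 1 / a := by positivity
    have p2 : 0 < a / L := by positivity
    rcases le_or_gt 1 a with h | h
    · have : 1 / L ≤ a / L := div_le_div_of_nonneg_right h (by linarith)
      linarith
    · have h4 : 1 ≤ 1 / a := by rw [le_div_iff₀ ha]; linarith
      have h5 : 1 / L ≤ 1 := by rw [div_le_iff₀ (by linarith)]; linarith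
      linarith
  have h6 : C' / L ≤ C' * (1 / a + a / L) := by
    rw [div_eq_mul_one_div]
    exact mul_le_mul_of_nonneg_left h3 hC'
  have h7 : 0 ≤ C' / L := by positivity
  linarith

end Helper859_PC.Fin
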