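import Pool.Agent.Helper859_PC.Fin
import Pool.Agent.Helper859_PC.Abs

/-! # One half of Montgomery's conjecture gives the other half -/

set_option autoImplicit false

open Filter Topology Complex MeasureTheory Set

namespace Helper859_PC.Fin

open Helper859_PC (KT SP SPo NP mr sn g)

/-- the finite sum for `P` -/
lemma P_sum {T : ℝ} (hT : 1 < T) (u : ℝ) :
    (P T u : ℝ) = ∑ s ∈ (SG.ZS_finite T).toFinset, ∑ s' ∈ (SG.ZS_finite T).toFinset,
      mr s * mr s' * (if 0 < s.im - s'.im ∧ s.im - s'.im ≤ u * (2 * Real.pi / Real.log T)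
        then 1 else 0) := by
  have hL : 0 < Real.log T := Real.log_pos hT
  have hpi := Real.pi_pos
  unfold P
  rw [pairs_eq T (fun d => 0 < d * Real.log T / (2 * Real.pi) ∧
    d * Real.log T / (2 * Real.pi) ≤ u)]
  refine Finset.sum_congr rfl fun s _ => Finset.sum_congr rfl fun s' _ => ?_
  congr 1
  refine if_congr (and_congr ?_ ?_) rfl rfl
  · rw [lt_div_iff₀ (by positivity), zero_mul]
    exact mul_pos_iff_of_pos_right hL
  · rw [div_le_iff₀ (by positivity), ← mul_div_assoc, le_div_iff₀ hL]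

/-- the finite sum for `N` -/
lemma N_sum {T : ℝ} (hT : 1 < T) (α β : ℝ) :
    (N T α β : ℝ) = ∑ s ∈ (SG.ZS_finite T).toFinset, ∑ s' ∈ (SG.ZS_finite T).toFinset,
      mr s * mr s' * (if α * (2 * Real.pi / Real.log T) ≤ s.im - s'.im ∧
        s.im - s'.im ≤ β * (2 * Real.pi / Real.log T) then 1 else 0) := by
  rw [N_eq hT]
  rfl

lemma P_mono {T : ℝ} (hT : 1 < T) {u v : ℝ} (huv : u ≤ v) : (P T u : ℝ) ≤ P T v := by
  have hL : 0 < Real.log T := Real.log_pos hT
  have hh : 0 < 2 * Real.pi / Real.log T := by have := Real.pi_pos; positivity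
  rw [P_sum hT, P_sum hT]
  refine Finset.sum_le_sum fun s _ => Finset.sum_le_sum fun s' _ => ?_
  apply mul_le_mul_of_nonneg_left _ (mul_nonneg (mr_nonneg s) (mr_nonneg s'))
  by_cases h : 0 < s.im - s'.im ∧ s.im - s'.im ≤ u * (2 * Real.pi / Real.log T)
  · rw [if_pos h, if_pos ⟨h.1, h.2.trans (mul_le_mul_of_nonneg_right huv hh.le)⟩]
  · rw [if_neg h]
    split_ifs <;> norm_num

lemma P_add_N_le {T : ℝ} (hT : 1 < T) {u α v : ℝ} (hu : 0 ≤ u) (huα : u < α) (hv : α ≤ v) :
    (P T u : ℝ) + N T α v ≤ P T v := by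
  have hL : 0 < Real.log T := Real.log_pos hT
  have hh : 0 < 2 * Real.pi / Real.log T := by have := Real.pi_pos; positivity
  rw [P_sum hT, P_sum hT, N_sum hT, ← Finset.sum_add_distrib]
  refine Finset.sum_le_sum fun s _ => ?_
  rw [← Finset.sum_add_distrib]
  refine Finset.sum_le_sum fun s' _ => ?_
  rw [← mul_add]
  apply mul_le_mul_of_nonneg_left _ (mul_nonneg (mr_nonneg s) (mr_nonneg s'))
  have m1 := mul_lt_mul_of_pos_right huα hh
  have m2 := mul_le_mul_of_nonneg_right hv hh.le
  have m3 := mul_nonneg hu hh.le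
  set h := 2 * Real.pi / Real.log T
  set d := s.im - s'.im
  by_cases h1 : 0 < d ∧ d ≤ u * h
  · have n1 : ¬ (α * h ≤ d ∧ d ≤ v * h) := fun a => by linarith [a.1, h1.2]
    have p1 : 0 < d ∧ d ≤ v * h := ⟨h1.1, by linarith [h1.2]⟩
    rw [if_pos h1, if_neg n1, if_pos p1]
    norm_num
  · rw [if_neg h1]
    by_cases h2 : α * h ≤ d ∧ d ≤ v * h
    · have p1 : 0 < d ∧ d ≤ v * h := ⟨by linarith [h2.1], h2.2⟩
      rw [if_pos h2, if_pos p1]
      norm_num
    · rw [if_neg h2]
      split_ifs <;> norm_num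

lemma P_le_P_add_N {T : ℝ} (hT : 1 < T) {u v : ℝ} : (P T v : ℝ) ≤ P T u + N T u v := by
  rw [P_sum hT, P_sum hT, N_sum hT, ← Finset.sum_add_distrib]
  refine Finset.sum_le_sum fun s _ => ?_
  rw [← Finset.sum_add_distrib]
  refine Finset.sum_le_sum fun s' _ => ?_
  rw [← mul_add]
  apply mul_le_mul_of_nonneg_left _ (mul_nonneg (mr_nonneg s) (mr_nonneg s'))
  set h := 2 * Real.pi / Real.log T
  set d := s.im - s'.im
  by_cases h1 : 0 < d ∧ d ≤ v * h
  · rw [if_pos h1]
    by_cases h2 : d ≤ u * h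
    · have p1 : 0 < d ∧ d ≤ u * h := ⟨h1.1, h2⟩
      rw [if_pos p1]
      split_ifs <;> norm_num
    · have p2 : u * h ≤ d ∧ d ≤ v * h := ⟨(not_le.mp h2).le, h1.2⟩
      rw [if_pos p2]
      split_ifs <;> norm_num
  · rw [if_neg h1]
    split_ifs <;> norm_num

lemma P_zero {T : ℝ} (hT : 1 < T) : (P T 0 : ℝ) = 0 := by
  rw [P_sum hT]
  refine Finset.sum_eq_zero fun s _ => Finset.sum_eq_zero fun s' _ => ?_
  have n1 : ¬ (0 < s.im - s'.im ∧ s.im - s'.im ≤ 0 * (2 * Real.pi / Real.log T)) := by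
    rintro ⟨a1, a2⟩
    rw [zero_mul] at a2
    exact absurd a1 (not_lt.mpr a2)
  rw [if_neg n1, mul_zero]

/-- the discrepancy -/
noncomputable def D (T u : ℝ) : ℝ := (P T u : ℝ) / norm T - ∫ v in (0 : ℝ)..u, F v

/-- half of the defect of simplicity -/
noncomputable def c (T : ℝ) : ℝ := (1 - (N T 0 0 : ℝ) / norm T) / 2

lemma norm_pos {T : ℝ} (hT : 1 < T) : 0 < norm T := by
  have hL : 0 < Real.log T := Real.log_pos hT
  have := Real.pi_pos
  unfold norm
  positivity

lemma sn_lt {v : ℝ} (hv : v ≠ 0) : sn v < 1 := by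
  rw [Helper859_PC.sn_eq hv, div_pow]
  have h1 : Real.pi * v ≠ 0 := mul_ne_zero Real.pi_ne_zero hv
  rw [div_lt_one (by positivity)]
  exact Real.sin_sq_lt_sq h1

lemma G_int {u v : ℝ} (hu : 0 ≤ u) (huv : u ≤ v) :
    (∫ w in (0 : ℝ)..v, F w) = (∫ w in (0 : ℝ)..u, F w) + ∫ w in u..v, F w := by
  rw [int_F le_rfl (hu.trans huv), int_F le_rfl hu, int_F hu huv,
    ← intervalIntegral.integral_add_adjacent_intervals
      (Helper859_PC.sn_cont.intervalIntegrable 0 u) (Helper859_PC.sn_cont.intervalIntegrable u v)]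
  ring

lemma G_bd {u v : ℝ} (hu : 0 ≤ u) (huv : u ≤ v) :
    0 ≤ (∫ w in u..v, F w) ∧ (∫ w in u..v, F w) ≤ v - u := by
  have e : ∫ w in u..v, F w = ∫ w in u..v, (1 - sn w) := by
    rw [int_F hu huv, intervalIntegral.integral_sub intervalIntegrable_const
      (Helper859_PC.sn_cont.intervalIntegrable _ _), intervalIntegral.integral_const, smul_eq_mul,
      mul_one]
  constructor
  · rw [e]
    exact intervalIntegral.integral_nonneg huv fun w _ => by
      have := Helper859_PC.sn_le_one w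
      linarith
  · rw [int_F hu huv]
    have := (Helper859_PC.sn_int_bounds hu huv).1
    linarith

lemma G_pos {u v : ℝ} (hu : 0 ≤ u) (huv : u < v) : 0 < ∫ w in u..v, F w := by
  have e : ∫ w in u..v, F w = ∫ w in u..v, (1 - sn w) := by
    rw [int_F hu huv.le, intervalIntegral.integral_sub intervalIntegrable_const
      (Helper859_PC.sn_cont.intervalIntegrable _ _), intervalIntegral.integral_const, smul_eq_mul,
      mul_one]
  rw [e]
  refine intervalIntegral.intervalIntegral_pos_of_pos_on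
    ((continuous_const.sub Helper859_PC.sn_cont).intervalIntegrable _ _) (fun w hw => ?_) huv
  have : w ≠ 0 := (lt_of_le_of_lt hu hw.1).ne'
  have := sn_lt this
  linarith

lemma D_sub {T u v : ℝ} (hu : 0 ≤ u) (huv : u ≤ v) :
    D T v - D T u = ((P T v : ℝ) - P T u) / norm T - ∫ w in u..v, F w := by
  unfold D
  rw [G_int hu huv]
  ring

lemma D_lip {T : ℝ} (hT : 1 < T) {u v : ℝ} (hu : 0 ≤ u) (huv : u ≤ v) :
    D T u ≤ D T v + (v - u) := by
  have h1 := D_sub (T := T) hu huv
  have h2 : 0 ≤ ((P T v : ℝ) - P T u) / norm T :=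
    div_nonneg (sub_nonneg.mpr (P_mono hT huv)) (norm_pos hT).le
  have h3 := (G_bd hu huv).2
  linarith

lemma D_zero {T : ℝ} (hT : 1 < T) : D T 0 = 0 := by
  unfold D
  rw [P_zero hT, intervalIntegral.integral_same]
  simp

lemma D_ii {T : ℝ} (hT : 1 < T) {a : ℝ} (ha : 0 ≤ a) :
    IntervalIntegrable (D T) volume 0 a := by
  have h1 : Monotone fun u : ℝ => (P T u : ℝ) := fun u v huv => P_mono hT huv
  have hI : Continuous fun u : ℝ => u - ∫ v in (0 : ℝ)..u, sn v := continuous_id.sub
    (intervalIntegral.continuous_primitive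
      (fun _ _ => Helper859_PC.sn_cont.intervalIntegrable _ _) 0)
  have h2 : IntervalIntegrable (fun u : ℝ => (P T u : ℝ) / norm T -
      (u - ∫ v in (0 : ℝ)..u, sn v)) volume 0 a :=
    (h1.intervalIntegrable.div_const _).sub (hI.intervalIntegrable _ _)
  refine h2.congr fun u hu => ?_
  rw [uIoc_of_le ha] at hu
  show (P T u : ℝ) / norm T - (u - ∫ v in (0 : ℝ)..u, sn v) = D T u
  unfold D
  rw [int_F le_rfl hu.1.le, sub_zero]

/-- the average of the discrepancy -/
lemma D_avg : ∀ ε : ℝ, 0 < ε → ∃ a0 : ℝ, 0 < a0 ∧ ∀ a : ℝ, a0 ≤ a → ∀ᶠ T in atTop,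
      |1 / a * (∫ u in (0 : ℝ)..a, D T u) - c T| ≤ ε := by
  intro ε hε
  obtain ⟨-, C, T1, hm⟩ := main
  set K := |C| + 1 with hK
  have hK0 : 0 < K := by positivity
  have hCK : C ≤ K := by linarith [le_abs_self C]
  refine ⟨2 * K / ε, by positivity, fun a ha => ?_⟩
  have ha0 : 0 < a := lt_of_lt_of_le (by positivity) ha
  have hlog : Tendsto Real.log atTop atTop := Real.tendsto_log_atTop
  filter_upwards [eventually_ge_atTop T1, hlog.eventually_ge_atTop (a * Real.log a),
    hlog.eventually_ge_atTop (2 * K * a / ε), hlog.eventually_gt_atTop 0] with T h1 h2 h3 h4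
  refine (hm T h1 a ha0 h2).trans ?_
  have e1 : 1 / a ≤ ε / (2 * K) := by
    rw [div_le_div_iff₀ ha0 (by positivity)]
    rw [div_le_iff₀ hε] at ha
    linarith
  have e2 : a / Real.log T ≤ ε / (2 * K) := by
    rw [div_le_div_iff₀ h4 (by positivity)]
    rw [div_le_iff₀ hε] at h3
    linarith
  calc C * (1 / a + a / Real.log T) ≤ K * (1 / a + a / Real.log T) := by
        apply mul_le_mul_of_nonneg_right hCK; positivity
    _ ≤ K * (ε / (2 * K) + ε / (2 * K)) := by gcongr
    _ = ε := by field_simp; ring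

lemma c_le : ∀ ε : ℝ, 0 < ε → ∀ᶠ T in atTop, c T ≤ ε := by
  intro ε hε
  obtain ⟨C, T1, hC, hl⟩ := m_lower
  have hlog : Tendsto Real.log atTop atTop := Real.tendsto_log_atTop
  filter_upwards [eventually_ge_atTop T1, hlog.eventually_ge_atTop (C / ε),
    hlog.eventually_gt_atTop 0] with T h1 h2 h3
  have h4 := hl T h1
  have h5 : C / Real.log T ≤ ε := by
    rw [div_le_iff₀ h3]
    rw [div_le_iff₀ hε] at h2
    linarith
  unfold c
  linarith

/-- Q1 -/
def Q1 : Prop := ∀ α β : ℝ, 0 < α → α < β →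
  Tendsto (fun T : ℝ => (N T α β : ℝ) / (norm T * ∫ u in α..β, F u)) atTop (𝓝 1)

/-- the lower half of Q1 -/
def LowerHalf : Prop := ∀ α β : ℝ, 0 < α → α < β → ∀ ε : ℝ, 0 < ε →
  ∀ᶠ T : ℝ in atTop, 1 - ε ≤ (N T α β : ℝ) / (norm T * ∫ u in α..β, F u)

/-- the upper half of Q1, with the windows `(0, β]` included -/
def UpperHalf : Prop := (∀ α β : ℝ, 0 < α → α < β → ∀ ε : ℝ, 0 < ε →
  ∀ᶠ T : ℝ in atTop, (N T α β : ℝ) / (norm T * ∫ u in α..β, F u) ≤ 1 + ε) ∧
  ∀ β : ℝ, 0 < β → ∀ ε : ℝ, 0 < ε →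
  ∀ᶠ T : ℝ in atTop, (P T β : ℝ) / (norm T * ∫ u in (0 : ℝ)..β, F u) ≤ 1 + ε

/-- almost all zeros are simple and have distinct ordinates -/
def Simple : Prop := Tendsto (fun T : ℝ => (N T 0 0 : ℝ) / norm T) atTop (𝓝 1)

/-- from the discrepancy to Q1 -/
lemma Q1_of (hD : ∀ u : ℝ, 0 ≤ u → Tendsto (fun T => D T u) atTop (𝓝 0)) : Q1 := by
  intro α β hα hαβ
  have hI := G_pos hα.le hαβ
  set I := ∫ u in α..β, F u with hIdef
  have h1 : Tendsto (fun T : ℝ => (N T α β : ℝ) / norm T) atTop (𝓝 I) := by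
    rw [Metric.tendsto_nhds]
    intro ε hε
    set η := min (ε / 4) (α / 2) with hη
    have hη0 : 0 < η := lt_min (by positivity) (by positivity)
    have hη1 : η ≤ ε / 4 := min_le_left _ _
    have hη2 : η ≤ α / 2 := min_le_right _ _
    have t1 := (Metric.tendsto_nhds.mp (hD α hα.le)) (ε / 4) (by positivity)
    have t2 := (Metric.tendsto_nhds.mp (hD β (hα.le.trans hαβ.le))) (ε / 4) (by positivity)
    have t3 := (Metric.tendsto_nhds.mp (hD (α - η) (by linarith))) (ε / 4) (by positivity)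
    filter_upwards [t1, t2, t3, eventually_gt_atTop 1] with T a1 a2 a3 hT
    rw [dist_zero_right, Real.norm_eq_abs, abs_lt] at a1 a2 a3
    have hn := norm_pos hT
    have l1 := P_le_P_add_N hT (u := α) (v := β)
    have u1 := P_add_N_le hT (u := α - η) (α := α) (v := β) (by linarith) (by linarith) hαβ.le
    have e1 := D_sub (T := T) hα.le hαβ.le
    have e2 := D_sub (T := T) (u := α - η) (v := β) (by linarith) (by linarith)
    have e3 : ∫ w in (α - η)..β, F w = (∫ w in (α - η)..α, F w) + I := by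
      have g1 := G_int (u := α - η) (v := β) (by linarith) (by linarith)
      have g2 := G_int (u := α - η) (v := α) (by linarith) (by linarith)
      have g3 := G_int (u := α) (v := β) (by linarith) (by linarith)
      linarith
    have e4 := (G_bd (u := α - η) (v := α) (by linarith) (by linarith)).2
    have l2 : ((P T β : ℝ) - P T α) / norm T ≤ (N T α β : ℝ) / norm T :=
      div_le_div_of_nonneg_right (by linarith) hn.le
    have u2 : (N T α β : ℝ) / norm T ≤ ((P T β : ℝ) - P T (α - η)) / norm T :=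
      div_le_div_of_nonneg_right (by linarith) hn.le
    rw [Real.dist_eq, abs_lt]
    constructor
    · linarith [a1.1, a1.2, a2.1, a2.2]
    · linarith [a3.1, a3.2, a2.1, a2.2]
  have h2 := h1.div_const I
  rw [div_self hI.ne'] at h2
  refine h2.congr fun T => ?_
  rw [div_div]

/-- a lower bound with loss `η` for every window -/
def LowerBy (η : ℝ) : Prop := ∀ α β : ℝ, 0 < α → α < β → ∀ ε : ℝ, 0 < ε →
  ∀ᶠ T : ℝ in atTop, (∫ u in α..β, F u) - η - ε ≤ (N T α β : ℝ) / norm T

/-- **a lower bound with loss `η` controls everything up to `η`** -/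
theorem of_lower_by {η : ℝ} (hη : 0 ≤ η) (h : LowerBy η) :
    (∀ u : ℝ, 0 ≤ u → ∀ ε : ℝ, 0 < ε →
      ∀ᶠ T in atTop, -η - ε ≤ D T u ∧ D T u ≤ η + ε) ∧
    ∀ ε : ℝ, 0 < ε → ∀ᶠ T in atTop, -η - ε ≤ c T := by
  have key := Abs.conclude (D := D) (c := c) hη le_rfl (by
      filter_upwards [eventually_gt_atTop 1] with T hT using D_zero hT) (by
      filter_upwards [eventually_gt_atTop 1] with T hT a ha using D_ii hT ha) D_avg
    (fun ε hε => by
      filter_upwards [c_le ε hε] with T hT
      linarith) (Abs.unif_of hη ?_ (Abs.near_left ?_))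
  · simpa only [zero_add] using key
  · intro α β ε hα hαβ hε
    set δ := min (ε / 2) ((β - α) / 2) with hδ
    have hδ0 : 0 < δ := lt_min (by positivity) (by linarith)
    have hδ1 : δ ≤ ε / 2 := min_le_left _ _
    have hδ2 : δ ≤ (β - α) / 2 := min_le_right _ _
    have hlt : α + δ < β := by linarith
    filter_upwards [h (α + δ) β (by linarith) hlt (ε / 2) (by positivity), eventually_gt_atTop 1]
      with T a1 hT
    have hn := norm_pos hT
    set I := ∫ u in (α + δ)..β, F u with hIdef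
    have u1 := P_add_N_le hT (u := α) (α := α + δ) (v := β) hα (by linarith) hlt.le
    have e1 := D_sub (T := T) hα hαβ.le
    have e3 : ∫ w in α..β, F w = (∫ w in α..(α + δ), F w) + I := by
      have g1 := G_int (u := α) (v := β) hα hαβ.le
      have g2 := G_int (u := α) (v := α + δ) hα (by linarith)
      have g3 := G_int (u := α + δ) (v := β) (by linarith) hlt.le
      linarith
    have e4 := (G_bd (u := α) (v := α + δ) hα (by linarith)).2
    have l2 : (N T (α + δ) β : ℝ) / norm T ≤ ((P T β : ℝ) - P T α) / norm T :=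
      div_le_div_of_nonneg_right (by linarith) hn.le
    linarith
  · filter_upwards [eventually_gt_atTop 1] with T hT u v hu huv using D_lip hT hu huv

/-- the upper bound for the windows -/
lemma upper_by {η : ℝ} (hD : ∀ u : ℝ, 0 ≤ u → ∀ ε : ℝ, 0 < ε →
      ∀ᶠ T in atTop, -η - ε ≤ D T u ∧ D T u ≤ η + ε) (α β : ℝ) (hα : 0 < α) (hαβ : α < β)
    (ε : ℝ) (hε : 0 < ε) :
    ∀ᶠ T : ℝ in atTop, (N T α β : ℝ) / norm T ≤ (∫ u in α..β, F u) + 2 * η + ε := by
  set δ := min (ε / 4) (α / 2) with hδ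
  have hδ0 : 0 < δ := lt_min (by positivity) (by positivity)
  have hδ1 : δ ≤ ε / 4 := min_le_left _ _
  have hδ2 : δ ≤ α / 2 := min_le_right _ _
  filter_upwards [hD β (hα.le.trans hαβ.le) (ε / 4) (by positivity),
    hD (α - δ) (by linarith) (ε / 4) (by positivity), eventually_gt_atTop 1] with T a2 a3 hT
  have hn := norm_pos hT
  have u1 := P_add_N_le hT (u := α - δ) (α := α) (v := β) (by linarith) (by linarith) hαβ.le
  have e2 := D_sub (T := T) (u := α - δ) (v := β) (by linarith) (by linarith)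
  have e3 : ∫ w in (α - δ)..β, F w = (∫ w in (α - δ)..α, F w) + ∫ u in α..β, F u := by
    have g1 := G_int (u := α - δ) (v := β) (by linarith) (by linarith)
    have g2 := G_int (u := α - δ) (v := α) (by linarith) (by linarith)
    have g3 := G_int (u := α) (v := β) (by linarith) (by linarith)
    linarith
  have e4 := (G_bd (u := α - δ) (v := α) (by linarith) (by linarith)).2
  have u2 : (N T α β : ℝ) / norm T ≤ ((P T β : ℝ) - P T (α - δ)) / norm T :=
    div_le_div_of_nonneg_right (by linarith) hn.le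
  linarith [a2.1, a2.2, a3.1, a3.2]

/-- the mean multiplicity -/
lemma m_upper {η : ℝ} (hc : ∀ ε : ℝ, 0 < ε → ∀ᶠ T in atTop, -η - ε ≤ c T) (ε : ℝ) (hε : 0 < ε) :
    ∀ᶠ T : ℝ in atTop, (N T 0 0 : ℝ) / norm T ≤ 1 + 2 * η + ε := by
  filter_upwards [hc (ε / 2) (by positivity)] with T hT
  unfold c at hT
  linarith

/-- the average of the discrepancy up to `B` -/
lemma D_avg_local : ∃ K : ℝ, 0 < K ∧ ∀ B : ℝ, 0 < B → ∀ ε : ℝ, 0 < ε → ∀ᶠ T in atTop,
      |1 / B * (∫ u in (0 : ℝ)..B, D T u) - c T| ≤ K / B + ε := by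
  obtain ⟨-, C, T1, hm⟩ := main
  set K := |C| + 1 with hK
  have hK0 : 0 < K := by positivity
  have hCK : C ≤ K := by linarith [le_abs_self C]
  refine ⟨K, hK0, fun B hB ε hε => ?_⟩
  have hlog : Tendsto Real.log atTop atTop := Real.tendsto_log_atTop
  filter_upwards [eventually_ge_atTop T1, hlog.eventually_ge_atTop (B * Real.log B),
    hlog.eventually_ge_atTop (K * B / ε), hlog.eventually_gt_atTop 0] with T h1 h2 h3 h4
  refine (hm T h1 B hB h2).trans ?_
  have e2 : K * (B / Real.log T) ≤ ε := by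
    rw [← mul_div_assoc, div_le_iff₀ h4]
    rw [div_le_iff₀ hε] at h3
    linarith
  calc C * (1 / B + B / Real.log T) ≤ K * (1 / B + B / Real.log T) := by
        apply mul_le_mul_of_nonneg_right hCK; positivity
    _ = K / B + K * (B / Real.log T) := by ring
    _ ≤ K / B + ε := by linarith

/-- **lower bounds with loss `η` for the windows up to `B` control everything up to
`O(η + 1 / B)`** -/
theorem of_lower_local : ∃ K : ℝ, 0 < K ∧ ∀ B : ℝ, 0 < B → ∀ η : ℝ, 0 ≤ η →
    (∀ α β : ℝ, 0 < α → α < β → β ≤ B → ∀ ε : ℝ, 0 < ε →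
      ∀ᶠ T : ℝ in atTop, (∫ u in α..β, F u) - η - ε ≤ (N T α β : ℝ) / norm T) →
    (∀ α β : ℝ, 0 < α → α < β → β < B → ∀ ε : ℝ, 0 < ε →
      ∀ᶠ T : ℝ in atTop, (N T α β : ℝ) / norm T ≤
        (∫ u in α..β, F u) + η + (η * B + K) / (B - β) + ε) ∧
    (∀ ε : ℝ, 0 < ε → ∀ᶠ T : ℝ in atTop,
      (N T 0 0 : ℝ) / norm T ≤ 1 + 2 * (η + K / B) + ε) := by
  obtain ⟨K, hK, hav⟩ := D_avg_local
  refine ⟨K, hK, fun B hB η hη h => ?_⟩
  have hnear := Abs.near_left (D := D) (by
    filter_upwards [eventually_gt_atTop 1] with T hT u v hu huv using D_lip hT hu huv)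
  have key := Abs.conclude_local (D := D) (c := c) (B := B) (E := K / B) (η := η) hB
    (by positivity) hη (by
      filter_upwards [eventually_gt_atTop 1] with T hT using D_zero hT) (by
      filter_upwards [eventually_gt_atTop 1] with T hT a ha using D_ii hT ha) (hav B hB) c_le
    (fun u0 hu0 huB => by
      refine Abs.unif_at (D := D) (η := η) hη hu0 huB ?_ hnear
      intro β ε hαβ hβB hε
      set δ := min (ε / 2) ((β - u0) / 2) with hδ
      have hδ0 : 0 < δ := lt_min (by positivity) (by linarith)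
      have hδ1 : δ ≤ ε / 2 := min_le_left _ _
      have hδ2 : δ ≤ (β - u0) / 2 := min_le_right _ _
      have hlt : u0 + δ < β := by linarith
      filter_upwards [h (u0 + δ) β (by linarith) hlt hβB (ε / 2) (by positivity),
        eventually_gt_atTop 1] with T a1 hT
      have hn := norm_pos hT
      set I := ∫ u in (u0 + δ)..β, F u with hIdef
      have u1 := P_add_N_le hT (u := u0) (α := u0 + δ) (v := β) hu0 (by linarith) hlt.le
      have e1 := D_sub (T := T) hu0 hαβ.le
      have e3 : ∫ w in u0..β, F w = (∫ w in u0..(u0 + δ), F w) + I := by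
        have g1 := G_int (u := u0) (v := β) hu0 hαβ.le
        have g2 := G_int (u := u0) (v := u0 + δ) hu0 (by linarith)
        have g3 := G_int (u := u0 + δ) (v := β) (by linarith) hlt.le
        linarith
      have e4 := (G_bd (u := u0) (v := u0 + δ) hu0 (by linarith)).2
      have l2 : (N T (u0 + δ) β : ℝ) / norm T ≤ ((P T β : ℝ) - P T u0) / norm T :=
        div_le_div_of_nonneg_right (by linarith) hn.le
      linarith)
  obtain ⟨k1, k2⟩ := key
  constructor
  · intro α β hα hαβ hβB ε hε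
    set δ := min (ε / 4) (α / 2) with hδ
    have hδ0 : 0 < δ := lt_min (by positivity) (by positivity)
    have hδ1 : δ ≤ ε / 4 := min_le_left _ _
    have hδ2 : δ ≤ α / 2 := min_le_right _ _
    have e5 : (η + K / B) * (B / (B - β)) = (η * B + K) / (B - β) := by
      have : B - β ≠ 0 := by linarith
      field_simp
    filter_upwards [k1 β (hα.le.trans hαβ.le) hβB (ε / 4) (by positivity),
      k1 (α - δ) (by linarith) (by linarith) (ε / 4) (by positivity),
      eventually_gt_atTop 1] with T a2 a3 hT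
    rw [e5] at a2
    have hn := norm_pos hT
    have u1 := P_add_N_le hT (u := α - δ) (α := α) (v := β) (by linarith) (by linarith) hαβ.le
    have e2 := D_sub (T := T) (u := α - δ) (v := β) (by linarith) (by linarith)
    have e3 : ∫ w in (α - δ)..β, F w = (∫ w in (α - δ)..α, F w) + ∫ u in α..β, F u := by
      have g1 := G_int (u := α - δ) (v := β) (by linarith) (by linarith)
      have g2 := G_int (u := α - δ) (v := α) (by linarith) (by linarith)
      have g3 := G_int (u := α) (v := β) (by linarith) (by linarith)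
      linarith
    have e4 := (G_bd (u := α - δ) (v := α) (by linarith) (by linarith)).2
    have u2 : (N T α β : ℝ) / norm T ≤ ((P T β : ℝ) - P T (α - δ)) / norm T :=
      div_le_div_of_nonneg_right (by linarith) hn.le
    linarith [a2.1, a2.2, a3.1, a3.2]
  · intro ε hε
    filter_upwards [k2 (ε / 2) (by positivity)] with T hT
    unfold c at hT
    linarith

lemma lowerBy_of (h : LowerHalf) : LowerBy 0 := by
  intro α β hα hαβ ε hε
  have hI := G_pos hα.le hαβ
  set I := ∫ u in α..β, F u with hIdef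
  filter_upwards [h α β hα hαβ (ε / I) (by positivity), eventually_gt_atTop 1] with T a1 hT
  have hn := norm_pos hT
  rw [← hIdef, le_div_iff₀ (by positivity)] at a1
  rw [le_div_iff₀ hn]
  have : (1 - ε / I) * (norm T * I) = (I - 0 - ε) * norm T := by
    field_simp
    ring
  linarith

/-- **the lower half implies everything** -/
theorem of_lower (h : LowerHalf) :
    (∀ u : ℝ, 0 ≤ u → Tendsto (fun T => D T u) atTop (𝓝 0)) ∧ Tendsto c atTop (𝓝 0) := by
  obtain ⟨k1, k2⟩ := of_lower_by le_rfl (lowerBy_of h)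
  constructor
  · intro u hu
    rw [Metric.tendsto_nhds]
    intro ε hε
    filter_upwards [k1 u hu (ε / 2) (by positivity)] with T hT
    rw [dist_zero_right, Real.norm_eq_abs, abs_lt]
    constructor <;> linarith [hT.1, hT.2]
  · rw [Metric.tendsto_nhds]
    intro ε hε
    filter_upwards [k2 (ε / 2) (by positivity), c_le (ε / 2) (by positivity)] with T h1 h2
    rw [dist_zero_right, Real.norm_eq_abs, abs_lt]
    constructor <;> linarith

/-- **the upper half and simplicity imply everything** -/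
theorem of_upper (h : UpperHalf) (hs : Simple) :
    ∀ u : ℝ, 0 ≤ u → Tendsto (fun T => D T u) atTop (𝓝 0) := by
  have key := Abs.conclude0 (D := fun T u => -D T u) (c := fun T => -c T) ?_ ?_ ?_ ?_
    (Abs.unif_of (D := fun T u => -D T u) le_rfl ?_ (Abs.near_right (D := fun T u => -D T u) ?_))
  · intro u hu
    have := (key.1 u hu).neg
    simpa using this
  · filter_upwards [eventually_gt_atTop 1] with T hT
    rw [D_zero hT, neg_zero]
  · filter_upwards [eventually_gt_atTop 1] with T hT a ha using (D_ii hT ha).neg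
  · intro ε hε
    obtain ⟨a0, ha0, hav⟩ := D_avg ε hε
    refine ⟨a0, ha0, fun a ha => ?_⟩
    filter_upwards [hav a ha] with T hT
    rw [intervalIntegral.integral_neg]
    have e : 1 / a * -(∫ u in (0 : ℝ)..a, D T u) - -c T =
        -(1 / a * (∫ u in (0 : ℝ)..a, D T u) - c T) := by ring
    rw [e, abs_neg]
    exact hT
  · intro ε hε
    have h1 := (Metric.tendsto_nhds.mp hs) ε hε
    filter_upwards [h1] with T hT
    rw [Real.dist_eq, abs_lt] at hT
    unfold c
    linarith [hT.2]
  · intro α β ε hα hαβ hε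
    have hI := G_pos hα hαβ
    set I := ∫ u in α..β, F u with hIdef
    have hq : 0 < ε / I := by positivity
    have e1 := fun T => D_sub (T := T) hα hαβ.le
    have fin : ∀ T : ℝ, 1 < T → ∀ X : ℝ, (P T β : ℝ) - P T α ≤ X →
        X / (norm T * I) ≤ 1 + ε / I → -D T α - 0 - ε ≤ -D T β := by
      intro T hT X h1 h2
      have hn := norm_pos hT
      rw [div_le_iff₀ (by positivity)] at h2
      have h3 : ((P T β : ℝ) - P T α) / norm T ≤ I + ε := by
        rw [div_le_iff₀ hn]
        have : (1 + ε / I) * (norm T * I) = (I + ε) * norm T := by field_simp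
        linarith
      have := e1 T
      linarith
    rcases hα.eq_or_lt with h0 | h0
    · filter_upwards [h.2 β (by linarith) (ε / I) hq, eventually_gt_atTop 1] with T a1 hT
      refine fin T hT (P T β) ?_ ?_
      · rw [← h0, P_zero hT, sub_zero]
      · rw [hIdef, ← h0]
        rw [hIdef, ← h0] at a1
        exact a1
    · filter_upwards [h.1 α β h0 hαβ (ε / I) hq, eventually_gt_atTop 1] with T a1 hT
      refine fin T hT (N T α β) ?_ a1
      have := P_le_P_add_N hT (u := α) (v := β)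
      linarith
  · filter_upwards [eventually_gt_atTop 1] with T hT u v hu huv
    have := D_lip hT hu huv
    linarith

lemma simple_of (h : Tendsto c atTop (𝓝 0)) : Simple := by
  have h1 := (tendsto_const_nhds (x := (1 : ℝ))).sub (h.const_mul 2)
  rw [mul_zero, sub_zero] at h1
  refine h1.congr fun T => ?_
  unfold c
  ring

lemma lower_of (h : Q1) : LowerHalf := by
  intro α β hα hαβ ε hε
  filter_upwards [(Metric.tendsto_nhds.mp (h α β hα hαβ)) ε hε] with T hT
  rw [Real.dist_eq, abs_lt] at hT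
  linarith [hT.1]

/-- the counts from zero -/
lemma P_lim (hD : ∀ u : ℝ, 0 ≤ u → Tendsto (fun T => D T u) atTop (𝓝 0)) (β : ℝ) (hβ : 0 < β) :
    Tendsto (fun T : ℝ => (P T β : ℝ) / (norm T * ∫ u in (0 : ℝ)..β, F u)) atTop (𝓝 1) := by
  have hI := G_pos le_rfl hβ
  set I := ∫ u in (0 : ℝ)..β, F u with hIdef
  have h1 : Tendsto (fun T => D T β + I) atTop (𝓝 (0 + I)) := (hD β hβ.le).add_const I
  have h2 := h1.div_const I
  rw [zero_add, div_self hI.ne'] at h2
  refine h2.congr fun T => ?_
  unfold D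
  rw [← hIdef, sub_add_cancel, div_div]

/-- **Q1 is equivalent to its lower half** -/
theorem iff_lower : Q1 ↔ LowerHalf := ⟨lower_of, fun h => Q1_of (of_lower h).1⟩

/-- **Q1 is equivalent to the upper half together with simplicity** -/
theorem iff_upper : Q1 ↔ UpperHalf ∧ Simple := by
  constructor
  · intro h
    have h1 := of_lower (lower_of h)
    refine ⟨⟨?_, ?_⟩, simple_of h1.2⟩
    · intro α β hα hαβ ε hε
      filter_upwards [(Metric.tendsto_nhds.mp (h α β hα hαβ)) ε hε] with T hT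
      rw [Real.dist_eq, abs_lt] at hT
      linarith [hT.2]
    · intro β hβ ε hε
      filter_upwards [(Metric.tendsto_nhds.mp (P_lim h1.1 β hβ)) ε hε] with T hT
      rw [Real.dist_eq, abs_lt] at hT
      linarith [hT.2]
  · rintro ⟨h1, h2⟩
    exact Q1_of (of_upper h1 h2)

end Helper859_PC.Fin
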