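import Mathlib

/-! # Weighted points on the line: windows and the triangular kernel -/

set_option autoImplicit false

open MeasureTheory Set

namespace Helper859_PC

variable {ι : Type*}

/-- the weighted number of points in `(t, t + x]` -/
noncomputable def g (Z : Finset ι) (m γ : ι → ℝ) (x t : ℝ) : ℝ :=
  ∑ i ∈ Z, m i * (Ico (γ i - x) (γ i)).indicator (fun _ => (1 : ℝ)) t

/-- the triangular kernel summed over the pairs -/
noncomputable def KT (Z : Finset ι) (m γ : ι → ℝ) (x : ℝ) : ℝ :=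
  ∑ i ∈ Z, ∑ j ∈ Z, m i * m j * max 0 (x - |γ i - γ j|)

lemma ind_int (a b : ℝ) : Integrable ((Ico a b).indicator (fun _ => (1 : ℝ))) := by
  rw [integrable_indicator_iff measurableSet_Ico]
  exact integrableOn_const (by rw [Real.volume_Ico]; exact ENNReal.ofReal_ne_top)

lemma ind_val (a b : ℝ) : ∫ t, (Ico a b).indicator (fun _ => (1 : ℝ)) t = max 0 (b - a) := by
  rw [integral_indicator measurableSet_Ico, setIntegral_const, smul_eq_mul, mul_one, Measure.real,
    Real.volume_Ico]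
  rcases le_total 0 (b - a) with h | h
  · rw [ENNReal.toReal_ofReal h, max_eq_right h]
  · rw [ENNReal.ofReal_of_nonpos h, max_eq_left h]; rfl

lemma ind_mul (a b c d t : ℝ) : (Ico a b).indicator (fun _ => (1 : ℝ)) t *
    (Ico c d).indicator (fun _ => (1 : ℝ)) t =
    (Ico (max a c) (min b d)).indicator (fun _ => (1 : ℝ)) t := by
  rw [← Set.Ico_inter_Ico]
  simp only [Set.indicator_apply, Set.mem_inter_iff]
  by_cases h1 : t ∈ Ico a b <;> by_cases h2 : t ∈ Ico c d <;> simp [h1, h2]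

lemma overlap (x u v : ℝ) : min u v - max (u - x) (v - x) = x - |u - v| := by
  rcases le_total u v with h | h
  · rw [min_eq_left h, max_eq_right (by linarith), abs_of_nonpos (by linarith)]; ring
  · rw [min_eq_right h, max_eq_left (by linarith), abs_of_nonneg (by linarith)]; ring

lemma g_int (Z : Finset ι) (m γ : ι → ℝ) (x : ℝ) : Integrable (g Z m γ x) := by
  unfold g
  exact integrable_finsetSum _ fun i _ => (ind_int _ _).const_mul _

lemma g_integral (Z : Finset ι) (m γ : ι → ℝ) {x : ℝ} (hx : 0 ≤ x) :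
    ∫ t, g Z m γ x t = x * ∑ i ∈ Z, m i := by
  unfold g
  rw [integral_finsetSum _ fun i _ => (ind_int _ _).const_mul _, Finset.mul_sum]
  refine Finset.sum_congr rfl fun i _ => ?_
  rw [integral_const_mul, ind_val, sub_sub_cancel, max_eq_right hx]
  ring

lemma g_sq (Z : Finset ι) (m γ : ι → ℝ) (x t : ℝ) : g Z m γ x t ^ 2 =
    ∑ i ∈ Z, ∑ j ∈ Z, m i * m j *
      (Ico (max (γ i - x) (γ j - x)) (min (γ i) (γ j))).indicator (fun _ => (1 : ℝ)) t := by
  unfold g
  rw [sq, Finset.sum_mul_sum]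
  refine Finset.sum_congr rfl fun i _ => Finset.sum_congr rfl fun j _ => ?_
  rw [← ind_mul]
  ring

lemma g_sq_int (Z : Finset ι) (m γ : ι → ℝ) (x : ℝ) : Integrable (fun t => g Z m γ x t ^ 2) := by
  simp only [g_sq]
  exact integrable_finsetSum _ fun i _ => integrable_finsetSum _ fun j _ =>
    (ind_int _ _).const_mul _

lemma g_sq_integral (Z : Finset ι) (m γ : ι → ℝ) (x : ℝ) :
    ∫ t, g Z m γ x t ^ 2 = KT Z m γ x := by
  simp only [g_sq]
  rw [integral_finsetSum _ fun i _ => integrable_finsetSum _ fun j _ =>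
    (ind_int _ _).const_mul _]
  unfold KT
  refine Finset.sum_congr rfl fun i _ => ?_
  rw [integral_finsetSum _ fun j _ => (ind_int _ _).const_mul _]
  refine Finset.sum_congr rfl fun j _ => ?_
  rw [integral_const_mul, ind_val, overlap]

lemma g_nonneg {Z : Finset ι} {m : ι → ℝ} (hm : ∀ i ∈ Z, 0 ≤ m i) (γ : ι → ℝ) (x t : ℝ) :
    0 ≤ g Z m γ x t :=
  Finset.sum_nonneg fun i hi => mul_nonneg (hm i hi) (indicator_nonneg (fun _ _ => zero_le_one) _)

lemma g_zero {Z : Finset ι} {m γ : ι → ℝ} {T x t : ℝ} (hγ : ∀ i ∈ Z, 0 < γ i ∧ γ i ≤ T)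
    (ht : t ∉ Ioo (-x) T) : g Z m γ x t = 0 := by
  unfold g
  refine Finset.sum_eq_zero fun i hi => ?_
  rw [indicator_of_notMem, mul_zero]
  intro h
  obtain ⟨h1, h2⟩ := hγ i hi
  exact ht ⟨by linarith [h.1], h.2.trans_le h2⟩

/-- the integral of the squared deviation -/
theorem dev_integral {Z : Finset ι} {m γ : ι → ℝ} {T x : ℝ} (hx : 0 ≤ x) (hT : 0 ≤ T)
    (hγ : ∀ i ∈ Z, 0 < γ i ∧ γ i ≤ T) (a : ℝ) :
    ∫ t in (-x)..T, (g Z m γ x t - a) ^ 2 =
      KT Z m γ x - 2 * a * (x * ∑ i ∈ Z, m i) + a ^ 2 * (T + x) := by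
  have h1 : ∫ t in (-x)..T, g Z m γ x t ^ 2 = KT Z m γ x := by
    rw [intervalIntegral.integral_of_le (by linarith), ← g_sq_integral]
    apply setIntegral_eq_integral_of_forall_compl_eq_zero
    intro t ht
    rw [g_zero (T := T) hγ, zero_pow (by norm_num)]
    exact fun h => ht ⟨h.1, h.2.le⟩
  have h2 : ∫ t in (-x)..T, g Z m γ x t = x * ∑ i ∈ Z, m i := by
    rw [intervalIntegral.integral_of_le (by linarith), ← g_integral Z m γ hx]
    apply setIntegral_eq_integral_of_forall_compl_eq_zero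
    intro t ht
    rw [g_zero (T := T) hγ]
    exact fun h => ht ⟨h.1, h.2.le⟩
  have i1 : IntervalIntegrable (fun t => g Z m γ x t ^ 2) volume (-x) T :=
    (g_sq_int Z m γ x).intervalIntegrable
  have i2 : IntervalIntegrable (g Z m γ x) volume (-x) T := (g_int Z m γ x).intervalIntegrable
  have e : (fun t => (g Z m γ x t - a) ^ 2) =
      fun t => g Z m γ x t ^ 2 - 2 * a * g Z m γ x t + a ^ 2 := by
    funext t; ring
  rw [e, intervalIntegral.integral_add (i1.sub (i2.const_mul _)) intervalIntegrable_const,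
    intervalIntegral.integral_sub i1 (i2.const_mul _), intervalIntegral.integral_const_mul,
    intervalIntegral.integral_const, h1, h2, smul_eq_mul]
  ring

lemma dev_ii (Z : Finset ι) (m γ : ι → ℝ) (x a u v : ℝ) :
    IntervalIntegrable (fun t => (g Z m γ x t - a) ^ 2) volume u v := by
  have i1 : IntervalIntegrable (fun t => g Z m γ x t ^ 2) volume u v :=
    (g_sq_int Z m γ x).intervalIntegrable
  have i2 : IntervalIntegrable (g Z m γ x) volume u v := (g_int Z m γ x).intervalIntegrable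
  have e : (fun t => (g Z m γ x t - a) ^ 2) =
      fun t => g Z m γ x t ^ 2 - 2 * a * g Z m γ x t + a ^ 2 := by
    funext t; ring
  rw [e]
  exact (i1.sub (i2.const_mul _)).add intervalIntegrable_const

/-- comparison with a function `f` which agrees with the number of points in the bulk -/
theorem compare {Z : Finset ι} {m γ : ι → ℝ} {F : ℝ → ℝ} {T x a M V : ℝ} (hx : 0 ≤ x)
    (hxT : x ≤ T) (hm : ∀ i ∈ Z, 0 ≤ m i) (hγ : ∀ i ∈ Z, 0 < γ i ∧ γ i ≤ T) (ha : 0 ≤ a)
    (hF0 : ∀ t ∈ Icc 0 (T - x), g Z m γ x t = F t)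
    (hg : ∀ t ∈ Icc (-x) T, g Z m γ x t ≤ M) (hF : ∀ t ∈ Icc 0 T, 0 ≤ F t ∧ F t ≤ M)
    (haM : a ≤ M)
    (hFi : IntervalIntegrable (fun t => (F t - a) ^ 2) volume 0 T)
    (hV : ∫ t in (0 : ℝ)..T, (F t - a) ^ 2 = V) :
    |KT Z m γ x - 2 * a * (x * ∑ i ∈ Z, m i) + a ^ 2 * T - V| ≤ 3 * (x * M ^ 2) := by
  have hM : 0 ≤ M := ha.trans haM
  have hT : 0 ≤ T := hx.trans hxT
  have key := dev_integral (m := m) hx hT hγ a
  have s1 := intervalIntegral.integral_add_adjacent_intervals (dev_ii Z m γ x a (-x) 0)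
    (dev_ii Z m γ x a 0 T)
  have s2 := intervalIntegral.integral_add_adjacent_intervals (dev_ii Z m γ x a 0 (T - x))
    (dev_ii Z m γ x a (T - x) T)
  have hFi1 : IntervalIntegrable (fun t => (F t - a) ^ 2) volume 0 (T - x) :=
    hFi.mono_set (by rw [uIcc_of_le (by linarith), uIcc_of_le hT]; exact Icc_subset_Icc le_rfl (by linarith))
  have hFi2 : IntervalIntegrable (fun t => (F t - a) ^ 2) volume (T - x) T :=
    hFi.mono_set (by rw [uIcc_of_le (by linarith), uIcc_of_le hT]; exact Icc_subset_Icc (by linarith) le_rfl)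
  have s3 := intervalIntegral.integral_add_adjacent_intervals hFi1 hFi2
  have e1 : ∫ t in (0 : ℝ)..(T - x), (g Z m γ x t - a) ^ 2 =
      ∫ t in (0 : ℝ)..(T - x), (F t - a) ^ 2 := by
    refine intervalIntegral.integral_congr fun t ht => ?_
    rw [uIcc_of_le (by linarith)] at ht
    show (g Z m γ x t - a) ^ 2 = (F t - a) ^ 2
    rw [hF0 t ht]
  have bd : ∀ (H : ℝ → ℝ) (u v : ℝ), v - u = x →
      IntervalIntegrable (fun t => (H t - a) ^ 2) volume u v →
      (∀ t ∈ Icc u v, 0 ≤ H t ∧ H t ≤ M) →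
      0 ≤ ∫ t in u..v, (H t - a) ^ 2 ∧ ∫ t in u..v, (H t - a) ^ 2 ≤ x * M ^ 2 := by
    intro H u v huv hi hH
    have huv' : u ≤ v := by linarith
    refine ⟨intervalIntegral.integral_nonneg huv' fun t _ => sq_nonneg _, ?_⟩
    have := intervalIntegral.integral_mono_on huv' hi (intervalIntegrable_const (c := M ^ 2))
      (fun t ht => ?_)
    · rw [intervalIntegral.integral_const, smul_eq_mul, huv] at this
      exact this
    · obtain ⟨h1, h2⟩ := hH t ht
      rw [← sq_abs]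
      apply pow_le_pow_left₀ (abs_nonneg _)
      rw [abs_le]
      constructor <;> linarith
  obtain ⟨p1, p2⟩ := bd (g Z m γ x) (-x) 0 (by ring) (dev_ii _ _ _ _ _ _ _)
    (fun t ht => ⟨g_nonneg hm _ _ _, hg t ⟨ht.1, ht.2.trans hT⟩⟩)
  obtain ⟨q1, q2⟩ := bd (g Z m γ x) (T - x) T (by ring) (dev_ii _ _ _ _ _ _ _)
    (fun t ht => ⟨g_nonneg hm _ _ _, hg t ⟨by linarith [ht.1], ht.2⟩⟩)
  obtain ⟨r1, r2⟩ := bd F (T - x) T (by ring) hFi2
    (fun t ht => hF t ⟨by linarith [ht.1], ht.2⟩)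
  have ha2 : 0 ≤ a ^ 2 * x ∧ a ^ 2 * x ≤ x * M ^ 2 := by
    refine ⟨by positivity, ?_⟩
    rw [mul_comm]
    exact mul_le_mul_of_nonneg_left (pow_le_pow_left₀ ha haM 2) hx
  have hKV : KT Z m γ x - 2 * a * (x * ∑ i ∈ Z, m i) + a ^ 2 * T - V =
      (∫ t in (-x)..(0 : ℝ), (g Z m γ x t - a) ^ 2) +
      (∫ t in (T - x)..T, (g Z m γ x t - a) ^ 2) -
      (∫ t in (T - x)..T, (F t - a) ^ 2) - a ^ 2 * x := by
    rw [← hV, ← s3, ← e1]
    linarith
  rw [hKV, abs_le]
  constructor <;> linarith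

end Helper859_PC
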