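import Pool.Agent.Helper859_PC.Half

/-! # Simple zeros on the critical line -/

set_option autoImplicit false

open Filter Topology Complex MeasureTheory Set

namespace Helper859_PC.Fin

open Helper859_PC (KT SP SPo NP mr sn g)

/-- the number of simple zeros on the critical line with ordinate in `(0, T]` -/
noncomputable def N1 (T : ℝ) : ℕ := {s : ℂ | s ∈ zeros T ∧ s.re = 1 / 2 ∧ mult s = 1}.ncard

lemma one_le_mr {T : ℝ} {s : ℂ} (hs : s ∈ SG.ZS T) : 1 ≤ mr s := by
  have := SG.zmult_pos hs.2.2.2.1 hs.1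
  show (1 : ℝ) ≤ (SG.zmult s : ℝ)
  exact_mod_cast this

lemma N1_bounds {T : ℝ} (hT : 1 < T) :
    2 * (SG.NZ T : ℝ) - N T 0 0 - 2 * SG.NZ 1 ≤ N1 T ∧ (N1 T : ℝ) ≤ SG.NZ T := by
  classical
  set Z := (SG.ZS_finite T).toFinset with hZ
  have hmem : ∀ s, s ∈ Z ↔ s ∈ SG.ZS T := fun s => by rw [hZ, Set.Finite.mem_toFinset]
  have hN1 : (N1 T : ℝ) = ∑ s ∈ Z, mr s * (if s.re = 1 / 2 ∧ mult s = 1 then 1 else 0) := by
    unfold N1
    have e : {s : ℂ | s ∈ zeros T ∧ s.re = 1 / 2 ∧ mult s = 1} =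
        (Z.filter fun s => s.re = 1 / 2 ∧ mult s = 1 : Finset ℂ) := by
      ext s
      rw [Finset.mem_coe, Finset.mem_filter, hmem]
      rfl
    rw [e, Set.ncard_coe_finset, Finset.card_filter]
    push_cast
    refine Finset.sum_congr rfl fun s _ => ?_
    by_cases h : s.re = 1 / 2 ∧ mult s = 1
    · rw [if_pos h, mul_one]
      show (1 : ℝ) = (mult s : ℝ)
      rw [h.2, Nat.cast_one]
    · rw [if_neg h, mul_zero]
  have hNZ : (SG.NZ T : ℝ) = ∑ s ∈ Z, mr s := by
    rw [SG.NZ_eq]; push_cast; rfl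
  have hNZ1 : (SG.NZ 1 : ℝ) = ∑ s ∈ Z, mr s * (if s.im ≤ 1 then 1 else 0) :=
    Helper859_PC.NZ_ite hT.le
  constructor
  · rw [N_sum hT, hN1, hNZ, hNZ1, sub_sub, sub_le_iff_le_add, Finset.mul_sum, Finset.mul_sum,
      ← Finset.sum_add_distrib, ← Finset.sum_add_distrib]
    refine Finset.sum_le_sum fun s hs => ?_
    have hsZ := (hmem s).mp hs
    have m1 := one_le_mr hsZ
    have m0 : 0 ≤ mr s := by linarith
    set h := 2 * Real.pi / Real.log T
    have tn : ∀ s' ∈ Z, 0 ≤ mr s * mr s' * (if 0 * h ≤ s.im - s'.im ∧ s.im - s'.im ≤ 0 * h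
        then (1 : ℝ) else 0) := by
      intro s' _
      apply mul_nonneg (mul_nonneg m0 (Helper859_PC.mr_nonneg s'))
      split_ifs <;> norm_num
    have tv : ∀ s' : ℂ, s'.im = s.im → mr s * mr s' * (if 0 * h ≤ s.im - s'.im ∧
        s.im - s'.im ≤ 0 * h then (1 : ℝ) else 0) = mr s * mr s' := by
      intro s' hs'
      rw [hs', sub_self, zero_mul, if_pos ⟨le_rfl, le_rfl⟩, mul_one]
    have key : ∀ x : ℝ, (x ≤ mr s * mr s) → x ≤ ∑ s' ∈ Z, mr s * mr s' *
        (if 0 * h ≤ s.im - s'.im ∧ s.im - s'.im ≤ 0 * h then (1 : ℝ) else 0) := by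
      intro x hx
      refine hx.trans ?_
      rw [← tv s rfl]
      exact Finset.single_le_sum (f := fun s' => mr s * mr s' *
        (if 0 * h ≤ s.im - s'.im ∧ s.im - s'.im ≤ 0 * h then (1 : ℝ) else 0)) tn hs
    by_cases h1 : s.im ≤ 1
    · rw [if_pos h1]
      have k0 := key 0 (by positivity)
      have k1 : 0 ≤ mr s * (if s.re = 1 / 2 ∧ mult s = 1 then (1 : ℝ) else 0) := by
        apply mul_nonneg m0
        split_ifs <;> norm_num
      linarith
    · rw [if_neg h1]
      by_cases h2 : s.re = 1 / 2 ∧ mult s = 1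
      · rw [if_pos h2]
        have k0 := key (mr s) (by nlinarith)
        linarith
      · rw [if_neg h2]
        by_cases h3 : 2 ≤ mult s
        · have h4 : 2 ≤ mr s := by
            show (2 : ℝ) ≤ (mult s : ℝ)
            exact_mod_cast h3
          have k0 := key (2 * mr s) (by nlinarith)
          linarith
        · have h4 : mult s = 1 := by
            have h5 : 1 ≤ mult s := SG.zmult_pos hsZ.2.2.2.1 hsZ.1
            omega
          have h5 : s.re ≠ 1 / 2 := fun h6 => h2 ⟨h6, h4⟩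
          set s' : ℂ := 1 - (starRingEnd ℂ) s with hs'
          have im' : s'.im = s.im := by simp [hs']
          have re' : s'.re = 1 - s.re := by simp [hs']
          have z' : s' ∈ SG.ZS T := by
            refine ⟨SG.zero_reflect hsZ.1 hsZ.2.1 hsZ.2.2.1 (not_le.mp h1).le, ?_, ?_, ?_, ?_⟩
            · rw [re']; linarith [hsZ.2.2.1]
            · rw [re']; linarith [hsZ.2.1]
            · rw [im']; exact hsZ.2.2.2.1
            · rw [im']; exact hsZ.2.2.2.2
          have hne : s ≠ s' := by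
            intro h6
            apply h5
            have : s.re = 1 - s.re := by rw [← re', ← h6]
            linarith
          have m1' := one_le_mr z'
          have hsub : ({s, s'} : Finset ℂ) ⊆ Z := by
            intro x hx
            rw [Finset.mem_insert, Finset.mem_singleton] at hx
            rcases hx with rfl | rfl
            · exact hs
            · exact (hmem _).mpr z'
          have h7 := Finset.sum_le_sum_of_subset_of_nonneg (f := fun s' => mr s * mr s' *
            (if 0 * h ≤ s.im - s'.im ∧ s.im - s'.im ≤ 0 * h then (1 : ℝ) else 0)) hsub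
            (fun i hi _ => tn i hi)
          rw [Finset.sum_pair hne, tv s rfl, tv s' im'] at h7
          nlinarith
  · rw [hN1, hNZ]
    refine Finset.sum_le_sum fun s _ => ?_
    have := Helper859_PC.mr_nonneg s
    split_ifs <;> linarith

lemma norm_top : Tendsto norm atTop atTop := by
  unfold norm
  have h1 : Tendsto (fun T : ℝ => T / (2 * Real.pi)) atTop atTop :=
    tendsto_id.atTop_div_const (by have := Real.pi_pos; positivity)
  exact h1.atTop_mul_atTop₀ Real.tendsto_log_atTop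

lemma NZ_lim : Tendsto (fun T : ℝ => (SG.NZ T : ℝ) / norm T) atTop (𝓝 1) := by
  obtain ⟨C, T1, hC, hT1, hker⟩ := Helper859_PC.kernel
  have hpi := Real.pi_gt_three
  have hlog : Tendsto Real.log atTop atTop := Real.tendsto_log_atTop
  have h0 : Tendsto (fun T : ℝ => C / Real.log T) atTop (𝓝 0) := hlog.const_div_atTop C
  have h1 : Tendsto (fun T : ℝ => 1 - C / Real.log T) atTop (𝓝 1) := by
    simpa using h0.const_sub 1
  have h2 : Tendsto (fun T : ℝ => 1 + C / Real.log T) atTop (𝓝 1) := by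
    simpa using h0.const_add 1
  have hb : ∀ᶠ T : ℝ in atTop, 1 - C / Real.log T ≤ (SG.NZ T : ℝ) / norm T ∧
      (SG.NZ T : ℝ) / norm T ≤ 1 + C / Real.log T := by
    filter_upwards [eventually_ge_atTop T1, hlog.eventually_gt_atTop 0,
      eventually_gt_atTop 1] with T a1 a2 a3
    obtain ⟨θ, hθ, hNZ, -⟩ := hker T a1
    have e : (SG.NZ T : ℝ) / norm T = (2 * Real.pi / Real.log T * SG.NZ T) / T := by
      unfold norm; field_simp
    have e2 : (SG.NZ T : ℝ) / norm T = 1 + θ / Real.log T := by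
      rw [e, hNZ]; field_simp
    rw [e2]
    obtain ⟨b1, b2⟩ := abs_le.mp hθ
    have c1 : θ / Real.log T ≤ C / Real.log T := div_le_div_of_nonneg_right b2 a2.le
    have c2 : -C / Real.log T ≤ θ / Real.log T := div_le_div_of_nonneg_right b1 a2.le
    rw [neg_div] at c2
    constructor <;> linarith
  exact tendsto_of_tendsto_of_tendsto_of_le_of_le' h1 h2 (hb.mono fun _ h => h.1)
    (hb.mono fun _ h => h.2)

/-- almost all zeros are simple and on the critical line -/
theorem N1_lim (h : Simple) : Tendsto (fun T : ℝ => (N1 T : ℝ) / norm T) atTop (𝓝 1) := by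
  have h0 : Tendsto (fun T : ℝ => (2 * SG.NZ 1 : ℝ) / norm T) atTop (𝓝 0) :=
    norm_top.const_div_atTop _
  have h1 : Tendsto (fun T : ℝ => 2 * ((SG.NZ T : ℝ) / norm T) - (N T 0 0 : ℝ) / norm T -
      (2 * SG.NZ 1 : ℝ) / norm T) atTop (𝓝 1) := by
    have := ((NZ_lim.const_mul 2).sub h).sub h0
    norm_num at this
    exact this
  have hb : ∀ᶠ T : ℝ in atTop, 2 * ((SG.NZ T : ℝ) / norm T) - (N T 0 0 : ℝ) / norm T -
      (2 * SG.NZ 1 : ℝ) / norm T ≤ (N1 T : ℝ) / norm T ∧
      (N1 T : ℝ) / norm T ≤ (SG.NZ T : ℝ) / norm T := by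
    filter_upwards [eventually_gt_atTop 1] with T hT
    have hn := norm_pos hT
    obtain ⟨b1, b2⟩ := N1_bounds hT
    refine ⟨?_, div_le_div_of_nonneg_right b2 hn.le⟩
    have e : 2 * ((SG.NZ T : ℝ) / norm T) - (N T 0 0 : ℝ) / norm T -
      (2 * SG.NZ 1 : ℝ) / norm T = (2 * (SG.NZ T : ℝ) - N T 0 0 - 2 * SG.NZ 1) / norm T := by
      field_simp
    rw [e]
    exact div_le_div_of_nonneg_right b1 hn.le
  exact tendsto_of_tendsto_of_tendsto_of_le_of_le' h1 NZ_lim (hb.mono fun _ h => h.1)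
    (hb.mono fun _ h => h.2)

/-- the number of simple critical zeros from the mean multiplicity -/
lemma N1_lower {η : ℝ} (hm : ∀ ε : ℝ, 0 < ε → ∀ᶠ T : ℝ in atTop,
      (N T 0 0 : ℝ) / norm T ≤ 1 + 2 * η + ε) (ε : ℝ) (hε : 0 < ε) :
    ∀ᶠ T : ℝ in atTop, 1 - 2 * η - ε ≤ (N1 T : ℝ) / norm T := by
  have h0 : Tendsto (fun T : ℝ => (2 * SG.NZ 1 : ℝ) / norm T) atTop (𝓝 0) :=
    norm_top.const_div_atTop _
  filter_upwards [hm (ε / 4) (by positivity), eventually_gt_atTop 1,
    (Metric.tendsto_nhds.mp h0) (ε / 4) (by positivity),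
    (Metric.tendsto_nhds.mp NZ_lim) (ε / 8) (by positivity)] with T h1 hT h2 h3
  rw [dist_zero_right, Real.norm_eq_abs, abs_lt] at h2
  rw [Real.dist_eq, abs_lt] at h3
  have hn := norm_pos hT
  obtain ⟨b1, -⟩ := N1_bounds hT
  have e : 2 * ((SG.NZ T : ℝ) / norm T) - (N T 0 0 : ℝ) / norm T -
    (2 * SG.NZ 1 : ℝ) / norm T = (2 * (SG.NZ T : ℝ) - N T 0 0 - 2 * SG.NZ 1) / norm T := by
    field_simp
  have h4 : (2 * (SG.NZ T : ℝ) - N T 0 0 - 2 * SG.NZ 1) / norm T ≤ (N1 T : ℝ) / norm T :=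
    div_le_div_of_nonneg_right b1 hn.le
  rw [← e] at h4
  linarith [h2.1, h2.2, h3.1, h3.2]

end Helper859_PC.Fin
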