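import Pool.Agent.Helper859_PC.Zer

/-! # Number variance on `[0, T]` and the triangular kernel -/

set_option autoImplicit false

open MeasureTheory Set Filter Topology

namespace Helper859_PC

open SG (NZ ZS ZS_finite zmult)

/-- the number variance on `[0, T]` -/
theorem nv_all : ∃ C T0 : ℝ, 0 < C ∧ 3 ≤ T0 ∧ ∀ T : ℝ, T0 ≤ T → ∀ a : ℝ, 0 < a →
    a * Real.log a ≤ 4 * Real.log T →
    |(∫ t in (0 : ℝ)..T, ((NZ (t + 2 * Real.pi * a / Real.log T) : ℝ) - NZ t - a) ^ 2) -
      T / Real.pi ^ 2 * Real.log (1 + a)| ≤ C * T := by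
  obtain ⟨C, T1, hC, hT1, hn⟩ := Pool.Agent.TH850.UV.nv2 4 (by norm_num)
  obtain ⟨M, hM, hcr⟩ := crude
  obtain ⟨T3, hT3⟩ := ev_log (2 * ((M + 4) ^ 2 + 4))
  refine ⟨6 * 128 + (2 * C + 2) + 1, max (T1 ^ 2) (max T3 100), by positivity,
    by linarith [le_max_right (T1 ^ 2) (max T3 100), le_max_right T3 100], fun T hT a ha haL => ?_⟩
  have a1 : T1 ^ 2 ≤ T := (le_max_left _ _).trans hT
  have a3 : T3 ≤ T := (le_max_left _ _).trans ((le_max_right _ _).trans hT)
  have a4 : 100 ≤ T := (le_max_right _ _).trans ((le_max_right _ _).trans hT)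
  have hT0 : 0 < T := by linarith
  have b1 : T1 ≤ √T := Real.le_sqrt_of_sq_le a1
  obtain ⟨J, hJ1, hJ2⟩ := exists_J (show 1 ≤ T by linarith)
  have hpi := Real.pi_gt_three
  have hpi4 := Real.pi_lt_d2
  have hsq : √T * √T = T := Real.mul_self_sqrt hT0.le
  set L := Real.log T with hL
  have hL1 : 1 ≤ L := by
    rw [hL, Real.le_log_iff_exp_le hT0]
    exact (Real.exp_one_lt_d9.le).trans (by linarith)
  have haL' : a ≤ 4 * L := small_le ha hL1 haL
  have hlam := lam_sq ha hL1 haL
  set x := 2 * Real.pi * a / L with hx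
  have hx0 : 0 ≤ x := by positivity
  have hx26 : x ≤ 26 := by
    rw [hx, div_le_iff₀ (by linarith)]
    nlinarith
  set f : ℝ → ℝ := fun t => (NZ (t + x) : ℝ) - NZ t with hf
  set l := Real.log (1 + a) with hl
  have hl0 : 0 ≤ l := Real.log_nonneg (by linarith)
  have hii : ∀ c u v : ℝ, IntervalIntegrable (fun t => (f t - c) ^ 2) volume u v :=
    fun c u v => f_ii x c u v hx0
  set G : ℝ → ℝ := fun b => (∫ t in (0 : ℝ)..b, (f t - a) ^ 2) - b / Real.pi ^ 2 * l with hG
  have hk : ∀ k < J, |G (T / 2 ^ k) - G (T / 2 ^ (k + 1))| ≤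
      T / 2 ^ (k + 1) * (128 * ((k : ℝ) + 1) ^ 2 + (2 * C + 2)) := by
    intro k hk
    set b := T / 2 ^ (k + 1) with hb
    have e1 : T / 2 ^ k = 2 * b := by rw [hb, pow_succ]; field_simp
    have hb1 : √T ≤ b := by
      refine hJ1.trans ?_
      rw [hb]
      gcongr
      · norm_num
      · omega
    have hb0 : 0 < b := lt_of_lt_of_le (Real.sqrt_pos.mpr hT0) hb1
    have hb10 : T1 ≤ b := b1.trans hb1
    have hbT : b ≤ T := by
      rw [hb]
      exact div_le_self hT0.le (one_le_pow₀ (by norm_num))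
    set B := Real.log b with hB
    have hB1 : B = L - (k + 1) * Real.log 2 := by
      rw [hB, hb, Real.log_div hT0.ne' (by positivity), Real.log_pow]
      push_cast; ring
    have hB2 : L / 2 ≤ B := by
      have : L / 2 = Real.log (√T) := by rw [Real.log_sqrt hT0.le]
      rw [this]
      exact Real.log_le_log (Real.sqrt_pos.mpr hT0) hb1
    have hB0 : 0 < B := by linarith
    have hBL : B ≤ L := Real.log_le_log hb0 hbT
    set a' := a * B / L with ha'
    have ha'0 : 0 < a' := by positivity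
    have haa : a' ≤ a := by
      rw [ha', div_le_iff₀ (by linarith)]
      exact mul_le_mul_of_nonneg_left hBL ha.le
    have h2a : a ≤ 2 * a' := by
      rw [ha', ← mul_div_assoc, le_div_iff₀ (by linarith)]
      nlinarith
    have hcond : a' * Real.log a' ≤ 4 * B := by
      rcases le_or_gt a' 1 with h1 | h1
      · have := Real.log_nonpos ha'0.le h1
        have h2 : a' * Real.log a' ≤ 0 := mul_nonpos_of_nonneg_of_nonpos ha'0.le this
        linarith
      · have h2 : Real.log a' ≤ Real.log a := Real.log_le_log ha'0 haa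
        calc a' * Real.log a' ≤ a' * Real.log a := mul_le_mul_of_nonneg_left h2 ha'0.le
          _ = (B / L) * (a * Real.log a) := by rw [ha']; field_simp
          _ ≤ (B / L) * (4 * L) := mul_le_mul_of_nonneg_left haL (by positivity)
          _ = 4 * B := by field_simp
    have hxx : 2 * Real.pi * a' / B = x := by
      rw [ha', hx]; field_simp
    obtain ⟨-, h1⟩ := hn b hb10 a' ha'0 hcond
    rw [hxx] at h1
    have h1' : |(∫ t in b..(2 * b), (f t - a') ^ 2) - b / Real.pi ^ 2 * Real.log (1 + a')| ≤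
        C * b := by
      have e : ∫ t in b..(2 * b), (f t - a') ^ 2 =
          ∫ t in b..(2 * b), ((Pool.Agent.TH850.UV.cnt t x : ℝ) - a') ^ 2 := by
        refine intervalIntegral.integral_congr fun t ht => ?_
        rw [uIcc_of_le (by linarith)] at ht
        show (f t - a') ^ 2 = ((Pool.Agent.TH850.UV.cnt t x : ℝ) - a') ^ 2
        rw [cnt_eq' (by linarith [ht.1]) hx0]
      rw [e]
      exact h1
    have hK : (1 + l) * (a - a') ^ 2 ≤ 64 * ((k : ℝ) + 1) ^ 2 := by
      have e : a - a' = a * (((k : ℝ) + 1) * Real.log 2) / L := by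
        rw [ha', hB1]; field_simp; ring
      have l2 : 0 < Real.log 2 := Real.log_pos (by norm_num)
      have l3 : Real.log 2 ^ 2 ≤ 1 := by
        have := Real.log_two_lt_d9
        nlinarith
      rw [e, div_pow, mul_pow, mul_pow, ← mul_div_assoc, div_le_iff₀ (by positivity)]
      calc (1 + l) * (a ^ 2 * (((k : ℝ) + 1) ^ 2 * Real.log 2 ^ 2)) =
            ((1 + l) * a ^ 2) * (((k : ℝ) + 1) ^ 2 * Real.log 2 ^ 2) := by ring
        _ ≤ (64 * L ^ 2) * (((k : ℝ) + 1) ^ 2 * 1) := by gcongr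
        _ = 64 * ((k : ℝ) + 1) ^ 2 * L ^ 2 := by ring
    have h2 := centre hb0 ha'0 haa hC.le h2a (hii _ _ _) (hii _ _ _) h1' hK
    have e2 : G (2 * b) - G b = (∫ t in b..(2 * b), (f t - a) ^ 2) - b / Real.pi ^ 2 * l := by
      simp only [hG]
      rw [← intervalIntegral.integral_add_adjacent_intervals (hii a 0 b) (hii a b (2 * b))]
      ring
    rw [e1, e2]
    refine h2.trans (le_of_eq ?_)
    ring
  have h1 := dyadic J hk
  have hJ0 : 0 < T / 2 ^ J := by positivity
  have h2 : 0 ≤ T / 2 ^ J * (128 * ((J : ℝ) ^ 2 + 4 * J + 6) + (2 * C + 2)) := by positivity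
  have hJT : T / 2 ^ J ≤ T := div_le_self hT0.le (one_le_pow₀ (by norm_num))
  have h3 : |G (T / 2 ^ J)| ≤ T := by
    have c1 : 0 ≤ ∫ t in (0 : ℝ)..(T / 2 ^ J), (f t - a) ^ 2 :=
      intervalIntegral.integral_nonneg hJ0.le fun t _ => sq_nonneg _
    have c2 : ∫ t in (0 : ℝ)..(T / 2 ^ J), (f t - a) ^ 2 ≤ T / 2 ^ J * ((M + 4) * L) ^ 2 := by
      have := intervalIntegral.integral_mono_on hJ0.le (hii a 0 (T / 2 ^ J))
        (intervalIntegrable_const (c := ((M + 4) * L) ^ 2)) (fun t ht => ?_)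
      · rw [intervalIntegral.integral_const, smul_eq_mul, sub_zero] at this
        exact this
      · have d1 : f t ≤ M * L := hcr T (by linarith) t x (ht.2.trans hJT) hx0 hx26
        have d2 : 0 ≤ f t := by
          have : (NZ t : ℝ) ≤ NZ (t + x) := by exact_mod_cast SG.NZ_mono (by linarith)
          simp only [hf]; linarith
        rw [← sq_abs]
        apply pow_le_pow_left₀ (abs_nonneg _)
        rw [abs_le]
        have : 0 ≤ M * L := by positivity
        constructor <;> linarith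
    have c3 : l ≤ 4 * L := by
      have := Real.log_le_sub_one_of_pos (show 0 < 1 + a by linarith)
      linarith
    have c4 : T / 2 ^ J / Real.pi ^ 2 * l ≤ T / 2 ^ J * (4 * L) := by
      have c5 : T / 2 ^ J / Real.pi ^ 2 ≤ T / 2 ^ J := div_le_self hJ0.le (by nlinarith)
      exact mul_le_mul c5 c3 hl0 hJ0.le
    have c6 : 0 ≤ T / 2 ^ J / Real.pi ^ 2 * l := by positivity
    have c7 : T / 2 ^ J * ((M + 4) * L) ^ 2 + T / 2 ^ J * (4 * L) ≤ T := by
      have d1 := hT3 T a3
      rw [← hL] at d1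
      calc T / 2 ^ J * ((M + 4) * L) ^ 2 + T / 2 ^ J * (4 * L) =
            T / 2 ^ J * ((M + 4) ^ 2 * L ^ 2 + 4 * L) := by ring
        _ ≤ (2 * √T) * ((M + 4) ^ 2 * L ^ 2 + 4 * L ^ 2) := by
            have : L ≤ L ^ 2 := by nlinarith
            gcongr
        _ = √T * (2 * ((M + 4) ^ 2 + 4) * L ^ 2) := by ring
        _ ≤ √T * √T := by gcongr
        _ = T := hsq
    have c8 : 0 ≤ T / 2 ^ J * ((M + 4) * L) ^ 2 := by positivity
    have c9 : 0 ≤ T / 2 ^ J * (4 * L) := by positivity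
    simp only [hG]
    rw [abs_le]
    constructor <;> linarith
  have h4 : |G T| ≤ |G T - G (T / 2 ^ J)| + |G (T / 2 ^ J)| := by
    have := abs_add_le (G T - G (T / 2 ^ J)) (G (T / 2 ^ J))
    rwa [sub_add_cancel] at this
  have h5 : |G T| ≤ (6 * 128 + (2 * C + 2) + 1) * T := by linarith
  exact h5

/-- the triangular kernel of the zeros, with error `O(T)` -/
theorem kernel : ∃ C T0 : ℝ, 0 ≤ C ∧ 3 ≤ T0 ∧ ∀ T : ℝ, T0 ≤ T → ∃ θ : ℝ, |θ| ≤ C ∧
    2 * Real.pi / Real.log T * NZ T = T * (1 + θ / Real.log T) ∧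
    ∀ a : ℝ, 0 ≤ a → a * Real.log a ≤ 4 * Real.log T →
    |KT (ZS_finite T).toFinset mr Complex.im (a * (2 * Real.pi / Real.log T)) -
      a ^ 2 * T * (1 + 2 * θ / Real.log T) - T / Real.pi ^ 2 * Real.log (1 + a)| ≤ C * T := by
  classical
  obtain ⟨C1, T1, hC1, hT1, hnv⟩ := nv_all
  obtain ⟨C2, T2, hC2, hnz⟩ := NZ_asymp
  obtain ⟨M, hM, hcr⟩ := crude
  obtain ⟨T3, hT3⟩ := ev_log (78 * (M + 4) ^ 2)
  refine ⟨C1 + 7 * C2 + 1, max (max T1 T2) (max T3 100), by positivity,
    by linarith [le_max_right (max T1 T2) (max T3 100), le_max_right T3 100], fun T hT => ?_⟩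
  have a1 : T1 ≤ T := (le_max_left _ _).trans ((le_max_left _ _).trans hT)
  have a2 : T2 ≤ T := (le_max_right _ _).trans ((le_max_left _ _).trans hT)
  have a3 : T3 ≤ T := (le_max_left _ _).trans ((le_max_right _ _).trans hT)
  have a4 : 100 ≤ T := (le_max_right _ _).trans ((le_max_right _ _).trans hT)
  have hT0 : 0 < T := by linarith
  have hpi := Real.pi_gt_three
  have hpi4 := Real.pi_lt_d2
  set L := Real.log T with hL
  have hL1 : 1 ≤ L := by
    rw [hL, Real.le_log_iff_exp_le hT0]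
    exact (Real.exp_one_lt_d9.le).trans (by linarith)
  have hn := hnz T a2
  rw [← hL] at hn
  refine ⟨L * (2 * Real.pi / L * NZ T / T - 1), ?_, ?_, ?_⟩
  · have e : L * (2 * Real.pi / L * NZ T / T - 1) =
        (2 * Real.pi) / T * ((NZ T : ℝ) - T * L / (2 * Real.pi)) := by
      field_simp
    rw [e, abs_mul, abs_of_pos (by positivity)]
    calc 2 * Real.pi / T * |(NZ T : ℝ) - T * L / (2 * Real.pi)| ≤ 2 * Real.pi / T * (C2 * T) := by
          gcongr
      _ = 2 * Real.pi * C2 := by field_simp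
      _ ≤ C1 + 7 * C2 + 1 := by nlinarith
  · field_simp; ring
  intro a ha haL
  rcases ha.eq_or_lt with h0 | h0
  · rw [← h0]
    have e : KT (ZS_finite T).toFinset mr Complex.im (0 * (2 * Real.pi / L)) = 0 := by
      unfold KT
      refine Finset.sum_eq_zero fun i _ => Finset.sum_eq_zero fun j _ => ?_
      rw [zero_mul, zero_sub, max_eq_left (neg_nonpos.mpr (abs_nonneg _)), mul_zero]
    rw [e]
    simp
    positivity
  · have haL' : a ≤ 4 * L := small_le h0 hL1 haL
    set x := 2 * Real.pi * a / L with hx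
    have hxe : a * (2 * Real.pi / L) = x := by rw [hx]; ring
    have hx0 : 0 ≤ x := by positivity
    have hx26 : x ≤ 26 := by
      rw [hx, div_le_iff₀ (by linarith)]
      nlinarith
    have hML : 0 ≤ M * L := by positivity
    have hbd : ∀ t, t ≤ T → (NZ (t + x) : ℝ) - NZ t ≤ (M + 4) * L := by
      intro t ht
      have := hcr T (by linarith) t x ht hx0 hx26
      rw [← hL] at this
      linarith
    have h1 := compare (Z := (ZS_finite T).toFinset) (m := mr) (γ := Complex.im)
      (F := fun t => (NZ (t + x) : ℝ) - NZ t) (T := T) (x := x) (a := a) (M := (M + 4) * L)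
      hx0 (by linarith) (fun s _ => mr_nonneg s)
      (fun s hs => by
        rw [Set.Finite.mem_toFinset] at hs
        exact ⟨hs.2.2.2.1, hs.2.2.2.2⟩)
      ha (fun t ht => g_eq hx0 (by linarith [ht.2]))
      (fun t ht => (g_le hx0).trans (hbd t ht.2))
      (fun t ht => ⟨by
        have : (NZ t : ℝ) ≤ NZ (t + x) := by exact_mod_cast SG.NZ_mono (by linarith)
        linarith, hbd t ht.2⟩)
      (by nlinarith) (f_ii x a 0 T hx0) rfl
    have h2 := hnv T a1 a h0 haL
    rw [← hL, ← hx] at h2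
    have h3 : ∑ i ∈ (ZS_finite T).toFinset, mr i = (NZ T : ℝ) := by
      rw [SG.NZ_eq]; push_cast; rfl
    rw [h3] at h1
    have h4 : 3 * (x * ((M + 4) * L) ^ 2) ≤ T := by
      have d1 := hT3 T a3
      have d2 : √T ≤ T := (Real.sqrt_le_left hT0.le).mpr (by nlinarith)
      rw [← hL] at d1
      calc 3 * (x * ((M + 4) * L) ^ 2) ≤ 3 * (26 * ((M + 4) * L) ^ 2) := by gcongr
        _ = 78 * (M + 4) ^ 2 * L ^ 2 := by ring
        _ ≤ T := d1.trans d2
    rw [hxe]
    have e2 : 2 * a * (x * (NZ T : ℝ)) - a ^ 2 * T =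
        a ^ 2 * T * (1 + 2 * (L * (2 * Real.pi / L * NZ T / T - 1)) / L) := by
      rw [hx]; field_simp; ring
    set V := ∫ t in (0 : ℝ)..T, ((NZ (t + x) : ℝ) - NZ t - a) ^ 2 with hV
    have e3 : KT (ZS_finite T).toFinset mr Complex.im x -
        a ^ 2 * T * (1 + 2 * (L * (2 * Real.pi / L * NZ T / T - 1)) / L) -
        T / Real.pi ^ 2 * Real.log (1 + a) =
        (KT (ZS_finite T).toFinset mr Complex.im x - 2 * a * (x * (NZ T : ℝ)) + a ^ 2 * T - V) +
        (V - T / Real.pi ^ 2 * Real.log (1 + a)) := by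
      rw [← e2]; ring
    rw [e3]
    refine (abs_add_le _ _).trans ?_
    have h5 : 0 ≤ 7 * C2 * T := by positivity
    linarith

end Helper859_PC
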