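import Pool.Agent.Helper859_PC.Dy
import Pool.Agent.TH850.UV.NVh
import Pool.Agent.H382R2.Final0

/-! # Number variance and number of zeros on `[0, T]` -/

set_option autoImplicit false

open MeasureTheory Set Filter Topology

namespace Helper859_PC

open SG (NZ ZS ZS_finite zmult)

/-- the multiplicity as a real number -/
noncomputable def mr (s : ℂ) : ℝ := (zmult s : ℝ)

lemma mr_nonneg (s : ℂ) : 0 ≤ mr s := Nat.cast_nonneg _

open Classical in
lemma NZ_ite {u X : ℝ} (h : u ≤ X) :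
    (NZ u : ℝ) = ∑ s ∈ (ZS_finite X).toFinset, mr s * (if s.im ≤ u then 1 else 0) := by
  rw [SG.NZ_eq]
  push_cast
  have e : (ZS_finite u).toFinset = (ZS_finite X).toFinset.filter fun s => s.im ≤ u := by
    ext s
    rw [Finset.mem_filter, Set.Finite.mem_toFinset, Set.Finite.mem_toFinset]
    constructor
    · rintro ⟨a1, a2, a3, a4, a5⟩
      exact ⟨⟨a1, a2, a3, a4, a5.trans h⟩, a5⟩
    · rintro ⟨⟨a1, a2, a3, a4, a5⟩, a6⟩
      exact ⟨a1, a2, a3, a4, a6⟩
  rw [e, Finset.sum_filter]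
  refine Finset.sum_congr rfl fun s _ => ?_
  split_ifs
  · rw [mul_one]; rfl
  · rw [mul_zero]

/-- the window function -/
lemma g_eq {t x X : ℝ} (hx : 0 ≤ x) (h : t + x ≤ X) :
    g (ZS_finite X).toFinset mr Complex.im x t = NZ (t + x) - NZ t := by
  classical
  rw [NZ_ite h, NZ_ite (show t ≤ X by linarith), ← Finset.sum_sub_distrib]
  unfold g
  refine Finset.sum_congr rfl fun s _ => ?_
  rw [← mul_sub]
  congr 1
  rw [Set.indicator_apply]
  by_cases h1 : s.im ≤ t
  · rw [if_neg (fun h2 => absurd h2.2 (not_lt.mpr h1)), if_pos h1, if_pos (by linarith)]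
    norm_num
  · rw [if_neg h1]
    by_cases h2 : s.im ≤ t + x
    · rw [if_pos h2, if_pos ⟨by linarith, not_le.mp h1⟩]
      norm_num
    · rw [if_neg h2, if_neg (fun h3 => h2 (by linarith [h3.1]))]
      norm_num

lemma g_le {t x X : ℝ} (hx : 0 ≤ x) :
    g (ZS_finite X).toFinset mr Complex.im x t ≤ NZ (t + x) - NZ t := by
  classical
  rw [← g_eq (X := max X (t + x)) hx (le_max_right _ _)]
  unfold g
  refine Finset.sum_le_sum_of_subset_of_nonneg ?_ fun s _ _ =>
    mul_nonneg (mr_nonneg s) (indicator_nonneg (fun _ _ => zero_le_one) _)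
  intro s hs
  rw [Set.Finite.mem_toFinset] at hs ⊢
  exact ⟨hs.1, hs.2.1, hs.2.2.1, hs.2.2.2.1, hs.2.2.2.2.trans (le_max_left _ _)⟩

lemma cnt_eq' {t h : ℝ} (ht : 0 < t) (hh : 0 ≤ h) :
    (Pool.Agent.TH850.UV.cnt t h : ℝ) = (NZ (t + h) : ℝ) - NZ t := by
  classical
  set F := (SG.ZS_finite (t + h)).toFinset with hF
  have hset : {s : ℂ | s ∈ Pool.Agent.TH850.UR.zeros ∧ (t < s.im ∧ s.im ≤ t + h)} =
      (F.filter fun s => t < s.im : Finset ℂ) := by
    ext s
    simp only [mem_ofPred_eq, Finset.coe_filter, hF, Set.Finite.mem_toFinset,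
      Pool.Agent.TH850.UR.zeros, SG.ZS]
    constructor
    · rintro ⟨⟨a1, a2, a3⟩, a4, a5⟩
      exact ⟨⟨a1, a2, a3, ht.trans a4, a5⟩, a4⟩
    · rintro ⟨⟨a1, a2, a3, _, a5⟩, a4⟩
      exact ⟨⟨a1, a2, a3⟩, a4, a5⟩
  have h1 : Pool.Agent.TH850.UV.cnt t h = ∑ s ∈ F.filter (fun s => t < s.im), SG.zmult s := by
    unfold Pool.Agent.TH850.UV.cnt
    rw [hset]
    exact finsum_mem_coe_finset _ _
  have h2 : NZ t = ∑ s ∈ F.filter (fun s => ¬ t < s.im), SG.zmult s := by
    rw [SG.NZ_eq]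
    congr 1
    ext s
    rw [Finset.mem_filter, Set.Finite.mem_toFinset, hF, Set.Finite.mem_toFinset]
    constructor
    · rintro ⟨a1, a2, a3, a4, a5⟩
      exact ⟨⟨a1, a2, a3, a4, by linarith⟩, not_lt.mpr a5⟩
    · rintro ⟨⟨a1, a2, a3, a4, a5⟩, a6⟩
      exact ⟨a1, a2, a3, a4, not_lt.mp a6⟩
  have h3 : NZ (t + h) = Pool.Agent.TH850.UV.cnt t h + NZ t := by
    rw [h1, h2, SG.NZ_eq, Finset.sum_filter_add_sum_filter_not]
  rw [h3]
  push_cast
  ring

lemma f_ii (x a u v : ℝ) (hx : 0 ≤ x) :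
    IntervalIntegrable (fun t => ((NZ (t + x) : ℝ) - NZ t - a) ^ 2) volume u v := by
  refine (dev_ii (ZS_finite (max u v + x)).toFinset mr Complex.im x a u v).congr ?_
  intro t ht
  have h1 : t ≤ max u v := (uIoc_subset_uIcc ht).2
  simp only
  rw [g_eq hx (by linarith)]

/-- the crude bound -/
lemma crude : ∃ C : ℝ, 0 < C ∧ ∀ T : ℝ, 3 ≤ T → ∀ t x : ℝ, t ≤ T → 0 ≤ x → x ≤ 26 →
    (NZ (t + x) : ℝ) - NZ t ≤ C * Real.log T := by
  obtain ⟨C, hC, hz⟩ := H370.zcount H370.good_zeta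
  have step : ∀ n : ℕ, ∀ t : ℝ, 2 ≤ t →
      (NZ (t + 2 * n) : ℝ) ≤ NZ t + n * (C * Real.log (t + 2 * n + 1)) := by
    intro n t ht
    induction n with
    | zero => simp
    | succ n ih =>
      have hn : (0 : ℝ) ≤ n := Nat.cast_nonneg n
      have h1 := SG.NZ_le_add (t + 2 * n) (t + 2 * n + 2) (by linarith)
      have h2 := hz (t + 2 * n + 1) (by linarith)
      have e1 : t + 2 * (n : ℝ) + 1 - 1 = t + 2 * n := by ring
      have e2 : t + 2 * (n : ℝ) + 1 + 1 = t + 2 * n + 2 := by ring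
      rw [e1, e2] at h2
      have h3 : (NZ (t + 2 * n + 2) : ℝ) ≤ NZ (t + 2 * n) +
          H370.NN riemannZeta (t + 2 * n) (t + 2 * n + 2) := by exact_mod_cast h1
      have e3 : t + 2 * ((n : ℝ) + 1) = t + 2 * n + 2 := by ring
      push_cast
      rw [e3]
      have h4 : Real.log (t + 2 * n + 1) ≤ Real.log (t + 2 * n + 2 + 1) :=
        Real.log_le_log (by linarith) (by linarith)
      have h5 : (n : ℝ) * (C * Real.log (t + 2 * n + 1)) ≤
          n * (C * Real.log (t + 2 * n + 2 + 1)) := by gcongr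
      have h6 : C * Real.log (t + 2 * n + 1) ≤ C * Real.log (t + 2 * n + 2 + 1) := by gcongr
      linarith
  refine ⟨65 * C + NZ 28, by positivity, fun T hT t x ht hx hx2 => ?_⟩
  have hL1 : 1 ≤ Real.log T := by
    rw [Real.le_log_iff_exp_le (by linarith)]
    exact (Real.exp_one_lt_d9.le).trans (by linarith)
  have hN : (0 : ℝ) ≤ NZ 28 := Nat.cast_nonneg _
  rcases le_or_gt 2 t with h | h
  · have h1 := step 13 t h
    have h2 : (NZ (t + x) : ℝ) ≤ NZ (t + 2 * (13 : ℕ)) := by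
      exact_mod_cast SG.NZ_mono (show t + x ≤ t + 2 * ((13 : ℕ) : ℝ) by push_cast; linarith)
    have h3 : Real.log (t + 2 * (13 : ℕ) + 1) ≤ 4 * Real.log T := by
      have e : 4 * Real.log T = Real.log (T ^ 4) := by rw [Real.log_pow]; norm_num
      rw [e]
      apply Real.log_le_log (by push_cast; linarith)
      push_cast
      have h4 : 27 * T ≤ T ^ 4 := by
        have : 27 ≤ T ^ 3 := by
          have := pow_le_pow_left₀ (by norm_num : (0 : ℝ) ≤ 3) hT 3
          norm_num at this; linarith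
        nlinarith
      linarith
    have h5 : ((13 : ℕ) : ℝ) * (C * Real.log (t + 2 * (13 : ℕ) + 1)) ≤
        13 * (C * (4 * Real.log T)) := by push_cast at *; gcongr
    nlinarith [mul_nonneg hN (zero_le_one.trans hL1), mul_nonneg hC.le (zero_le_one.trans hL1)]
  · have h2 : (NZ (t + x) : ℝ) ≤ NZ 28 := by
      exact_mod_cast SG.NZ_mono (show t + x ≤ 28 by linarith)
    have h3 : (0 : ℝ) ≤ NZ t := Nat.cast_nonneg _
    nlinarith [mul_nonneg hC.le (zero_le_one.trans hL1)]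

/-- increments of the counting function -/
lemma NZ_eq_add {a b : ℝ} (ha : 1 ≤ a) (hab : a ≤ b) :
    (NZ b : ℝ) = NZ a + H370.NN riemannZeta a b := by
  classical
  have h1 := SG.NZ_le_add a b ha
  have hfin := H370.zset_finite H370.good_zeta a b ha
  have hNN : H370.NN riemannZeta a b = ∑ s ∈ hfin.toFinset, zmult s :=
    finsum_mem_eq_finite_toFinset_sum _ hfin
  have h2 := SG.NZ_add_le a b hab hfin.toFinset (by
    intro s hs
    rw [Set.Finite.mem_toFinset] at hs
    exact ⟨⟨hs.2.2.2.2, hs.1, hs.2.1, by linarith [hs.2.2.1], hs.2.2.2.1⟩, hs.2.2.1⟩)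
  rw [← hNN] at h2
  have : NZ b = NZ a + H370.NN riemannZeta a b := le_antisymm h1 (by omega)
  exact_mod_cast this

/-- the number of zeros up to `T` -/
theorem NZ_asymp : ∃ C T0 : ℝ, 0 < C ∧ ∀ T : ℝ, T0 ≤ T →
    |(NZ T : ℝ) - T * Real.log T / (2 * Real.pi)| ≤ C * T := by
  obtain ⟨C, T1, hC, hT1, hn⟩ := H370.nn_asymp H370.good_zeta
  obtain ⟨T2, hT2⟩ := SG.NZ_pow_bound 1 one_pos
  obtain ⟨T3, hT3⟩ := ev_log 1
  refine ⟨C + 20, max (max (T1 ^ 2) (max T2 0 ^ 2)) (max T3 16), by positivity, fun T hT => ?_⟩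
  have a1 : T1 ^ 2 ≤ T := (le_max_left _ _).trans ((le_max_left _ _).trans hT)
  have a2 : max T2 0 ^ 2 ≤ T := (le_max_right _ _).trans ((le_max_left _ _).trans hT)
  have a3 : T3 ≤ T := (le_max_left _ _).trans ((le_max_right _ _).trans hT)
  have a4 : 16 ≤ T := (le_max_right _ _).trans ((le_max_right _ _).trans hT)
  have hT0 : 0 < T := by linarith
  have b1 : T1 ≤ √T := Real.le_sqrt_of_sq_le a1
  have b2 : T2 ≤ √T := (le_max_left _ _).trans (Real.le_sqrt_of_sq_le a2)
  obtain ⟨J, hJ1, hJ2⟩ := exists_J (show 1 ≤ T by linarith)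
  have hpi := Real.pi_gt_three
  set L := Real.log T with hL
  have hL1 : 1 ≤ L := by
    rw [hL, Real.le_log_iff_exp_le hT0]
    exact (Real.exp_one_lt_d9.le).trans (by linarith)
  set G : ℝ → ℝ := fun b => (NZ b : ℝ) - b * L / (2 * Real.pi) with hG
  have hsq : √T * √T = T := Real.mul_self_sqrt hT0.le
  have hk : ∀ k < J, |G (T / 2 ^ k) - G (T / 2 ^ (k + 1))| ≤
      T / 2 ^ (k + 1) * (1 * ((k : ℝ) + 1) ^ 2 + C) := by
    intro k hk
    set b := T / 2 ^ (k + 1) with hb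
    have e1 : T / 2 ^ k = 2 * b := by rw [hb, pow_succ]; field_simp
    have hb1 : √T ≤ b := by
      refine hJ1.trans ?_
      rw [hb]
      gcongr
      · norm_num
      · omega
    have hb0 : 0 < b := lt_of_lt_of_le (Real.sqrt_pos.mpr hT0) hb1
    have hb10 : 10 ≤ b := hT1.trans (b1.trans hb1)
    have h1 := hn b (b1.trans hb1) b (2 * b) le_rfl (by linarith) (by linarith) le_rfl
    have h2 := NZ_eq_add (show 1 ≤ b by linarith) (show b ≤ 2 * b by linarith)
    have h3 : Real.log b = L - (k + 1) * Real.log 2 := by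
      rw [hb, Real.log_div hT0.ne' (by positivity), Real.log_pow]
      push_cast; ring
    rw [e1]
    have e2 : G (2 * b) - G b = ((H370.NN riemannZeta b (2 * b) : ℝ) -
        b * Real.log b / (2 * Real.pi)) - b * ((k + 1) * Real.log 2) / (2 * Real.pi) := by
      simp only [hG]
      rw [h2, h3]
      ring
    have h4 : |b * ((k + 1) * Real.log 2) / (2 * Real.pi)| ≤ b * (1 * ((k : ℝ) + 1) ^ 2) := by
      have hk0 : (0 : ℝ) ≤ k := Nat.cast_nonneg k
      have l2 : 0 < Real.log 2 := Real.log_pos (by norm_num)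
      rw [abs_of_nonneg (by positivity), div_le_iff₀ (by positivity)]
      have : ((k : ℝ) + 1) * Real.log 2 ≤ 1 * ((k : ℝ) + 1) ^ 2 * (2 * Real.pi) := by
        have h5 : ((k : ℝ) + 1) * Real.log 2 ≤ (k + 1) * 1 := by
          have := Real.log_two_lt_d9
          gcongr
          linarith
        nlinarith
      calc b * ((k + 1) * Real.log 2) ≤ b * (1 * ((k : ℝ) + 1) ^ 2 * (2 * Real.pi)) := by gcongr
        _ = _ := by ring
    rw [e2]
    refine (abs_sub _ _).trans ?_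
    linarith
  have h1 := dyadic J hk
  have hJ0 : 0 < T / 2 ^ J := by positivity
  have h2 : 0 ≤ T / 2 ^ J * (1 * ((J : ℝ) ^ 2 + 4 * J + 6) + C) := by positivity
  have h3 : |G (T / 2 ^ J)| ≤ 2 * T := by
    have c1 : (NZ (T / 2 ^ J) : ℝ) ≤ T := by
      have := hT2 (√T) b2
      have c2 : (NZ (T / 2 ^ J) : ℝ) ≤ NZ (2 * √T) := by exact_mod_cast SG.NZ_mono hJ2
      have e : √T ^ ((1 : ℝ) + 1) = T := by
        rw [Real.rpow_add (Real.sqrt_pos.mpr hT0), Real.rpow_one, hsq]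
      rw [e] at this
      exact c2.trans this
    have c3 : T / 2 ^ J * L / (2 * Real.pi) ≤ T := by
      rw [div_le_iff₀ (by positivity)]
      have c4 : L ≤ √T := by
        have := hT3 T a3
        nlinarith
      calc T / 2 ^ J * L ≤ (2 * √T) * √T := by gcongr
        _ = 2 * T := by rw [mul_assoc, hsq]
        _ ≤ T * (2 * Real.pi) := by nlinarith
    have c5 : (0 : ℝ) ≤ NZ (T / 2 ^ J) := Nat.cast_nonneg _
    have c6 : 0 ≤ T / 2 ^ J * L / (2 * Real.pi) := by positivity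
    simp only [hG]
    rw [abs_le]
    constructor <;> linarith
  have h4 : |G T| ≤ |G T - G (T / 2 ^ J)| + |G (T / 2 ^ J)| := by
    have := abs_add_le (G T - G (T / 2 ^ J)) (G (T / 2 ^ J))
    rwa [sub_add_cancel] at this
  have h5 : |G T| ≤ (C + 20) * T := by nlinarith
  exact h5

end Helper859_PC
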